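import Mathlib

/-!
# Five numbers: definitions

Project Pat5 for the problem on `π + e`, `π e`, `π ^ e`, `e ^ e`, `π ^ π`. Everything here is a
definition or has a short proof.
-/

set_option autoImplicit false

namespace Pool.Agent.Pat5

open Complex

/-- The field of algebraic numbers. -/
noncomputable abbrev Qbar : IntermediateField ℚ ℂ := algebraicClosure ℚ ℂ

/-- Rational powers of numbers which are algebraic over a field are algebraic over it. -/
theorem alg_exp_rat {F : Type*} [Field F] [Algebra F ℂ] {y : ℂ} (h : IsAlgebraic F (exp y))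
    (r : ℚ) : IsAlgebraic F (exp (r * y)) := by
  have h1 : exp (r * y) ^ r.den = exp y ^ r.num := by
    rw [← exp_nat_mul, ← exp_int_mul]
    congr 1
    have h2 : (r.den : ℂ) * (r : ℂ) = (r.num : ℂ) := by
      have := Rat.den_mul_eq_num r
      exact_mod_cast congrArg (fun q : ℚ => (q : ℂ)) this
    rw [← mul_assoc, h2]
  refine IsAlgebraic.of_pow r.den_pos ?_
  rw [h1]
  cases r.num with
  | ofNat n => rw [Int.ofNat_eq_natCast, zpow_natCast]; exact h.pow n
  | negSucc n => rw [zpow_negSucc]; exact (h.pow _).inv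

/-- `E` is an exponential function of the complex numbers with the periods `2 p i n`, which is
real and positive on the real line. -/
structure IsExp (E : ℂ → ℂ) (p : ℝ) : Prop where
  pos : 0 < p
  add : ∀ x y, E (x + y) = E x * E y
  surj : ∀ z, z ≠ 0 → ∃ x, E x = z
  ker : ∀ x, E x = 1 ↔ ∃ n : ℤ, x = n * (2 * p * I)
  conj : ∀ x, E (starRingEnd ℂ x) = starRingEnd ℂ (E x)
  real : ∀ x : ℝ, 0 < (E x).re

/-- The vector space over the algebraic numbers spanned by `1` and the logarithms, for `E`, of the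
algebraic numbers. -/
noncomputable def logSpan (E : ℂ → ℂ) : Submodule Qbar ℂ :=
  Submodule.span Qbar ({1} ∪ {z | IsAlgebraic ℚ (E z)})

/-- The theorems of Lindemann and Weierstrass, of Baker, and the strong six exponentials theorem
of Roy, for a function `E` in place of the exponential function. -/
structure Theorems (E : ℂ → ℂ) : Prop where
  lindemann_weierstrass : ∀ (n : ℕ) (a : Fin n → ℂ), (∀ i, IsAlgebraic ℚ (a i)) →
    LinearIndependent ℚ a → AlgebraicIndependent ℚ (fun i => E (a i))
  baker : ∀ (n : ℕ) (l : Fin n → ℂ), (∀ i, IsAlgebraic ℚ (E (l i))) →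
    LinearIndependent ℚ l → LinearIndependent Qbar (fun o : Option (Fin n) => o.elim 1 l)
  six : ∀ (x : Fin 2 → ℂ) (y : Fin 3 → ℂ), LinearIndependent Qbar x →
    LinearIndependent Qbar y → ∃ i j, x i * y j ∉ logSpan E

/-- The conjecture on the algebraic independence of logarithms, for `E` in place of the
exponential function. -/
def LogIndep (E : ℂ → ℂ) : Prop := ∀ (n : ℕ) (l : Fin n → ℂ), (∀ i, IsAlgebraic ℚ (E (l i))) →
  LinearIndependent ℚ l → AlgebraicIndependent ℚ l

/-- The five numbers `π + e`, `π e`, `π ^ e`, `e ^ e`, `π ^ π` with `E`, `p`, `l` in place of the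
exponential function, `π` and `log π`. -/
noncomputable def five (E : ℂ → ℂ) (p l : ℝ) : Fin 5 → ℂ :=
  ![p + E 1, p * E 1, E (E 1 * l), E (E 1), E (p * l)]

/-- The sets of indices which the three theorems allow. -/
def good : Finset (Finset (Fin 5)) :=
  {∅, {0}, {1}, {2}, {3}, {4}, {0, 2}, {0, 4}, {1, 2}, {1, 3}, {1, 4}, {2, 3}, {2, 4}, {3, 4},
    {2, 3, 4}}

/-- The sets of indices which the three theorems and the algebraic independence of logarithms
allow. -/
def strong : Finset (Finset (Fin 5)) :=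
  {∅, {0}, {1}, {2}, {3}, {4}, {0, 2}, {0, 4}, {2, 3}, {2, 4}, {3, 4}}

/-- The real numbers which are algebraic. -/
def Qr : Submodule ℚ ℝ where
  carrier := {x | IsAlgebraic ℚ x}
  add_mem' := fun ha hb => ha.add hb
  zero_mem' := isAlgebraic_zero
  smul_mem' := fun c x hx => by
    rw [Rat.smul_def]
    exact (isAlgebraic_algebraMap (A := ℝ) c).mul hx

/-- The real logarithms of algebraic numbers. -/
def Lr : Submodule ℚ ℝ where
  carrier := {x | IsAlgebraic ℚ (Real.exp x)}
  add_mem' := fun {a b} ha hb => by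
    rw [Set.mem_ofPred_eq, Real.exp_add]
    exact IsAlgebraic.mul ha hb
  zero_mem' := by
    rw [Set.mem_ofPred_eq, Real.exp_zero]
    exact isAlgebraic_one
  smul_mem' := fun c x hx => by
    rw [Set.mem_ofPred_eq] at hx ⊢
    rw [Rat.smul_def]
    rw [← isAlgebraic_algebraMap_iff (algebraMap ℝ ℂ).injective] at hx ⊢
    simp only [coe_algebraMap, ofReal_exp, ofReal_mul, ofReal_ratCast] at hx ⊢
    exact alg_exp_rat hx c

/-- The arguments of the algebraic numbers of absolute value `1`. -/
def Li : Submodule ℚ ℝ where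
  carrier := {y | IsAlgebraic ℚ (exp (y * I))}
  add_mem' := fun {a b} ha hb => by
    rw [Set.mem_ofPred_eq, ofReal_add, add_mul, exp_add]
    exact IsAlgebraic.mul ha hb
  zero_mem' := by
    rw [Set.mem_ofPred_eq, ofReal_zero, zero_mul, exp_zero]
    exact isAlgebraic_one
  smul_mem' := fun c x hx => by
    rw [Set.mem_ofPred_eq] at hx ⊢
    rw [Rat.smul_def, ofReal_mul, ofReal_ratCast, mul_assoc]
    exact alg_exp_rat hx c

theorem mem_Qr {x : ℝ} : x ∈ Qr ↔ IsAlgebraic ℚ x := Iff.rfl

theorem mem_Lr {x : ℝ} : x ∈ Lr ↔ IsAlgebraic ℚ (Real.exp x) := Iff.rfl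

theorem mem_Li {y : ℝ} : y ∈ Li ↔ IsAlgebraic ℚ (exp (y * I)) := Iff.rfl

theorem mem_Qbar {z : ℂ} : z ∈ Qbar ↔ IsAlgebraic ℚ z := mem_algebraicClosure_iff

end Pool.Agent.Pat5
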