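import Mathlib
import Pool.Agent.Pat5.Defs

/-!
# Pat5 P5: exchange of algebraically independent families

Proofs. `ai_of_alg`: let `L` be the field `IntermediateField.adjoin F (range y)` and `M` the
algebraic closure of `L` in `ℂ` (or the field generated by `x` and `y`); `M` contains the `x i`,
so the transcendence degree of `M` over `F` is at least the number of the elements of `ι`
(`AlgebraicIndependent.cardinalMk_le_trdeg`, after viewing the `x i` as elements of `M`), and `M`
is algebraic over `F(y)`. A family of `#ι` elements over which `M` is algebraic, with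
`#ι ≤ trdeg F M`, is a transcendence basis: `isTranscendenceBasis_of_le_trdeg_of_finite` (it wants
`Algebra.IsAlgebraic (Algebra.adjoin F (range y)) M`, which follows from the one over the
fraction field). So `y` is algebraically independent in `M`, hence in `ℂ`.

`ai_pointwise`: algebraic independence can be checked on finite subfamilies
(`algebraicIndependent_of_finite_type`, `AlgebraicIndependent.comp`); for a finite set `t` of
indices the numbers `x k` with `k` in `t` are algebraic over the field generated by the `y k`,
`k` in `t`; use `ai_of_alg`.
-/

set_option autoImplicit false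

namespace Pool.Agent.Pat5

open Algebra in
open scoped IntermediateField.algebraAdjoinAdjoin in
/-- If the algebraically independent numbers `x i` are algebraic over the field generated by
equally many numbers `y i`, then the `y i` are algebraically independent. -/
theorem ai_of_alg {F : Type} [Field F] [Algebra F ℂ] {ι : Type} [Finite ι] {x y : ι → ℂ}
    (hx : AlgebraicIndependent F x)
    (h : ∀ i, IsAlgebraic (IntermediateField.adjoin F (Set.range y)) (x i)) :
    AlgebraicIndependent F y := by
  let M : IntermediateField F ℂ :=
    (algebraicClosure (IntermediateField.adjoin F (Set.range y)) ℂ).restrictScalars F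
  have hxM : ∀ i, x i ∈ M := fun i => mem_algebraicClosure_iff.2 (h i)
  have hLM : ∀ z : IntermediateField.adjoin F (Set.range y), (z : ℂ) ∈ M := fun z =>
    mem_algebraicClosure_iff.2 (isAlgebraic_algebraMap z)
  have hyL : ∀ i, y i ∈ IntermediateField.adjoin F (Set.range y) :=
    fun i => IntermediateField.subset_adjoin F _ ⟨i, rfl⟩
  have hyM : ∀ i, y i ∈ M := fun i => hLM ⟨y i, hyL i⟩
  let x' : ι → M := fun i => ⟨x i, hxM i⟩
  let y' : ι → M := fun i => ⟨y i, hyM i⟩
  have hx' : AlgebraicIndependent F x' := AlgebraicIndependent.of_comp M.val hx
  have le : Cardinal.mk ι ≤ trdeg F M := hx'.cardinalMk_le_trdeg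
  have hset : (adjoin F (Set.range y')).map M.val = adjoin F (Set.range y) := by
    rw [AlgHom.map_adjoin]
    congr 1
    rw [← Set.range_comp]
    rfl
  have hinj : Function.Injective M.val := M.val.injective
  let e : adjoin F (Set.range y') ≃ₐ[F] adjoin F (Set.range y) :=
    ((adjoin F (Set.range y')).equivMapOfInjective M.val hinj).trans
      (Subalgebra.equivOfEq _ _ hset)
  have he : ∀ a, ((e a : adjoin F (Set.range y)) : ℂ) = M.val (a : M) := fun a => rfl
  have alg : Algebra.IsAlgebraic (adjoin F (Set.range y')) M := by
    constructor
    intro m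
    have h1 : IsAlgebraic (IntermediateField.adjoin F (Set.range y)) (m : ℂ) :=
      mem_algebraicClosure_iff.1 m.2
    have h2 : IsAlgebraic (adjoin F (Set.range y)) (m : ℂ) :=
      (IsFractionRing.isAlgebraic_iff (adjoin F (Set.range y))
        (IntermediateField.adjoin F (Set.range y)) ℂ).2 h1
    obtain ⟨P, hP0, hP⟩ := h2
    refine ⟨P.map (e.symm : adjoin F (Set.range y) →+* adjoin F (Set.range y')), ?_, ?_⟩
    · rw [Ne, Polynomial.map_eq_zero_iff]
      · exact hP0
      · exact e.symm.injective
    · apply hinj
      rw [map_zero, ← hP, Polynomial.aeval_def, Polynomial.aeval_def, Polynomial.eval₂_map]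
      rw [← AlgHom.coe_toRingHom, Polynomial.hom_eval₂]
      congr 1
      ext a
      have h3 := he (e.symm a)
      rw [AlgEquiv.apply_symm_apply] at h3
      exact h3.symm
  have hb := Algebra.IsAlgebraic.isTranscendenceBasis_of_le_trdeg_of_finite F y' le
  exact hb.1.map' (f := M.val) M.val.injective

/-- The pointwise version, for infinite families. -/
theorem ai_pointwise {F : Type} [Field F] [Algebra F ℂ] {κ : Type} {x y : κ → ℂ}
    (hx : AlgebraicIndependent F x)
    (h : ∀ k, IsAlgebraic (IntermediateField.adjoin F {y k}) (x k)) :
    AlgebraicIndependent F y := by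
  refine algebraicIndependent_of_finite_type fun t ht => ?_
  have := ht.to_subtype
  refine ai_of_alg (x := fun i : t => x i) (hx.comp _ Subtype.val_injective) fun i => ?_
  have hle : IntermediateField.adjoin F {y i} ≤
      IntermediateField.adjoin F (Set.range fun i : t => y i) :=
    IntermediateField.adjoin.mono _ _ _ (by
      rw [Set.singleton_subset_iff]
      exact ⟨i, rfl⟩)
  obtain ⟨P, hP0, hP⟩ := h i
  refine ⟨P.map (IntermediateField.inclusion hle).toRingHom, ?_, ?_⟩
  · rw [Ne, Polynomial.map_eq_zero_iff]
    · exact hP0
    · exact (IntermediateField.inclusion hle).injective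
  · rw [Polynomial.aeval_def, Polynomial.eval₂_map, ← hP, Polynomial.aeval_def]
    rfl

end Pool.Agent.Pat5
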