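import Mathlib
import Pool.Agent.Pat5.Defs

/-!
# Pat5 P3: the algebraic closure of `ℚ(z)` and algebraic independence in towers

Proofs. `mem_Kc`: membership in `restrictScalars` is definitional, then
`mem_algebraicClosure_iff`. `Qbar_le_Kc`: an element algebraic over `ℚ` is algebraic over
`ℚ(z)` (`IsAlgebraic.tower_top`/`extendScalars`). `mem_Kc_of_isAlgebraic`: transitivity of
algebraic extensions (`Kc z` is algebraic over `ℚ(z)`, `isAlgebraic_trans`-type lemma
`IsAlgebraic.restrictScalars`). `exp_rat_mem_Kc`: `alg_exp_rat` with `F = Kc z` and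
`mem_Kc_of_isAlgebraic`.

`ai_Qbar`: `AlgebraicIndependent.extendScalars` or `subalgebraAlgebraicClosure`/
`extendScalars_of_isIntegral` (file `Mathlib/RingTheory/AlgebraicIndependent/AlgebraicClosure`):
`Qbar` is algebraic over `ℚ`.

`ai_Kc`: `AlgebraicIndependent.sumElim_iff` (or `sumElim_comm`, see
`Mathlib/RingTheory/AlgebraicIndependent/Transcendental`, `TranscendenceBasis`) says that `s` is
algebraically independent over `Algebra.adjoin ℚ (range z)`; pass to the fraction field
`IntermediateField.adjoin ℚ (range z)` (algebraic over the former, every element is a quotient)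
and then to its algebraic closure `Kc z` by `extendScalars`.

`ai_sum`: the family `x` is in `K` and algebraically independent over `ℚ`, `s` is algebraically
independent over `K`, hence over `Algebra.adjoin ℚ (range x) ≤ K` (`AlgebraicIndependent.restrictScalars`
with the injectivity of the inclusion); again `AlgebraicIndependent.sumElim_iff`. A direct proof
is possible too: `MvPolynomial.sumAlgEquiv`.
-/

set_option autoImplicit false

namespace Pool.Agent.Pat5

open Complex

/-- The algebraic closure in the complex numbers of the field generated by `z`. -/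
noncomputable def Kc {n : ℕ} (z : Fin n → ℝ) : IntermediateField ℚ ℂ :=
  (algebraicClosure (IntermediateField.adjoin ℚ (Set.range fun i => (z i : ℂ)))
    ℂ).restrictScalars ℚ

variable {n : ℕ} {z : Fin n → ℝ}

theorem mem_Kc {x : ℂ} : x ∈ Kc z ↔
    IsAlgebraic (IntermediateField.adjoin ℚ (Set.range fun i => (z i : ℂ))) x := by
  rw [Kc, IntermediateField.mem_restrictScalars, mem_algebraicClosure_iff]

theorem coe_mem_Kc (z : Fin n → ℝ) (i : Fin n) : (z i : ℂ) ∈ Kc z := by
  rw [mem_Kc]
  exact isAlgebraic_algebraMap (⟨(z i : ℂ), IntermediateField.subset_adjoin _ _ ⟨i, rfl⟩⟩ :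
    IntermediateField.adjoin ℚ (Set.range fun i => (z i : ℂ)))

theorem Qbar_le_Kc (z : Fin n → ℝ) : Qbar ≤ Kc z := by
  intro x hx
  rw [mem_Kc]
  exact (mem_algebraicClosure_iff.1 hx).tower_top _

theorem mem_Kc_of_isAlgebraic {x : ℂ} (h : IsAlgebraic (Kc z) x) : x ∈ Kc z := by
  rw [mem_Kc]
  have h' : IsAlgebraic (algebraicClosure
      (IntermediateField.adjoin ℚ (Set.range fun i => (z i : ℂ))) ℂ) x := h
  exact h'.restrictScalars _

theorem I_mem_Kc (z : Fin n → ℝ) : I ∈ Kc z :=
  Qbar_le_Kc z (mem_algebraicClosure_iff.2 Complex.isIntegral_rat_I.isAlgebraic)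

theorem exp_rat_mem_Kc {y : ℂ} (h : exp y ∈ Kc z) (r : ℚ) : exp (r * y) ∈ Kc z :=
  mem_Kc_of_isAlgebraic (alg_exp_rat (F := Kc z)
    (isAlgebraic_algebraMap (⟨exp y, h⟩ : Kc z)) r)

/-- Algebraic independence over the rational numbers implies the one over the field of algebraic
numbers. -/
theorem ai_Qbar {κ : Type} {x : κ → ℂ} (h : AlgebraicIndependent ℚ x) :
    AlgebraicIndependent Qbar x :=
  h.algebraicClosure

open scoped IntermediateField.algebraAdjoinAdjoin in
/-- Numbers which are algebraically independent together with `z` are algebraically independent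
over `Kc z`. -/
theorem ai_Kc {κ : Type} (s : κ → ℂ)
    (h : AlgebraicIndependent ℚ (Sum.elim (fun i => (z i : ℂ)) s)) :
    AlgebraicIndependent (Kc z) s := by
  have h1 : AlgebraicIndependent ℚ (Sum.elim s (fun i => (z i : ℂ))) := by
    refine (algebraicIndependent_equiv' (Equiv.sumComm κ (Fin n)) ?_).2 h
    ext (_ | _) <;> rfl
  have h2 := (AlgebraicIndependent.sumElim_iff.1 h1).2
  have halg : Algebra.IsAlgebraic (Algebra.adjoin ℚ (Set.range fun i => (z i : ℂ)))
      (IntermediateField.adjoin ℚ (Set.range fun i => (z i : ℂ))) :=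
    IsLocalization.isAlgebraic _
      (nonZeroDivisors (Algebra.adjoin ℚ (Set.range fun i => (z i : ℂ))))
  have h3 : AlgebraicIndependent
      (IntermediateField.adjoin ℚ (Set.range fun i => (z i : ℂ))) s := h2.extendScalars _
  exact h3.algebraicClosure

/-- Algebraic independence in a tower. -/
theorem ai_sum (K : IntermediateField ℚ ℂ) {ι κ : Type} {x : ι → ℂ} {s : κ → ℂ}
    (hx : AlgebraicIndependent ℚ x) (hm : ∀ i, x i ∈ K) (hs : AlgebraicIndependent K s) :
    AlgebraicIndependent ℚ (Sum.elim x s) := by
  have h1 : AlgebraicIndependent ℚ (Sum.elim s x) := by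
    refine hx.sumElim_of_tower (S := K) ?_ hs
    rintro _ ⟨i, rfl⟩
    exact ⟨⟨x i, hm i⟩, rfl⟩
  refine (algebraicIndependent_equiv' (Equiv.sumComm ι κ) ?_).2 h1
  ext (_ | _) <;> rfl

end Pool.Agent.Pat5
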