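import Mathlib
import Pool.Agent.Pat5.AiAlg

/-!
# Pat5 P6: monomials with rational exponents and linear combinations

Let `c j`, `j : Fin n`, be linearly independent finitely supported rational vectors on `κ`. Let `T`
be a finite set which contains all the supports. The vectors `c j`, as elements of `T → ℚ`, are
linearly independent and extend to a basis of `T → ℚ` (`Module.Basis.extend`,
`LinearIndependent.extend`), which has exactly `#T` elements. So there is a type `τ` of the
cardinality of `T` (the index type of the basis), an embedding `φ : Fin n → τ` and a family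
`C : τ → T → ℚ` which is a basis, with `C (φ j) = c j`. Inverting, every unit vector of `T → ℚ` is
a rational linear combination of the `C i`.

`ai_monomials`: put `y i = exp (∑_{k ∈ T} C i k * ψ k)` for `i : τ`. For `k ∈ T` write the unit
vector of `k` as `∑ i, d i * C i` with rational `d i`; then
`exp (ψ k) = ∏ i, exp (d i * ∑ C i k' ψ k')`, and each factor is algebraic over `F(y)` by
`alg_exp_rat` (over the field `IntermediateField.adjoin F (range y)`). By `ai_of_alg` (transport
along `T ≃ τ`) the family `y` is algebraically independent, and so is the subfamily `y ∘ φ`, which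
is the family of the statement. `ai_linear` is the same with sums: `u k = ∑ i, d i * y i` is even an
element of `F(y)` (rational numbers are in `F`: `F` has characteristic zero as `F → ℂ` is
injective). `transcendental_monomial` is the case `n = 1` of `ai_monomials`
(`algebraicIndependent_unique_type_iff` or `AlgebraicIndependent.transcendental`).
-/

set_option autoImplicit false

namespace Pool.Agent.Pat5

open Complex

variable {F : Type} [Field F] [Algebra F ℂ] {κ : Type}

/-- The general statement: `Φ` turns linear combinations into numbers algebraic over the field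
generated by the values. -/
private theorem key {T : Type} [Fintype T] [DecidableEq T] (Φ : (T → ℚ) → ℂ)
    (hΦ : ∀ (τ : Type) [Fintype τ] (d : τ → ℚ) (v : τ → T → ℚ),
      IsAlgebraic (IntermediateField.adjoin F (Set.range fun i => Φ (v i))) (Φ (∑ i, d i • v i)))
    (h : AlgebraicIndependent F (fun k : T => Φ (Pi.single k 1))) {n : ℕ}
    (c : Fin n → T → ℚ) (hc : LinearIndependent ℚ c) :
    AlgebraicIndependent F (fun j => Φ (c j)) := by
  classical
  let b := Module.Basis.extend hc.linearIndepOn_id
  have hb : ∀ x, b x = x := Module.Basis.extend_apply_self hc.linearIndepOn_id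
  have hsub : ∀ j, c j ∈ hc.linearIndepOn_id.extend (Set.subset_univ _) := fun j =>
    Module.Basis.subset_extend hc.linearIndepOn_id ⟨j, rfl⟩
  let e := (Pi.basisFun ℚ T).indexEquiv b
  have : Fintype (hc.linearIndepOn_id.extend (Set.subset_univ (Set.range c))) :=
    Fintype.ofEquiv T e
  have h1 : AlgebraicIndependent F (fun k : T => Φ (e k : T → ℚ)) := by
    refine ai_of_alg h fun k => ?_
    have h2 : (Set.range fun k : T => Φ (e k : T → ℚ)) =
        Set.range fun x : hc.linearIndepOn_id.extend (Set.subset_univ (Set.range c)) =>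
          Φ (x : T → ℚ) := by
      ext z
      constructor
      · rintro ⟨k, rfl⟩
        exact ⟨e k, rfl⟩
      · rintro ⟨x, rfl⟩
        exact ⟨e.symm x, by simp⟩
    rw [h2]
    have h3 := hΦ _ (fun x => b.repr (Pi.single k 1) x)
      (fun x : hc.linearIndepOn_id.extend (Set.subset_univ (Set.range c)) => (x : T → ℚ))
    have h4 : ∑ x, b.repr (Pi.single k 1) x • (x : T → ℚ) = Pi.single k 1 := by
      have h5 := b.sum_repr (Pi.single k 1)
      simp only [hb] at h5
      exact h5
    rw [h4] at h3
    exact h3
  have h6 : (fun j => Φ (c j)) =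
      (fun k : T => Φ (e k : T → ℚ)) ∘ fun j => e.symm ⟨c j, hsub j⟩ := by
    funext j
    simp
  rw [h6]
  refine h1.comp _ ?_
  intro j j' hj
  have h7 := e.symm.injective hj
  exact hc.injective (congrArg Subtype.val h7)

/-- The supports of finitely many vectors. -/
private theorem exists_supp {n : ℕ} (c : Fin n → κ →₀ ℚ) (hc : LinearIndependent ℚ c) :
    ∃ T : Finset κ, (∀ j, (c j).support ⊆ T) ∧
      LinearIndependent ℚ (fun (j : Fin n) (k : T) => c j k) := by
  classical
  refine ⟨Finset.univ.biUnion fun j => (c j).support, fun j =>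
    Finset.subset_biUnion_of_mem (fun j => (c j).support) (Finset.mem_univ j), ?_⟩
  rw [Fintype.linearIndependent_iff] at hc ⊢
  intro g hg
  refine hc g ?_
  ext k
  by_cases hk : k ∈ Finset.univ.biUnion fun j => (c j).support
  · have h1 := congrFun hg ⟨k, hk⟩
    simp only [Finset.sum_apply, Pi.smul_apply, Pi.zero_apply] at h1
    rw [Finsupp.finsetSum_apply]
    simpa using h1
  · rw [Finsupp.finsetSum_apply]
    refine Finset.sum_eq_zero fun j _ => ?_
    have h2 : c j k = 0 := by
      by_contra h3
      exact hk (Finset.mem_biUnion.2 ⟨j, Finset.mem_univ j, Finsupp.mem_support_iff.2 h3⟩)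
    simp [h2]

private theorem sum_T {T : Finset κ} (c : κ →₀ ℚ) (hc : c.support ⊆ T) (u : κ → ℂ) :
    (c.sum fun k r => (r : ℂ) * u k) = ∑ k : T, ((c k : ℚ) : ℂ) * u k := by
  rw [Finsupp.sum_of_support_subset c hc _ (by simp), ← Finset.sum_coe_sort]

private theorem sum_comb {T τ : Type} [Fintype T] [Fintype τ] (u : T → ℂ) (d : τ → ℚ)
    (v : τ → T → ℚ) : ∑ k, (((∑ i, d i • v i) k : ℚ) : ℂ) * u k =
      ∑ i, (d i : ℂ) * ∑ k, ((v i k : ℚ) : ℂ) * u k := by
  simp only [Finset.sum_apply, Pi.smul_apply, smul_eq_mul, Rat.cast_sum, Rat.cast_mul,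
    Finset.mul_sum, Finset.sum_mul]
  rw [Finset.sum_comm]
  refine Finset.sum_congr rfl fun i _ => Finset.sum_congr rfl fun k _ => ?_
  ring

private theorem single_sum {T : Type} [Fintype T] [DecidableEq T] (u : T → ℂ) (k : T) :
    ∑ k', (((Pi.single k (1 : ℚ) : T → ℚ) k' : ℚ) : ℂ) * u k' = u k := by
  rw [Finset.sum_eq_single k]
  · simp
  · intro k' _ hk
    rw [Pi.single_eq_of_ne hk]
    simp
  · intro h
    exact absurd (Finset.mem_univ k) h

private theorem alg_mem {K : IntermediateField F ℂ} {x : ℂ} (hx : x ∈ K) : IsAlgebraic K x :=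
  isAlgebraic_algebraMap (⟨x, hx⟩ : K)

/-- Monomials with rational, linearly independent exponents in algebraically independent numbers
are algebraically independent. -/
theorem ai_monomials (ψ : κ → ℂ) (h : AlgebraicIndependent F (fun k => exp (ψ k))) {n : ℕ}
    (c : Fin n → κ →₀ ℚ) (hc : LinearIndependent ℚ c) :
    AlgebraicIndependent F (fun j => exp ((c j).sum fun k r => (r : ℂ) * ψ k)) := by
  classical
  obtain ⟨T, hT, hl⟩ := exists_supp c hc
  have h1 := key (F := F) (T := T) (fun v => exp (∑ k, ((v k : ℚ) : ℂ) * ψ k)) (by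
    intro τ _ d v
    rw [sum_comb (fun k : T => ψ k) d v, Complex.exp_sum]
    have h2 : ∀ s : Finset τ, IsAlgebraic (IntermediateField.adjoin F (Set.range fun i =>
        exp (∑ k, ((v i k : ℚ) : ℂ) * ψ k)))
        (∏ i ∈ s, exp ((d i : ℂ) * ∑ k, ((v i k : ℚ) : ℂ) * ψ k)) := by
      intro s
      induction s using Finset.induction_on with
      | empty =>
        rw [Finset.prod_empty]
        exact isAlgebraic_one
      | insert a s ha ih =>
        rw [Finset.prod_insert ha]
        refine IsAlgebraic.mul (alg_exp_rat ?_ (d a)) ih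
        exact alg_mem (IntermediateField.subset_adjoin F _ ⟨a, rfl⟩)
    exact h2 _) (by
    have h3 : (fun k : T => exp (∑ k' : T,
        (((Pi.single k (1 : ℚ) : T → ℚ) k' : ℚ) : ℂ) * ψ k')) = fun k : T => exp (ψ k) := by
      funext k
      rw [single_sum (fun k : T => ψ k) k]
    rw [h3]
    exact h.comp _ Subtype.val_injective) (fun j k => c j k) hl
  have h4 : (fun j => exp ((c j).sum fun k r => (r : ℂ) * ψ k)) =
      fun j => exp (∑ k : T, ((c j k : ℚ) : ℂ) * ψ k) := by
    funext j
    rw [sum_T (c j) (hT j)]
  rw [h4]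
  exact h1

/-- Linearly independent rational linear combinations of algebraically independent numbers are
algebraically independent. -/
theorem ai_linear (u : κ → ℂ) (h : AlgebraicIndependent F u) {n : ℕ} (c : Fin n → κ →₀ ℚ)
    (hc : LinearIndependent ℚ c) :
    AlgebraicIndependent F (fun j => (c j).sum fun k r => (r : ℂ) * u k) := by
  classical
  obtain ⟨T, hT, hl⟩ := exists_supp c hc
  have h1 := key (F := F) (T := T) (fun v => ∑ k, ((v k : ℚ) : ℂ) * u k) (by
    intro τ _ d v
    rw [sum_comb (fun k : T => u k) d v]
    refine alg_mem (sum_mem fun i _ => mul_mem ?_ ?_)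
    · exact SubfieldClass.ratCast_mem _ (d i)
    · exact IntermediateField.subset_adjoin F _ ⟨i, rfl⟩) (by
    have h3 : (fun k : T => ∑ k' : T,
        (((Pi.single k (1 : ℚ) : T → ℚ) k' : ℚ) : ℂ) * u k') = fun k : T => u k := by
      funext k
      rw [single_sum (fun k : T => u k) k]
    rw [h3]
    exact h.comp _ Subtype.val_injective) (fun j k => c j k) hl
  have h4 : (fun j => (c j).sum fun k r => (r : ℂ) * u k) =
      fun j => ∑ k : T, ((c j k : ℚ) : ℂ) * u k := by
    funext j
    rw [sum_T (c j) (hT j)]
  rw [h4]
  exact h1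

/-- A monomial with rational exponents, not all zero, in algebraically independent numbers is
transcendental. -/
theorem transcendental_monomial (ψ : κ → ℂ) (h : AlgebraicIndependent F (fun k => exp (ψ k)))
    (c : κ →₀ ℚ) (hc : c ≠ 0) : Transcendental F (exp (c.sum fun k r => (r : ℂ) * ψ k)) := by
  have h1 : LinearIndependent ℚ (fun _ : Fin 1 => c) :=
    LinearIndependent.of_subsingleton (0 : Fin 1) hc
  exact (ai_monomials ψ h (fun _ : Fin 1 => c) h1).transcendental 0

end Pool.Agent.Pat5
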