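import Mathlib
import Pool.Agent.Pat5.Defs

/-!
# Pat5 P8: the exponential functions `EE f g`

Proofs. `EE_eq` is `Complex.exp_add`. `EE_ofReal`, `EE_one`: `g 0 = 0`. `EE_isExp`: additivity from
`map_add` and `exp_add`; surjectivity: for `w ≠ 0` take
`x = f.symm (Real.log ‖w‖) + g.symm (arg w) * I` and `Complex.exp_log`, or
`Complex.norm_mul_exp_arg_mul_I`; kernel: `exp (f x + g y I) = 1` iff `f x = 0` and `g y = 2 π n`
for some integer `n` (`Complex.exp_eq_one_iff`, compare real and imaginary parts), i.e. `x = 0` and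
`y = 2 p n` (since `g (2 n p) = 2 n π` by `ℚ`-linearity and `g` is injective); conjugation:
`(conj z).im = - z.im`, `Complex.exp_conj`; positivity on the real line by `EE_ofReal`.

`isAlgebraic_EE`: `EE f g z = exp (f x) * exp (g y I)`. If both factors are algebraic so is the
product. Conversely, if `w = EE f g z` is algebraic, so is its complex conjugate
(`IsAlgebraic.algHom`/`isAlgebraic_algHom_iff` for conjugation) and `w * conj w = exp (f x) ^ 2`, so
`exp (f x)` is algebraic (`IsAlgebraic.of_pow`; `isAlgebraic_algebraMap_iff` to go from `ℂ` to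
`ℝ`), and `exp (g y I) = w / exp (f x)`.

`five_EE`: unfold `five`; `EE f g 1 = e` by `EE_ofReal` at `1`, and the arguments
`E 1 * l = ((e * l : ℝ) : ℂ)` etc. are real.
-/

set_option autoImplicit false

namespace Pool.Agent.Pat5

open Complex

/-- The function `x + i y ↦ exp (f x + i g y)`. -/
noncomputable def EE (f g : ℝ ≃ₗ[ℚ] ℝ) (z : ℂ) : ℂ := exp (f z.re) * exp (g z.im * I)

variable (f g : ℝ ≃ₗ[ℚ] ℝ)

theorem EE_eq (z : ℂ) : EE f g z = exp ((f z.re : ℝ) + (g z.im : ℝ) * I) := by
  rw [EE, Complex.exp_add]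

theorem EE_ofReal (x : ℝ) : EE f g x = ((Real.exp (f x) : ℝ) : ℂ) := by
  rw [EE, ofReal_re, ofReal_im, map_zero, ofReal_zero, zero_mul, exp_zero, mul_one, ofReal_exp]

theorem EE_isExp {p : ℝ} (hp : 0 < p) (hg : g p = Real.pi) : IsExp (EE f g) p where
  pos := hp
  add := by
    intro x y
    rw [EE_eq, EE_eq, EE_eq, ← exp_add]
    congr 1
    rw [add_re, add_im, map_add, map_add, ofReal_add, ofReal_add]
    ring
  surj := by
    intro w hw
    refine ⟨⟨f.symm (Real.log ‖w‖), g.symm (arg w)⟩, ?_⟩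
    rw [EE]
    simp only [LinearEquiv.apply_symm_apply]
    rw [← ofReal_exp, Real.exp_log (norm_pos_iff.mpr hw), norm_mul_exp_arg_mul_I]
  ker := by
    intro x
    have hg2 : ∀ n : ℤ, g ((n : ℝ) * (2 * p)) = n * (2 * Real.pi) := by
      intro n
      have h1 : (n : ℝ) * (2 * p) = ((n * 2 : ℤ) : ℚ) • p := by
        rw [Rat.smul_def]
        push_cast
        ring
      rw [h1, map_smul, hg, Rat.smul_def]
      push_cast
      ring
    rw [EE_eq, exp_eq_one_iff]
    refine exists_congr fun n => ?_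
    constructor
    · intro h
      have h1 := congrArg re h
      have h2 := congrArg im h
      simp at h1 h2
      have h3 : x.im = n * (2 * p) := by
        apply g.injective
        rw [hg2, h2]
      apply Complex.ext
      · simp [h1]
      · simp [h3]
    · intro h
      have h1 : x.re = 0 := by
        rw [h]
        simp
      have h2 : x.im = n * (2 * p) := by
        rw [h]
        simp
      rw [h1, h2, hg2, map_zero]
      push_cast
      ring
  conj := by
    intro x
    rw [EE_eq, EE_eq, ← exp_conj, conj_re, conj_im, map_neg]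
    congr 1
    simp
  real := by
    intro x
    rw [EE_ofReal, ofReal_re]
    exact Real.exp_pos _

theorem isAlgebraic_EE (z : ℂ) : IsAlgebraic ℚ (EE f g z) ↔ f z.re ∈ Lr ∧ g z.im ∈ Li := by
  rw [mem_Lr, mem_Li]
  have hc : IsAlgebraic ℚ (Real.exp (f z.re)) ↔ IsAlgebraic ℚ (exp (f z.re : ℂ)) := by
    rw [← isAlgebraic_algebraMap_iff (algebraMap ℝ ℂ).injective]
    simp only [coe_algebraMap, ofReal_exp]
  rw [hc]
  constructor
  · intro h
    have h1 : IsAlgebraic ℚ (starRingEnd ℂ (EE f g z)) := by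
      have := (isAlgebraic_algHom_iff (R := ℚ)
        ((Complex.conjAe : ℂ →ₐ[ℝ] ℂ).restrictScalars ℚ)
        (Complex.conjAe : ℂ →ₐ[ℝ] ℂ).injective (a := EE f g z)).mpr h
      exact this
    have h2 : EE f g z * starRingEnd ℂ (EE f g z) = exp (f z.re : ℂ) ^ 2 := by
      rw [EE_eq, ← exp_conj, ← exp_add, ← exp_nat_mul]
      congr 1
      simp
      ring
    have h3 : IsAlgebraic ℚ (exp (f z.re : ℂ)) := by
      refine IsAlgebraic.of_pow (n := 2) (by norm_num) ?_
      rw [← h2]
      exact h.mul h1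
    refine ⟨h3, ?_⟩
    have h4 : exp (g z.im * I) = EE f g z * (exp (f z.re : ℂ))⁻¹ := by
      rw [EE, mul_comm (exp (f z.re : ℂ)), mul_assoc, mul_inv_cancel₀ (exp_ne_zero _), mul_one]
    rw [h4]
    exact h.mul h3.inv
  · rintro ⟨h1, h2⟩
    exact h1.mul h2

/-- The five numbers for `EE f g`. -/
theorem five_EE {e : ℝ} (p l : ℝ) (he : 0 < e) (hf : f 1 = Real.log e) :
    five (EE f g) p l = fun i => ((![p + e, p * e, Real.exp (f (e * l)), Real.exp (f e),
      Real.exp (f (p * l))] : Fin 5 → ℝ) i : ℂ) := by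
  have h1 : EE f g 1 = (e : ℂ) := by
    have := EE_ofReal f g 1
    rw [hf, Real.exp_log he, ofReal_one] at this
    exact this
  have h2 : EE f g ((e : ℂ) * l) = ((Real.exp (f (e * l)) : ℝ) : ℂ) := by
    rw [← ofReal_mul, EE_ofReal]
  have h3 : EE f g (e : ℂ) = ((Real.exp (f e) : ℝ) : ℂ) := EE_ofReal f g e
  have h4 : EE f g ((p : ℂ) * l) = ((Real.exp (f (p * l)) : ℝ) : ℂ) := by
    rw [← ofReal_mul, EE_ofReal]
  unfold five
  rw [h1, h2, h3, h4]
  funext i
  fin_cases i
  · simp
  · simp
  · simp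
  · simp
  · simp

end Pool.Agent.Pat5
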