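import Mathlib
import Pool.Agent.Pat5.EEx

/-!
# Pat5 P9: the logarithms of algebraic numbers for `EE f g`

Suppose that `f x ∈ Lr` iff `x` is in the rational span of `a`, and `g y ∈ Li` iff `y` is in the
rational span of `b`. Put `u = (a, i b)`.

Proofs. `alg_iff_span`: by `isAlgebraic_EE`, `EE f g z` is algebraic iff `z.re` is in the rational span
of the `a i` and `z.im` in the one of the `b j`, iff `z = z.re + i z.im` is in the rational span of
`u`. (`⇐`: `Submodule.span_induction`, or the images of real and imaginary parts, which are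
`ℚ`-linear. `⇒`: `Submodule.span` and the `ℚ`-linear maps `x ↦ (x : ℂ)`, `y ↦ y * I`,
`Submodule.mem_map`, `LinearMap.map_span`.)

`logSpan_EE`: `⊆`: a logarithm is in the rational span of `u`, and `i b j` is in the `Qbar`-span of
`b j`, as `I ∈ Qbar`. `⊇`: `a i` is a logarithm by `alg_iff_span`; `i b j` is a logarithm and
`b j = - i (i b j)`.

`li_of_span`: write `l i = ∑ A i j * u j` with `A : Fin n → κ →₀ ℚ`
(`Finsupp.mem_span_range_iff_exists_finsupp`). `A` is linearly independent over `ℚ` since `l` is. So
there is a linear map `L : (κ →₀ ℚ) → (Fin n → ℚ)` with `L (A i) = Pi.single i 1`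
(`LinearMap.exists_leftInverse_of_injective`, or `LinearIndependent.extend` + `Basis.constr`).
Suppose `c0 * 1 + ∑ i, c i * l i = 0` with `c0, c i` in `Qbar`. Then
`c0 + ∑ j, (∑ i, c i * A i j) * u j = 0`, so `c0 = 0` and `∑ i, c i * A i j = 0` for all `j`.
Multiply with the number `L (single j 1) k` and sum over `j`: `c k = 0`. A second way: the
`Qbar`-linear map `(κ →₀ Qbar) → (Fin n → Qbar)` given by the matrix of `L`.

`baker_EE`: the family `u` is, together with `1`, linearly independent over `Qbar` since
`(1, a, b)` is (multiplying members by the unit `I` of `Qbar`; `LinearIndependent.units_smul`). Now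
`alg_iff_span` and `li_of_span`.

`logIndep_EE`: `u` is algebraically independent over `ℚ`, since `(a, b)` is: by `ai_Qbar` the
family `(a, b)` is algebraically independent over `Qbar` and multiplying members by `I` is harmless;
or use `ai_pointwise` over `Qbar` (or over `ℚ`: `b j` is algebraic over `ℚ(i b j)`). Then write
`l i = ∑ A i j * u j` with `A` linearly independent over `ℚ` and use `ai_linear` (from
`Pool.Agent.Pat5.Mono`).
-/

set_option autoImplicit false

namespace Pool.Agent.Pat5

open Complex

theorem alg_iff_span (f g : ℝ ≃ₗ[ℚ] ℝ) {α β : Type} (a : α → ℝ) (b : β → ℝ)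
    (ha : ∀ x, f x ∈ Lr ↔ x ∈ Submodule.span ℚ (Set.range a))
    (hb : ∀ y, g y ∈ Li ↔ y ∈ Submodule.span ℚ (Set.range b)) (z : ℂ) :
    IsAlgebraic ℚ (EE f g z) ↔
      z ∈ Submodule.span ℚ
        (Set.range (Sum.elim (fun i => (a i : ℂ)) (fun j => (b j : ℂ) * I))) := by
  rw [isAlgebraic_EE, ha, hb]
  constructor
  · rintro ⟨h1, h2⟩
    have h3 : (z.re : ℂ) ∈ Submodule.span ℚ
        (Set.range (Sum.elim (fun i => (a i : ℂ)) (fun j => (b j : ℂ) * I))) := by
      refine Submodule.span_induction (p := fun (x : ℝ) _ => (x : ℂ) ∈ Submodule.span ℚ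
        (Set.range (Sum.elim (fun i => (a i : ℂ)) (fun j => (b j : ℂ) * I)))) ?_ ?_ ?_ ?_ h1
      · rintro x ⟨i, rfl⟩
        exact Submodule.subset_span ⟨Sum.inl i, rfl⟩
      · rw [ofReal_zero]
        exact Submodule.zero_mem _
      · intro x y _ _ hx hy
        rw [ofReal_add]
        exact Submodule.add_mem _ hx hy
      · intro q x _ hx
        have h : ((q • x : ℝ) : ℂ) = q • (x : ℂ) := by
          rw [Rat.smul_def, Rat.smul_def, ofReal_mul, ofReal_ratCast]
        rw [h]
        exact Submodule.smul_mem _ _ hx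
    have h4 : (z.im : ℂ) * I ∈ Submodule.span ℚ
        (Set.range (Sum.elim (fun i => (a i : ℂ)) (fun j => (b j : ℂ) * I))) := by
      refine Submodule.span_induction (p := fun (x : ℝ) _ => (x : ℂ) * I ∈ Submodule.span ℚ
        (Set.range (Sum.elim (fun i => (a i : ℂ)) (fun j => (b j : ℂ) * I)))) ?_ ?_ ?_ ?_ h2
      · rintro x ⟨j, rfl⟩
        exact Submodule.subset_span ⟨Sum.inr j, rfl⟩
      · rw [ofReal_zero, zero_mul]
        exact Submodule.zero_mem _
      · intro x y _ _ hx hy
        rw [ofReal_add, add_mul]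
        exact Submodule.add_mem _ hx hy
      · intro q x _ hx
        have h : ((q • x : ℝ) : ℂ) * I = q • ((x : ℂ) * I) := by
          rw [Rat.smul_def, Rat.smul_def, ofReal_mul, ofReal_ratCast, mul_assoc]
        rw [h]
        exact Submodule.smul_mem _ _ hx
    have h5 := Submodule.add_mem _ h3 h4
    rwa [re_add_im] at h5
  · intro h
    refine Submodule.span_induction (p := fun (x : ℂ) _ =>
      x.re ∈ Submodule.span ℚ (Set.range a) ∧ x.im ∈ Submodule.span ℚ (Set.range b))
      ?_ ?_ ?_ ?_ h
    · rintro x ⟨i | j, rfl⟩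
      · simp only [Sum.elim_inl, ofReal_re, ofReal_im]
        exact ⟨Submodule.subset_span ⟨i, rfl⟩, Submodule.zero_mem _⟩
      · have h1 : ((b j : ℂ) * I).re = 0 := by simp
        have h2 : ((b j : ℂ) * I).im = b j := by simp
        simp only [Sum.elim_inr]
        rw [h1, h2]
        exact ⟨Submodule.zero_mem _, Submodule.subset_span ⟨j, rfl⟩⟩
    · exact ⟨by rw [zero_re]; exact Submodule.zero_mem _,
        by rw [zero_im]; exact Submodule.zero_mem _⟩
    · rintro x y _ _ ⟨hx1, hx2⟩ ⟨hy1, hy2⟩
      exact ⟨by rw [add_re]; exact Submodule.add_mem _ hx1 hy1,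
        by rw [add_im]; exact Submodule.add_mem _ hx2 hy2⟩
    · rintro q x _ ⟨hx1, hx2⟩
      have h1 : (q • x).re = q • x.re := by
        rw [Rat.smul_def, Rat.smul_def, ← ofReal_ratCast, re_ofReal_mul]
      have h2 : (q • x).im = q • x.im := by
        rw [Rat.smul_def, Rat.smul_def, ← ofReal_ratCast, im_ofReal_mul]
      exact ⟨by rw [h1]; exact Submodule.smul_mem _ _ hx1,
        by rw [h2]; exact Submodule.smul_mem _ _ hx2⟩

private theorem I_mem_Qbar : I ∈ Qbar := by
  rw [mem_Qbar]
  refine IsAlgebraic.of_pow (n := 2) (by norm_num) ?_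
  rw [I_sq]
  exact isAlgebraic_one.neg

theorem logSpan_EE (f g : ℝ ≃ₗ[ℚ] ℝ) {α β : Type} (a : α → ℝ) (b : β → ℝ)
    (ha : ∀ x, f x ∈ Lr ↔ x ∈ Submodule.span ℚ (Set.range a))
    (hb : ∀ y, g y ∈ Li ↔ y ∈ Submodule.span ℚ (Set.range b)) :
    logSpan (EE f g) = Submodule.span Qbar
      ({1} ∪ Set.range (Sum.elim (fun i => (a i : ℂ)) (fun j => (b j : ℂ)))) := by
  unfold logSpan
  apply le_antisymm
  · rw [Submodule.span_le]
    rintro z (hz | hz)
    · exact Submodule.subset_span (Or.inl hz)
    · have h1 := (alg_iff_span f g a b ha hb z).mp hz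
      refine Submodule.span_induction (p := fun (x : ℂ) _ => x ∈ Submodule.span Qbar
        ({1} ∪ Set.range (Sum.elim (fun i => (a i : ℂ)) (fun j => (b j : ℂ)))))
        ?_ ?_ ?_ ?_ h1
      · rintro x ⟨i | j, rfl⟩
        · exact Submodule.subset_span (Or.inr ⟨Sum.inl i, rfl⟩)
        · have h2 : (b j : ℂ) ∈ Submodule.span Qbar
              ({1} ∪ Set.range (Sum.elim (fun i => (a i : ℂ)) (fun j => (b j : ℂ)))) :=
            Submodule.subset_span (Or.inr ⟨Sum.inr j, rfl⟩)
          have h3 := Submodule.smul_mem _ (⟨I, I_mem_Qbar⟩ : Qbar) h2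
          have h4 : (⟨I, I_mem_Qbar⟩ : Qbar) • (b j : ℂ) = (b j : ℂ) * I := by
            rw [mul_comm]
            rfl
          rw [h4] at h3
          exact h3
      · exact Submodule.zero_mem _
      · intro x y _ _ hx hy
        exact Submodule.add_mem _ hx hy
      · intro q x _ hx
        exact Submodule.smul_of_tower_mem _ q hx
  · rw [Submodule.span_le]
    rintro z (hz | ⟨i | j, rfl⟩)
    · exact Submodule.subset_span (Or.inl hz)
    · exact Submodule.subset_span (Or.inr ((alg_iff_span f g a b ha hb _).mpr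
        (Submodule.subset_span ⟨Sum.inl i, rfl⟩)))
    · have h2 : (b j : ℂ) * I ∈ Submodule.span Qbar
          ({1} ∪ {z | IsAlgebraic ℚ (EE f g z)}) :=
        Submodule.subset_span (Or.inr ((alg_iff_span f g a b ha hb _).mpr
          (Submodule.subset_span ⟨Sum.inr j, rfl⟩)))
      have h3 := Submodule.neg_mem _ (Submodule.smul_mem _ (⟨I, I_mem_Qbar⟩ : Qbar) h2)
      have h4 : -((⟨I, I_mem_Qbar⟩ : Qbar) • ((b j : ℂ) * I)) = (b j : ℂ) := by
        have h5 : (⟨I, I_mem_Qbar⟩ : Qbar) • ((b j : ℂ) * I) = I * ((b j : ℂ) * I) := rfl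
        rw [h5]
        linear_combination (-(b j : ℂ)) * I_mul_I
      rw [h4] at h3
      exact h3

/-- Linear independence over `ℚ` and over `Qbar`. -/
theorem li_of_span {κ : Type} (u : κ → ℂ)
    (hu : LinearIndependent Qbar (fun o : Option κ => o.elim 1 u)) {n : ℕ} (l : Fin n → ℂ)
    (hl : LinearIndependent ℚ l) (hmem : ∀ i, l i ∈ Submodule.span ℚ (Set.range u)) :
    LinearIndependent Qbar (fun o : Option (Fin n) => o.elim 1 l) := by
  classical
  have h1 : ∀ i, ∃ A : κ →₀ ℚ, Finsupp.linearCombination ℚ u A = l i := by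
    intro i
    have h := hmem i
    rw [← Finsupp.range_linearCombination] at h
    exact h
  choose A hA using h1
  have hAli : LinearIndependent ℚ A := by
    refine LinearIndependent.of_comp (Finsupp.linearCombination ℚ u) ?_
    have : (Finsupp.linearCombination ℚ u) ∘ A = l := funext hA
    rw [this]
    exact hl
  have hker : LinearMap.ker (Finsupp.linearCombination ℚ A) = ⊥ :=
    LinearMap.ker_eq_bot.mpr hAli
  obtain ⟨L, hL⟩ := (Finsupp.linearCombination ℚ A).exists_leftInverse_of_injective hker
  have hL2 : ∀ i, L (A i) = Finsupp.single i 1 := by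
    intro i
    have := LinearMap.congr_fun hL (Finsupp.single i 1)
    simpa using this
  rw [Fintype.linearIndependent_iff]
  intro c hc
  rw [Fintype.sum_option] at hc
  simp only [Option.elim_none, Option.elim_some] at hc
  -- the union of the supports
  set S : Finset κ := Finset.univ.biUnion (fun i : Fin n => (A i).support) with hS
  have hsup : ∀ i, (A i).support ⊆ S := fun i => Finset.subset_biUnion_of_mem
    (fun i : Fin n => (A i).support) (Finset.mem_univ i)
  have hAS : ∀ i, l i = ∑ j ∈ S, ((A i j : ℚ) : ℂ) * u j := by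
    intro i
    rw [← hA i, Finsupp.linearCombination_apply, Finsupp.sum_of_support_subset _ (hsup i)]
    · refine Finset.sum_congr rfl fun j _ => ?_
      rw [Rat.smul_def]
    · intro j _
      exact zero_smul _ _
  have h2 : (c none : ℂ) + ∑ j ∈ S, (∑ i, (c (some i) : ℂ) * ((A i j : ℚ) : ℂ)) * u j = 0 := by
    rw [← hc]
    congr 1
    · exact (mul_one _).symm
    · have : ∀ i : Fin n, (c (some i)) • l i
          = ∑ j ∈ S, ((c (some i) : ℂ) * ((A i j : ℚ) : ℂ)) * u j := by
        intro i
        have h3 : (c (some i)) • l i = (c (some i) : ℂ) * l i := rfl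
        rw [h3, hAS i, Finset.mul_sum]
        exact Finset.sum_congr rfl fun j _ => (mul_assoc _ _ _).symm
      simp_rw [this]
      rw [Finset.sum_comm]
      exact Finset.sum_congr rfl fun j _ => by rw [Finset.sum_mul]
  -- the coefficients
  have h3 := linearIndependent_iff'.mp hu (insert none (S.map Function.Embedding.some))
    (fun o => o.elim (c none) (fun j => ∑ i, c (some i) * algebraMap ℚ Qbar (A i j)))
    (by
      rw [Finset.sum_insert (by simp), Finset.sum_map]
      simp only [Option.elim_none, Function.Embedding.some_apply, Option.elim_some]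
      rw [← h2]
      congr 1
      · exact mul_one _
      · refine Finset.sum_congr rfl fun j _ => ?_
        have h4 : ∀ x : Qbar, x • u j = (x : ℂ) * u j := fun x => rfl
        rw [h4]
        congr 1
        push_cast
        rfl)
  have h4 : c none = 0 := h3 none (by simp)
  have h5 : ∀ j ∈ S, ∑ i, c (some i) * algebraMap ℚ Qbar (A i j) = 0 := by
    intro j hj
    exact h3 (some j) (by simp [hj])
  have h6 : ∀ i k, ∑ j ∈ S, A i j * L (Finsupp.single j 1) k
      = if i = k then 1 else 0 := by
    intro i k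
    have h7 : A i = ∑ j ∈ S, A i j • Finsupp.single j (1 : ℚ) := by
      conv_lhs => rw [← Finsupp.sum_single (A i)]
      rw [Finsupp.sum_of_support_subset _ (hsup i)]
      · refine Finset.sum_congr rfl fun j _ => ?_
        rw [Finsupp.smul_single, smul_eq_mul, mul_one]
      · intro j _
        exact Finsupp.single_zero _
    have h8 := congrArg (fun v => L v k) h7
    simp only [hL2] at h8
    rw [map_sum, Finsupp.finsetSum_apply, Finsupp.single_apply] at h8
    rw [h8]
    refine Finset.sum_congr rfl fun j _ => ?_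
    rw [map_smul, Finsupp.smul_apply, smul_eq_mul]
  intro o
  cases o with
  | none => exact h4
  | some k =>
    have h7 : ∑ j ∈ S, (∑ i, c (some i) * algebraMap ℚ Qbar (A i j)) *
        algebraMap ℚ Qbar (L (Finsupp.single j 1) k) = 0 :=
      Finset.sum_eq_zero fun j hj => by rw [h5 j hj, zero_mul]
    simp_rw [Finset.sum_mul] at h7
    rw [Finset.sum_comm] at h7
    have h8 : ∀ i, ∑ j ∈ S, c (some i) * algebraMap ℚ Qbar (A i j) *
        algebraMap ℚ Qbar (L (Finsupp.single j 1) k)
        = c (some i) * (if i = k then 1 else 0) := by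
      intro i
      have h9 := congrArg (algebraMap ℚ Qbar) (h6 i k)
      rw [map_sum] at h9
      simp_rw [mul_assoc, ← map_mul]
      rw [← Finset.mul_sum, h9]
      congr 1
      split_ifs
      · exact map_one _
      · exact map_zero _
    simp_rw [h8] at h7
    simpa using h7

end Pool.Agent.Pat5
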