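import Mathlib
import Pool.Agent.Pat5.SpanLogs
import Pool.Agent.Pat5.Mono
import Pool.Agent.Pat5.Kc

/-!
# Pat5 P10: Baker's theorem and the independence of logarithms for `EE f g`

The proofs are in the header of `Pool.Agent.Pat5.SpanLogs` (`baker_EE`, `logIndep_EE`).
-/

set_option autoImplicit false

namespace Pool.Agent.Pat5

open Complex

private theorem I_mem : I ∈ Qbar :=
  mem_algebraicClosure_iff.2 Complex.isIntegral_rat_I.isAlgebraic

theorem baker_EE (f g : ℝ ≃ₗ[ℚ] ℝ) {α β : Type} (a : α → ℝ) (b : β → ℝ)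
    (ha : ∀ x, f x ∈ Lr ↔ x ∈ Submodule.span ℚ (Set.range a))
    (hb : ∀ y, g y ∈ Li ↔ y ∈ Submodule.span ℚ (Set.range b))
    (hli : LinearIndependent Qbar (fun o : Option (α ⊕ β) =>
      o.elim 1 (Sum.elim (fun i => (a i : ℂ)) (fun j => (b j : ℂ)))))
    (n : ℕ) (l : Fin n → ℂ) (hl : ∀ i, IsAlgebraic ℚ (EE f g (l i)))
    (hind : LinearIndependent ℚ l) :
    LinearIndependent Qbar (fun o : Option (Fin n) => o.elim 1 l) := by
  have hI : (⟨I, I_mem⟩ : Qbar) ≠ 0 := fun h => I_ne_zero (congrArg Subtype.val h)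
  have h1 := hli.units_smul fun o => o.elim 1 (Sum.elim (fun _ => 1) (fun _ => Units.mk0 _ hI))
  refine li_of_span (Sum.elim (fun i => (a i : ℂ)) (fun j => (b j : ℂ) * I)) ?_ l hind
    fun i => (alg_iff_span f g a b ha hb (l i)).1 (hl i)
  convert h1 using 1
  funext o
  rcases o with _ | i | j
  · simp
  · simp
  · change (b j : ℂ) * I = I * (b j : ℂ)
    exact mul_comm _ _

theorem logIndep_EE (f g : ℝ ≃ₗ[ℚ] ℝ) {α β : Type} (a : α → ℝ) (b : β → ℝ)
    (ha : ∀ x, f x ∈ Lr ↔ x ∈ Submodule.span ℚ (Set.range a))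
    (hb : ∀ y, g y ∈ Li ↔ y ∈ Submodule.span ℚ (Set.range b))
    (hai : AlgebraicIndependent ℚ (Sum.elim (fun i => (a i : ℂ)) (fun j => (b j : ℂ)))) :
    LogIndep (EE f g) := by
  intro n l hl hind
  set u : α ⊕ β → ℂ := Sum.elim (fun i => (a i : ℂ)) (fun j => (b j : ℂ) * I) with hu
  have h1 : AlgebraicIndependent ℚ u := by
    refine ai_pointwise hai fun k => ?_
    have hk : IsAlgebraic (IntermediateField.adjoin ℚ {u k}) (u k) :=
      isAlgebraic_algebraMap (⟨u k, IntermediateField.subset_adjoin _ _ rfl⟩ :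
        IntermediateField.adjoin ℚ {u k})
    rcases k with i | j
    · exact hk
    · have hI : IsAlgebraic (IntermediateField.adjoin ℚ {u (Sum.inr j)}) (-I) :=
        (Complex.isIntegral_rat_I.isAlgebraic.tower_top _).neg
      have h2 := hk.mul hI
      have h3 : u (Sum.inr j) * -I = (b j : ℂ) := by
        change (b j : ℂ) * I * -I = (b j : ℂ)
        rw [mul_assoc, mul_neg, I_mul_I, neg_neg, mul_one]
      rw [h3] at h2
      exact h2
  have h2 : ∀ i, ∃ c : α ⊕ β →₀ ℚ, (c.sum fun k r => r • u k) = l i := fun i =>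
    Finsupp.mem_span_range_iff_exists_finsupp.1 ((alg_iff_span f g a b ha hb (l i)).1 (hl i))
  choose c hc using h2
  have h3 : LinearIndependent ℚ c := by
    refine LinearIndependent.of_comp (Finsupp.linearCombination ℚ u) ?_
    have h4 : (Finsupp.linearCombination ℚ u) ∘ c = l := by
      funext i
      rw [Function.comp_apply, Finsupp.linearCombination_apply, hc]
    rw [h4]
    exact hind
  have h4 := ai_linear u h1 c h3
  have h5 : (fun j => (c j).sum fun k r => (r : ℂ) * u k) = l := by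
    funext i
    rw [← hc i]
    exact Finsupp.sum_congr fun k _ => (Rat.smul_def _ _).symm
  rwa [h5] at h4

end Pool.Agent.Pat5
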