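import Mathlib
import Pool.Agent.Pat5.Defs

/-!
# Pat5 P2: the countable spaces `Qr`, `Lr`, `Li` and the extension of families in them

Proofs. The set of the algebraic real (complex) numbers is countable
(`Algebraic.countable ℚ ℝ`). `Lr` is the preimage of it under the injective function `Real.exp`
(`Set.Countable.preimage_of_injOn`). For `Li`: the set is covered by the sets
`{y | exp (y I) = a}` for the countably many algebraic `a`, and each of them is countable: it is
empty or, with one element `y₀`, it is contained in the range of `n : ℤ ↦ y₀ + 2 π n`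
(`Complex.exp_eq_exp_iff_exists_int`).

`exists_ext`: the set `range w` is linearly independent over `ℚ` and contained in `W`; let `b` be
a maximal linearly independent subset of `W` which contains `range w`
(`exists_linearIndependent_extension` or `LinearIndependent.extend` with `LinearIndependent.subset_extend`,
`extend_subset`, `span_extend_eq_span`), `κ = ↥(b \ range w)` and `s` the inclusion.
-/

set_option autoImplicit false

namespace Pool.Agent.Pat5

theorem Qr_countable : (Qr : Set ℝ).Countable :=
  Algebraic.countable ℚ ℝ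

theorem Lr_countable : (Lr : Set ℝ).Countable := by
  have h : (Lr : Set ℝ) = Real.exp ⁻¹' {x : ℝ | IsAlgebraic ℚ x} := rfl
  rw [h]
  exact (Algebraic.countable ℚ ℝ).preimage_of_injOn Real.exp_injective.injOn

theorem Li_countable : (Li : Set ℝ).Countable := by
  have h : (Li : Set ℝ) = ⋃ a ∈ {z : ℂ | IsAlgebraic ℚ z},
      {y : ℝ | Complex.exp (y * Complex.I) = a} := by
    ext y
    simp only [Set.mem_iUnion, Set.mem_ofPred_eq, exists_prop, exists_eq_right']
    rfl
  rw [h]
  refine (Algebraic.countable ℚ ℂ).biUnion fun a _ => ?_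
  rcases Set.eq_empty_or_nonempty {y : ℝ | Complex.exp (y * Complex.I) = a} with h0 | ⟨y₀, hy₀⟩
  · rw [h0]
    exact Set.countable_empty
  · refine (Set.countable_range fun n : ℤ => y₀ + n * (2 * Real.pi)).mono ?_
    intro y hy
    rw [Set.mem_ofPred_eq] at hy hy₀
    have h1 : Complex.exp (y * Complex.I) = Complex.exp (y₀ * Complex.I) := hy.trans hy₀.symm
    obtain ⟨n, hn⟩ := Complex.exp_eq_exp_iff_exists_int.1 h1
    refine ⟨n, ?_⟩
    have h2 : (y : ℂ) * Complex.I = ((y₀ + n * (2 * Real.pi) : ℝ) : ℂ) * Complex.I := by
      rw [hn]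
      push_cast
      ring
    have h3 := mul_right_cancel₀ Complex.I_ne_zero h2
    exact (Complex.ofReal_injective h3).symm

/-- A linearly independent family in a countable space of real numbers extends to a basis of
it. -/
theorem exists_ext (W : Submodule ℚ ℝ) (hW : (W : Set ℝ).Countable) {ν : Type} (w : ν → ℝ)
    (hw : LinearIndependent ℚ w) (hmem : ∀ i, w i ∈ W) :
    ∃ (κ : Type) (_ : Countable κ) (s : κ → ℝ), LinearIndependent ℚ (Sum.elim w s) ∧
      Submodule.span ℚ (Set.range (Sum.elim w s)) = W := by
  have hli : LinearIndepOn ℚ id (Set.range w) := hw.linearIndepOn_id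
  have hsub : Set.range w ⊆ (W : Set ℝ) := by
    rintro _ ⟨i, rfl⟩
    exact hmem i
  obtain ⟨b, hb1, hb2, hb3, hb4⟩ := exists_linearIndepOn_id_extension hli hsub
  refine ⟨↥(b \ Set.range w), ?_, fun x => x.1, ?_, ?_⟩
  · exact (hW.mono (Set.sdiff_subset.trans hb1)).to_subtype
  · have hinj : Function.Injective (Sum.elim w fun x : ↥(b \ Set.range w) => x.1) := by
      rw [Sum.elim_injective]
      refine ⟨hw.injective, Subtype.val_injective, fun i x h => x.2.2 ⟨i, h⟩⟩
    have hr : Set.range (Sum.elim w fun x : ↥(b \ Set.range w) => x.1) ⊆ b := by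
      rw [Set.Sum.elim_range]
      refine Set.union_subset hb2 ?_
      rintro _ ⟨x, rfl⟩
      exact x.2.1
    have h1 := hb4.mono hr
    exact (linearIndepOn_id_range_iff hinj).1 h1
  · rw [Set.Sum.elim_range]
    have h1 : Set.range w ∪ Set.range (fun x : ↥(b \ Set.range w) => x.1) = b := by
      rw [Subtype.range_coe]
      exact Set.union_sdiff_cancel hb2
    rw [h1]
    refine le_antisymm (Submodule.span_le.2 hb1) ?_
    intro x hx
    exact hb3 hx

end Pool.Agent.Pat5
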