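import Mathlib
import Pool.Agent.Pat5.AiAlg

/-!
# Pat5 P7: the rational parametrisation of the circle

Proofs. `exp_ang`: `exp (2 i arctan c) = (1 + c i)^2 / (1 + c^2) = (1 + c i) / (1 - c i)`; use
`Complex.exp_mul_I`, `Complex.ofReal_cos`, `Real.cos_two_mul`, `Real.sin_two_mul`,
`Real.cos_arctan`, `Real.sin_arctan` (or `Real.cos_sq_arctan`) and `field_simp`; note
`1 - c i ≠ 0`, `1 + c^2 > 0`.

`ai_circle`: `ai_pointwise` for the family with values `x = Sum.elim t c` and
`y = Sum.elim (exp ∘ log ∘ t) (exp (ang c * I))`. On the left `y k = x k` since `t k > 0`. On the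
right, with `w = exp (ang c * I)`, `c * I = (w - 1) / (w + 1)` (here `w + 1 = 2 / (1 - c i) ≠ 0`), so
`c = - I (w - 1) / (w + 1)` is algebraic over `F(w)`, as `I` is algebraic over `F`.
-/

set_option autoImplicit false

namespace Pool.Agent.Pat5

open Complex

/-- The argument of the point of the circle with the parameter `c`. -/
noncomputable def ang (c : ℝ) : ℝ := 2 * Real.arctan c

theorem one_sub_ne (c : ℝ) : (1 : ℂ) - c * I ≠ 0 := by
  intro h
  have := congrArg Complex.re h
  simp at this

theorem exp_ang (c : ℝ) : exp (ang c * I) = (1 + c * I) / (1 - c * I) := by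
  have h1 : (1 : ℂ) - c * I ≠ 0 := one_sub_ne c
  have hpos : (0 : ℝ) < 1 + c ^ 2 := by positivity
  have hc : Real.cos (Real.arctan c) ^ 2 = 1 / (1 + c ^ 2) := Real.cos_sq_arctan c
  have hs : Real.sin (Real.arctan c) = c * Real.cos (Real.arctan c) := by
    have h := Real.tan_arctan c
    rw [Real.tan_eq_sin_div_cos, div_eq_iff (Real.cos_arctan_pos c).ne'] at h
    exact h
  have hcos : Real.cos (ang c) = (1 - c ^ 2) / (1 + c ^ 2) := by
    rw [ang, Real.cos_two_mul, hc]
    field_simp
    ring
  have hsin : Real.sin (ang c) = 2 * c / (1 + c ^ 2) := by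
    rw [ang, Real.sin_two_mul, hs]
    have : 2 * (c * Real.cos (Real.arctan c)) * Real.cos (Real.arctan c) =
        2 * c * Real.cos (Real.arctan c) ^ 2 := by ring
    rw [this, hc]
    ring
  have hne : (1 : ℂ) + (c : ℂ) ^ 2 ≠ 0 := by
    exact_mod_cast hpos.ne'
  rw [exp_mul_I, ← ofReal_cos, ← ofReal_sin, hcos, hsin, eq_div_iff h1]
  push_cast
  field_simp
  ring_nf
  rw [I_sq]
  ring

theorem alg_self {F : Type} [Field F] [Algebra F ℂ] {x y : ℂ} (h : y = x) :
    IsAlgebraic (IntermediateField.adjoin F {y}) x := by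
  subst h
  exact isAlgebraic_algebraMap (⟨y, IntermediateField.mem_adjoin_simple_self F _⟩ :
    IntermediateField.adjoin F {y})

theorem alg_circle {F : Type} [Field F] [Algebra F ℂ] (hI : IsAlgebraic F I) (c : ℝ) (w : ℂ)
    (hwe : w = (1 + c * I) / (1 - c * I)) :
    IsAlgebraic (IntermediateField.adjoin F {w}) (c : ℂ) := by
  have h1 : (1 : ℂ) - c * I ≠ 0 := one_sub_ne c
  have hw1 : w + 1 = 2 / (1 - c * I) := by
    rw [hwe]
    field_simp
    ring
  have hc : (c : ℂ) = -I * ((w - 1) / (w + 1)) := by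
    rw [hw1, hwe]
    field_simp
    ring_nf
    rw [I_sq]
    ring
  have hI' : IsAlgebraic (IntermediateField.adjoin F {w}) I := hI.tower_top _
  have hwa : IsAlgebraic (IntermediateField.adjoin F {w}) w := alg_self rfl
  rw [hc, div_eq_mul_inv]
  exact hI'.neg.mul ((hwa.sub isAlgebraic_one).mul (hwa.add isAlgebraic_one).inv)

/-- Passing from algebraically independent parameters to points of the circle. -/
theorem ai_circle {F : Type} [Field F] [Algebra F ℂ] (hI : IsAlgebraic F I) {κ κ' : Type}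
    (t : κ → ℝ) (c : κ' → ℝ) (ht : ∀ k, 0 < t k)
    (h : AlgebraicIndependent F
      (Sum.elim (fun k => (t k : ℂ)) (fun k => (c k : ℂ)))) :
    AlgebraicIndependent F
      (Sum.elim (fun k => exp ((Real.log (t k) : ℝ) : ℂ)) (fun k => exp (ang (c k) * I))) := by
  refine ai_pointwise h ?_
  rintro (k | k)
  · refine alg_self ?_
    rw [Sum.elim_inl, Sum.elim_inl, ← ofReal_exp, Real.exp_log (ht k)]
  · exact alg_circle hI (c k) _ (exp_ang (c k))

end Pool.Agent.Pat5
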