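import Mathlib
import Pool.Agent.Pat5.Defs

/-!
# Pat5 P30: elementary properties of the functions `E`

Proofs. `zero'`: `ker` with `n = 0`. `neg'`, `ne_zero'` from `E x * E (-x) = 1`. `nat_mul'` by
induction. `pI'`: `E (p I) ^ 2 = E (2 p I) = 1` (`ker`, `n = 1`) and `E (p I) ≠ 1` (`ker`:
`p I = n * (2 p I)` would give `1 = 2 n`), so `E (p I) = -1`. `ofReal'`: `E (x : ℂ)` is real by
`conj` (`Complex.conj_eq_iff_real`) and its real part is positive by `real`. `eq_zero'`: if
`E x = 1` for a real `x`, then `x = n * (2 p I)`, so `x = 0` (compare real parts). `alg_rat'`: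
`E (r x) ^ den = E (num x) = E x ^ num` (as in the proof of `alg_exp_rat`).
-/

set_option autoImplicit false

namespace Pool.Agent.Pat5

open Complex

namespace IsExp

variable {E : ℂ → ℂ} {p : ℝ}

theorem zero' (h : IsExp E p) : E 0 = 1 :=
  (h.ker 0).2 ⟨0, by simp⟩

theorem ne_zero' (h : IsExp E p) (x : ℂ) : E x ≠ 0 := by
  intro h0
  have h1 := h.add x (-x)
  rw [add_neg_cancel, h.zero', h0, zero_mul] at h1
  exact one_ne_zero h1

theorem neg' (h : IsExp E p) (x : ℂ) : E (-x) = (E x)⁻¹ := by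
  have h1 := h.add x (-x)
  rw [add_neg_cancel, h.zero'] at h1
  exact eq_inv_of_mul_eq_one_right h1.symm

theorem nat_mul' (h : IsExp E p) (n : ℕ) (x : ℂ) : E (n * x) = E x ^ n := by
  induction n with
  | zero => rw [Nat.cast_zero, zero_mul, h.zero', pow_zero]
  | succ n ih => rw [Nat.cast_succ, add_mul, one_mul, h.add, ih, pow_succ]

theorem int_mul' (h : IsExp E p) (n : ℤ) (x : ℂ) : E (n * x) = E x ^ n := by
  cases n with
  | ofNat n => rw [Int.ofNat_eq_natCast, Int.cast_natCast, zpow_natCast, h.nat_mul']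
  | negSucc n =>
    rw [zpow_negSucc, Int.cast_negSucc, neg_mul, h.neg', ← h.nat_mul' (n + 1)]

theorem pI' (h : IsExp E p) : E (p * I) = -1 := by
  have h1 : E (p * I) * E (p * I) = 1 := by
    rw [← h.add]
    exact (h.ker _).2 ⟨1, by push_cast; ring⟩
  have h2 : E (p * I) ≠ 1 := by
    intro h2
    obtain ⟨n, hn⟩ := (h.ker _).1 h2
    have hp : (p : ℂ) * I ≠ 0 := mul_ne_zero (ofReal_ne_zero.2 h.pos.ne') I_ne_zero
    have h3 : ((p : ℂ) * I) * 1 = ((p : ℂ) * I) * (2 * n) := by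
      rw [mul_one]
      conv_lhs => rw [hn]
      ring
    have h4 : (1 : ℂ) = 2 * n := mul_left_cancel₀ hp h3
    have h5 : (1 : ℤ) = 2 * n := by exact_mod_cast h4
    omega
  exact (mul_self_eq_one_iff.1 h1).resolve_left h2

theorem ofReal' (h : IsExp E p) (x : ℝ) : ∃ r : ℝ, 0 < r ∧ E x = r := by
  have h1 := h.conj x
  rw [conj_ofReal] at h1
  obtain ⟨r, hr⟩ := conj_eq_iff_real.1 h1.symm
  refine ⟨r, ?_, hr⟩
  have h2 := h.real x
  rwa [hr, ofReal_re] at h2

theorem eq_zero' (h : IsExp E p) {x : ℝ} (hx : E x = 1) : x = 0 := by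
  obtain ⟨n, hn⟩ := (h.ker _).1 hx
  have h1 := congrArg Complex.re hn
  simpa using h1

theorem alg_rat' (h : IsExp E p) {x : ℂ} (hx : IsAlgebraic ℚ (E x)) (r : ℚ) :
    IsAlgebraic ℚ (E (r * x)) := by
  have h1 : E (r * x) ^ r.den = E x ^ r.num := by
    rw [← h.nat_mul', ← h.int_mul']
    congr 1
    have h2 : (r.den : ℂ) * (r : ℂ) = (r.num : ℂ) := by
      have := Rat.den_mul_eq_num r
      exact_mod_cast congrArg (fun q : ℚ => (q : ℂ)) this
    rw [← mul_assoc, h2]
  refine IsAlgebraic.of_pow r.den_pos ?_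
  rw [h1]
  cases r.num with
  | ofNat n => rw [Int.ofNat_eq_natCast, zpow_natCast]; exact hx.pow n
  | negSucc n => rw [zpow_negSucc]; exact (hx.pow _).inv

end IsExp

end Pool.Agent.Pat5
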