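import Mathlib
import Pool.Agent.Pat5.Conv0

/-!
# Pat5 P31: consequences of the theorems of Lindemann, Weierstrass and Baker

Proofs. `transc_one`: `lindemann_weierstrass` with `n = 1`, `a = ![1]`. `transc_p`: if `p` were
algebraic, then `p I` is algebraic and not zero, so `E (p I) = -1` would be transcendental
(`lindemann_weierstrass` with `n = 1`).

`one_notMem`: suppose that `1` is in the `Qbar`-span of the set `L` of the logarithms `z` (with
`E z` algebraic). Then `1` is in the `Qbar`-span of a finite subset; the rational span of this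
subset has a finite basis `l : Fin n → ℂ` of elements of the subset (`exists_linearIndependent`,
`exists_linearIndependent_extension`; or work with the whole set: there is a linearly independent
subset `b ⊆ L` with the same rational span, `exists_linearIndependent ℚ L`, and then
`Submodule.span Qbar b = Submodule.span Qbar L` contains `1`, so `1` is in the span of a finite
subset of `b`). This contradicts `baker`: `1` and `l` are linearly independent over `Qbar`
(`LinearIndependent.option_iff`-type lemma, or evaluate a linear combination).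

`baker_pair`: `x` and `p I` are linearly independent over `ℚ` (`x ≠ 0` real, `p I ≠ 0` purely
imaginary) and `E x`, `E (p I) = -1` are algebraic, so `1, x, p I` are linearly independent over
`Qbar`, and `I ∈ Qbar`.

`not_AB`: `p` is a root of `X^2 - (p + E 1) X + p E 1`; as in `SharpSix.not_AB`
(`(p - E 1)^2 = (p + E 1)^2 - 4 p E 1` is algebraic). `not_AD`: `E 1` is a logarithm and `p` is `-I`
times the logarithm `p I`, so `a = p + E 1`, which is not `0` (it is a positive real number), is in the
`Qbar`-span of the logarithms; divide by `a ∈ Qbar`: contradiction to `one_notMem`. `not_ACE`: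
`E (E 1 * l) * E (p * l) = E (A * l)` is algebraic, `A > 0`, so `E l = E (A⁻¹ * (A * l))` is algebraic
(`alg_rat'`), i.e. `p` is algebraic: contradiction to `transc_p`.
-/

set_option autoImplicit false

namespace Pool.Agent.Pat5

open Complex

variable {E : ℂ → ℂ} {p : ℝ}

theorem transc_one (hT : Theorems E) : Transcendental ℚ (E 1) := by
  have h1 : LinearIndependent ℚ ![(1 : ℂ)] := by
    rw [linearIndependent_unique_iff]
    simp
  have h2 := hT.lindemann_weierstrass 1 ![1] (fun i => by
    rw [Subsingleton.elim i 0]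
    exact isAlgebraic_one) h1
  exact h2.transcendental 0

/-- The sum of `p` and `E 1` is a positive real number. -/
private theorem add_ne (h : IsExp E p) : (p : ℂ) + E 1 ≠ 0 := by
  obtain ⟨r, hr, h1⟩ := h.ofReal' 1
  rw [ofReal_one] at h1
  rw [h1, ← ofReal_add, Ne, ofReal_eq_zero]
  have := h.pos
  positivity

theorem transc_p (h : IsExp E p) (hT : Theorems E) : Transcendental ℚ (p : ℂ) := by
  intro hp
  have hI : IsAlgebraic ℚ I := by
    refine IsAlgebraic.of_pow (n := 2) two_pos ?_
    rw [I_sq]
    exact isAlgebraic_one.neg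
  have h0 : (p : ℂ) * I ≠ 0 := mul_ne_zero (ofReal_ne_zero.2 h.pos.ne') I_ne_zero
  have h1 : LinearIndependent ℚ ![(p : ℂ) * I] := by
    rw [linearIndependent_unique_iff]
    simpa using h0
  have h2 := hT.lindemann_weierstrass 1 ![(p : ℂ) * I] (fun i => by
    rw [Subsingleton.elim i 0]
    exact hp.mul hI) h1
  have h3 := h2.transcendental 0
  refine h3 ?_
  show IsAlgebraic ℚ (E ((p : ℂ) * I))
  rw [h.pI']
  exact isAlgebraic_one.neg

theorem one_notMem (hT : Theorems E) :
    (1 : ℂ) ∉ Submodule.span Qbar {z | IsAlgebraic ℚ (E z)} := by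
  intro h1
  obtain ⟨b, hb, hsp, hli⟩ := exists_linearIndependent ℚ {z : ℂ | IsAlgebraic ℚ (E z)}
  have h2 : (1 : ℂ) ∈ Submodule.span Qbar b := by
    refine Submodule.span_le.2 ?_ h1
    intro z hz
    have h3 : z ∈ Submodule.span ℚ b := by
      rw [hsp]
      exact Submodule.subset_span hz
    exact Submodule.span_subset_span ℚ Qbar b h3
  obtain ⟨T, hT1, hT2⟩ := Submodule.mem_span_finite_of_mem_span h2
  have h4 : LinearIndependent ℚ (fun i => ((T.equivFin.symm i : T) : ℂ)) := by
    refine hli.comp (fun i => (⟨((T.equivFin.symm i : T) : ℂ), hT1 (T.equivFin.symm i).2⟩ : b)) ?_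
    intro i j hij
    have h5 := congrArg Subtype.val hij
    exact T.equivFin.symm.injective (Subtype.ext h5)
  have h6 := hT.baker T.card (fun i => ((T.equivFin.symm i : T) : ℂ))
    (fun i => hb (hT1 (T.equivFin.symm i).2)) h4
  have h7 := h6.notMem_span_image (s := Set.range some) (x := none) (by simp)
  refine h7 ?_
  have h8 : (fun o : Option (Fin T.card) =>
      o.elim (1 : ℂ) (fun i => ((T.equivFin.symm i : T) : ℂ))) '' Set.range some = T := by
    ext z
    constructor
    · rintro ⟨_, ⟨i, rfl⟩, rfl⟩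
      exact (T.equivFin.symm i).2
    · intro hz
      exact ⟨_, ⟨T.equivFin ⟨z, hz⟩, rfl⟩, by simp⟩
  rw [h8]
  exact hT2

private theorem isAlg_I : IsAlgebraic ℚ I := by
  refine IsAlgebraic.of_pow (n := 2) two_pos ?_
  rw [I_sq]
  exact isAlgebraic_one.neg

theorem baker_pair (h : IsExp E p) (hT : Theorems E) {x : ℝ} (hx : x ≠ 0)
    (hxa : IsAlgebraic ℚ (E x)) : LinearIndependent Qbar ![1, (x : ℂ), (p : ℂ)] := by
  have h1 : LinearIndependent ℚ ![(x : ℂ), (p : ℂ) * I] := by
    rw [LinearIndependent.pair_iff]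
    intro s t hst
    rw [Rat.smul_def, Rat.smul_def] at hst
    have hre := congrArg Complex.re hst
    have him := congrArg Complex.im hst
    simp at hre him
    exact ⟨hre.resolve_right hx, him.resolve_right h.pos.ne'⟩
  have h2 := hT.baker 2 ![(x : ℂ), (p : ℂ) * I] (fun i => by
    fin_cases i
    · exact hxa
    · show IsAlgebraic ℚ (E ((p : ℂ) * I))
      rw [h.pI']
      exact isAlgebraic_one.neg) h1
  rw [Fintype.linearIndependent_iff] at h2 ⊢
  intro g hg
  let j : Qbar := ⟨I, mem_Qbar.2 isAlg_I⟩
  have hj : (j : ℂ) = I := rfl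
  have h3 := h2 (fun o => o.elim (g 0) ![g 1, -(g 2 * j)]) (by
    rw [Fintype.sum_option, Fin.sum_univ_two]
    rw [Fin.sum_univ_three] at hg
    simp only [Option.elim_none, Option.elim_some, Matrix.cons_val_zero, Matrix.cons_val_one,
      Matrix.cons_val] at hg ⊢
    rw [← hg]
    simp only [Algebra.smul_def, IntermediateField.algebraMap_apply, IntermediateField.coe_neg,
      IntermediateField.coe_mul, hj]
    ring_nf
    rw [I_sq]
    ring)
  have e0 := h3 none
  have e1 := h3 (some 0)
  have e2 := h3 (some 1)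
  simp only [Option.elim_none, Option.elim_some, Matrix.cons_val_zero, Matrix.cons_val_one,
    neg_eq_zero, mul_eq_zero] at e0 e1 e2
  have hj0 : j ≠ 0 := by
    intro hh
    have := congrArg (fun z : Qbar => (z : ℂ)) hh
    simp only [hj, ZeroMemClass.coe_zero] at this
    exact I_ne_zero this
  intro i
  fin_cases i
  · exact e0
  · exact e1
  · exact e2.resolve_right hj0

theorem not_AB (h : IsExp E p) (hT : Theorems E) (hA : IsAlgebraic ℚ (p + E 1))
    (hB : IsAlgebraic ℚ (p * E 1)) : False := by
  have h4 : IsAlgebraic ℚ (4 : ℂ) := by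
    have := isAlgebraic_algebraMap (R := ℚ) (A := ℂ) 4
    simpa using this
  have h2 : IsAlgebraic ℚ ((2 : ℂ)⁻¹) := by
    have := isAlgebraic_algebraMap (R := ℚ) (A := ℂ) 2⁻¹
    simpa using this
  have h1 : IsAlgebraic ℚ ((p : ℂ) - E 1) := by
    refine IsAlgebraic.of_pow (n := 2) two_pos ?_
    have : ((p : ℂ) - E 1) ^ 2 = (p + E 1) ^ 2 - 4 * (p * E 1) := by ring
    rw [this]
    exact (hA.pow 2).sub (h4.mul hB)
  refine transc_p h hT ?_
  have : (p : ℂ) = (2 : ℂ)⁻¹ * ((p + E 1) + (p - E 1)) := by ring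
  rw [this]
  exact h2.mul (hA.add h1)

theorem not_AD (h : IsExp E p) (hT : Theorems E) (hA : IsAlgebraic ℚ (p + E 1))
    (hD : IsAlgebraic ℚ (E (E 1))) : False := by
  refine one_notMem hT ?_
  let a : Qbar := ⟨(p + E 1)⁻¹, mem_Qbar.2 hA.inv⟩
  let j : Qbar := ⟨-I, mem_Qbar.2 isAlg_I.neg⟩
  have h1 : E 1 ∈ Submodule.span Qbar {z | IsAlgebraic ℚ (E z)} := Submodule.subset_span hD
  have h2 : (p : ℂ) * I ∈ Submodule.span Qbar {z | IsAlgebraic ℚ (E z)} := by
    refine Submodule.subset_span ?_
    show IsAlgebraic ℚ (E ((p : ℂ) * I))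
    rw [h.pI']
    exact isAlgebraic_one.neg
  have h3 := Submodule.smul_mem _ a (Submodule.add_mem _ (Submodule.smul_mem _ j h2) h1)
  have h4 : a • (j • ((p : ℂ) * I) + E 1) = 1 := by
    show (p + E 1)⁻¹ * (-I * ((p : ℂ) * I) + E 1) = 1
    have h5 : -I * ((p : ℂ) * I) = p := by
      have : -I * ((p : ℂ) * I) = -(I * I) * p := by ring
      rw [this, I_mul_I]
      ring
    rw [h5]
    exact inv_mul_cancel₀ (add_ne h)
  rw [h4] at h3
  exact h3

theorem not_ACE (h : IsExp E p) (hT : Theorems E) {l : ℝ} (hl : E l = p) (A : ℚ)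
    (hA : p + E 1 = A) (hC : IsAlgebraic ℚ (E (E 1 * l))) (hE : IsAlgebraic ℚ (E (p * l))) :
    False := by
  have hA0 : (A : ℂ) ≠ 0 := by
    rw [← hA]
    exact add_ne h
  have h1 : IsAlgebraic ℚ (E (A * l)) := by
    rw [← hA, add_mul, h.add]
    exact hE.mul hC
  have h2 := h.alg_rat' h1 A⁻¹
  rw [Rat.cast_inv, ← mul_assoc, inv_mul_cancel₀ hA0, one_mul, hl] at h2
  exact transc_p h hT h2

end Pool.Agent.Pat5
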