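import Mathlib
import Pool.Agent.Pat5.Conv1

/-!
# Pat5 P32: consequences of the strong six exponentials theorem

Write `e = E 1`, `B = p * e` (algebraic, not `0`, not `1`). First, `E (l + 1) = E l * E 1 = B` is
algebraic and `l + 1 ≠ 0` (otherwise `B = E 0 = 1`). So `l + 1` is a real logarithm, and
`l = (l + 1) - 1`, `p = -I * (p I)`, `1` are in `logSpan E`. Every logarithm is in `logSpan E`, and
`logSpan E` is closed under multiplication with elements of `Qbar`.

`not_BCD`: `x = ![1, e]`, `y = ![1, l, p]`. The products are `1, l, p, e, e l, e p = B`, all in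
`logSpan E`. `x` is linearly independent over `Qbar` as `e` is transcendental (over `ℚ`, hence over
`Qbar`). `y` is by `baker_pair` for `l + 1` and a change of basis. Contradiction to `hT.six`.

`not_BDE`: `x = ![1, p]`, `y = ![1, e, l]`, products `1, e, l, p, p e = B, p l`. `x` is linearly
independent as `p` is transcendental. `y`: if the two logarithms `e`, `l + 1` are linearly independent
over `ℚ`, then `1, e, l + 1` are linearly independent over `Qbar` by `hT.baker` with `n = 2`, hence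
`1, e, l`. Otherwise `e = q (l + 1)` with rational `q`; then `B = p e = q (p l) + q p` is in the
`Qbar`-span of the logarithms `p l`, `p I`, so `1 = B⁻¹ B` is in the span: contradiction to
`one_notMem`.

`not_BCE`: `x = ![1, p]`, `y = ![1, e l, l]`, products `1, e l, l, p, p e l = B l, p l`. `y`: if
`e l`, `l + 1` are linearly independent over `ℚ`, Baker as before. Otherwise `e l = q (l + 1)`; then
`B l = p e l = q (p l) + q p`, and `B = B (l + 1) - q (p l) - q p` is in the span of the logarithms: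
contradiction to `one_notMem`.
-/

set_option autoImplicit false

namespace Pool.Agent.Pat5

open Complex

variable {E : ℂ → ℂ} {p l : ℝ}

private theorem c2_add1 (h : IsExp E p) (hl : E l = p) : E (l + 1) = p * E 1 := by
  rw [h.add, hl]

private theorem c2_ne (h : IsExp E p) (hl : E l = p) (hne : p * E 1 ≠ 1) : (l : ℂ) + 1 ≠ 0 := by
  intro h0
  apply hne
  rw [← c2_add1 h hl, h0, h.zero']

private theorem c2_smul {S : Submodule Qbar ℂ} {a z : ℂ} (ha : IsAlgebraic ℚ a) (hz : z ∈ S) :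
    a * z ∈ S := S.smul_mem (⟨a, mem_Qbar.2 ha⟩ : Qbar) hz

private theorem c2_log {z : ℂ} (hz : IsAlgebraic ℚ (E z)) :
    z ∈ Submodule.span Qbar {z | IsAlgebraic ℚ (E z)} := Submodule.subset_span hz

private theorem c2_le : Submodule.span Qbar {z | IsAlgebraic ℚ (E z)} ≤ logSpan E :=
  Submodule.span_mono Set.subset_union_right

private theorem c2_one : (1 : ℂ) ∈ logSpan E := Submodule.subset_span (Or.inl rfl)

private theorem c2_rat (q : ℚ) : IsAlgebraic ℚ (q : ℂ) := isAlgebraic_algebraMap (A := ℂ) q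

private theorem c2_I : IsAlgebraic ℚ I := by
  refine IsAlgebraic.of_pow (n := 2) (by norm_num) ?_
  rw [I_sq]
  exact isAlgebraic_one.neg

private theorem c2_p (h : IsExp E p) :
    (p : ℂ) ∈ Submodule.span Qbar {z | IsAlgebraic ℚ (E z)} := by
  have h1 : IsAlgebraic ℚ (E (p * I)) := by
    rw [h.pI']
    exact isAlgebraic_one.neg
  have h2 := c2_smul c2_I.neg (c2_log h1)
  have h3 : -I * (p * I) = (p : ℂ) := by
    linear_combination (-(p : ℂ)) * I_sq
  rwa [h3] at h2

private theorem c2_B (hne : (p : ℂ) * E 1 ≠ 0) (hT : Theorems E) (hB : IsAlgebraic ℚ (p * E 1))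
    (h : (p : ℂ) * E 1 ∈ Submodule.span Qbar {z | IsAlgebraic ℚ (E z)}) : False := by
  have h1 := c2_smul hB.inv h
  rw [inv_mul_cancel₀ hne] at h1
  exact one_notMem hT h1

private theorem c2_pair {z : ℂ} (hz : Transcendental ℚ z) : LinearIndependent Qbar ![1, z] := by
  rw [LinearIndependent.pair_iff]
  intro s t hst
  have ht : t = 0 := by
    by_contra ht
    apply hz
    have h1 : z = -(t : ℂ)⁻¹ * s := by
      have ht' : (t : ℂ) ≠ 0 := fun h => ht (Subtype.ext h)
      have h2 : (s : ℂ) * 1 + t * z = 0 := hst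
      field_simp
      linear_combination h2
    rw [h1]
    exact ((mem_Qbar.1 t.2).inv.neg).mul (mem_Qbar.1 s.2)
  subst ht
  rw [zero_smul, add_zero] at hst
  have h2 : (s : ℂ) * 1 = 0 := hst
  rw [mul_one] at h2
  exact ⟨Subtype.ext h2, rfl⟩

private theorem c2_change {a b : ℂ} (c d : ℚ)
    (h : LinearIndependent Qbar ![1, a + c, b + d]) : LinearIndependent Qbar ![1, a, b] := by
  rw [Fintype.linearIndependent_iff] at h ⊢
  intro g hg
  have h1 := h ![g 0 - g 1 * c - g 2 * d, g 1, g 2] (by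
    rw [Fin.sum_univ_three] at hg ⊢
    have h2 : (g 0 : ℂ) * 1 + g 1 * a + g 2 * b = 0 := hg
    change ((g 0 : ℂ) - g 1 * ((c : Qbar) : ℂ) - g 2 * ((d : Qbar) : ℂ)) * 1 + g 1 * (a + c) +
      g 2 * (b + d) = 0
    have hc : ((c : Qbar) : ℂ) = c := rfl
    have hd : ((d : Qbar) : ℂ) = d := rfl
    rw [hc, hd]
    linear_combination h2)
  have h3 : g 1 = 0 := h1 1
  have h4 : g 2 = 0 := h1 2
  have h5 : g 0 - g 1 * c - g 2 * d = 0 := h1 0
  rw [h3, h4, zero_mul, zero_mul, sub_zero, sub_zero] at h5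
  intro i
  fin_cases i
  · exact h5
  · exact h3
  · exact h4

private theorem c2_baker (hT : Theorems E) {a b : ℂ} (ha : IsAlgebraic ℚ (E a))
    (hb : IsAlgebraic ℚ (E b)) (h : LinearIndependent ℚ ![a, b]) :
    LinearIndependent Qbar ![1, a, b] := by
  have h1 := hT.baker 2 ![a, b] (by
    intro i
    fin_cases i
    · exact ha
    · exact hb) h
  have h2 := h1.comp (![none, some 0, some 1] : Fin 3 → Option (Fin 2)) (by decide)
  have h3 : (fun o : Option (Fin 2) => o.elim 1 ![a, b]) ∘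
      (![none, some 0, some 1] : Fin 3 → Option (Fin 2)) = ![1, a, b] := by
    funext i
    fin_cases i <;> rfl
  rwa [h3] at h2

private theorem c2_dep {a b : ℂ} (hb : b ≠ 0) (h : ¬ LinearIndependent ℚ ![a, b]) :
    ∃ q : ℚ, a = q * b := by
  rw [LinearIndependent.pair_iff] at h
  push Not at h
  obtain ⟨s, t, hst, hne⟩ := h
  have hs : s ≠ 0 := by
    rintro rfl
    rw [zero_smul, zero_add] at hst
    exact hne rfl ((smul_eq_zero.1 hst).resolve_right hb)
  refine ⟨-(t / s), ?_⟩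
  have hs' : (s : ℂ) ≠ 0 := Rat.cast_ne_zero.2 hs
  rw [Rat.smul_def, Rat.smul_def] at hst
  push_cast
  field_simp
  linear_combination hst

theorem not_BCD (h : IsExp E p) (hT : Theorems E) (hl : E l = p) (hne : p * E 1 ≠ 1)
    (hB : IsAlgebraic ℚ (p * E 1)) (hC : IsAlgebraic ℚ (E (E 1 * l)))
    (hD : IsAlgebraic ℚ (E (E 1))) : False := by
  have h1 : IsAlgebraic ℚ (E (l + 1)) := by rwa [c2_add1 h hl]
  have h2 := c2_ne h hl hne
  have h3 : (((l + 1 : ℝ)) : ℂ) = l + 1 := by push_cast; rfl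
  have h4 : LinearIndependent Qbar ![1, (l : ℂ), (p : ℂ)] := by
    have h5 := baker_pair h hT (x := l + 1) (fun h0 => h2 (by rw [← h3, h0, ofReal_zero]))
      (by rwa [h3])
    rw [h3] at h5
    refine c2_change 1 0 ?_
    rwa [Rat.cast_one, Rat.cast_zero, add_zero]
  obtain ⟨i, j, hij⟩ := hT.six ![1, E 1] ![1, l, p] (c2_pair (transc_one hT)) h4
  have hlm : (l : ℂ) ∈ logSpan E := by
    have h6 := (logSpan E).sub_mem (c2_le (c2_log h1)) c2_one
    rwa [add_sub_cancel_right] at h6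
  apply hij
  fin_cases i <;> fin_cases j
  · change (1 : ℂ) * 1 ∈ _
    rw [one_mul]
    exact c2_one
  · change (1 : ℂ) * l ∈ _
    rwa [one_mul]
  · change (1 : ℂ) * p ∈ _
    rw [one_mul]
    exact c2_le (c2_p h)
  · change E 1 * 1 ∈ _
    rw [mul_one]
    exact c2_le (c2_log hD)
  · change E 1 * l ∈ _
    exact c2_le (c2_log hC)
  · change E 1 * p ∈ _
    rw [mul_comm, ← mul_one ((p : ℂ) * E 1)]
    exact c2_smul hB c2_one

theorem not_BDE (h : IsExp E p) (hT : Theorems E) (hl : E l = p) (hne : p * E 1 ≠ 1)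
    (hB : IsAlgebraic ℚ (p * E 1)) (hD : IsAlgebraic ℚ (E (E 1)))
    (hE : IsAlgebraic ℚ (E (p * l))) : False := by
  have h1 : IsAlgebraic ℚ (E (l + 1)) := by rwa [c2_add1 h hl]
  have h2 := c2_ne h hl hne
  have hp0 : (p : ℂ) * E 1 ≠ 0 := mul_ne_zero (ofReal_ne_zero.2 h.pos.ne') (h.ne_zero' 1)
  have h4 : LinearIndependent Qbar ![1, E 1, (l : ℂ)] := by
    refine c2_change 0 1 ?_
    rw [Rat.cast_one, Rat.cast_zero, add_zero]
    refine c2_baker hT hD h1 ?_
    by_contra hdep
    obtain ⟨q, hq⟩ := c2_dep h2 hdep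
    refine c2_B hp0 hT hB ?_
    have h5 : (p : ℂ) * E 1 = q * (p * l) + q * p := by
      rw [hq]
      ring
    rw [h5]
    exact Submodule.add_mem _ (c2_smul (c2_rat q) (c2_log hE)) (c2_smul (c2_rat q) (c2_p h))
  obtain ⟨i, j, hij⟩ := hT.six ![1, (p : ℂ)] ![1, E 1, l] (c2_pair (transc_p h hT)) h4
  have hlm : (l : ℂ) ∈ logSpan E := by
    have h6 := (logSpan E).sub_mem (c2_le (c2_log h1)) c2_one
    rwa [add_sub_cancel_right] at h6
  apply hij
  fin_cases i <;> fin_cases j
  · change (1 : ℂ) * 1 ∈ _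
    rw [one_mul]
    exact c2_one
  · change (1 : ℂ) * E 1 ∈ _
    rw [one_mul]
    exact c2_le (c2_log hD)
  · change (1 : ℂ) * l ∈ _
    rwa [one_mul]
  · change (p : ℂ) * 1 ∈ _
    rw [mul_one]
    exact c2_le (c2_p h)
  · change (p : ℂ) * E 1 ∈ _
    rw [← mul_one ((p : ℂ) * E 1)]
    exact c2_smul hB c2_one
  · change (p : ℂ) * l ∈ _
    exact c2_le (c2_log hE)

theorem not_BCE (h : IsExp E p) (hT : Theorems E) (hl : E l = p) (hne : p * E 1 ≠ 1)
    (hB : IsAlgebraic ℚ (p * E 1)) (hC : IsAlgebraic ℚ (E (E 1 * l)))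
    (hE : IsAlgebraic ℚ (E (p * l))) : False := by
  have h1 : IsAlgebraic ℚ (E (l + 1)) := by rwa [c2_add1 h hl]
  have h2 := c2_ne h hl hne
  have hp0 : (p : ℂ) * E 1 ≠ 0 := mul_ne_zero (ofReal_ne_zero.2 h.pos.ne') (h.ne_zero' 1)
  have h4 : LinearIndependent Qbar ![1, E 1 * l, (l : ℂ)] := by
    refine c2_change 0 1 ?_
    rw [Rat.cast_one, Rat.cast_zero, add_zero]
    refine c2_baker hT hC h1 ?_
    by_contra hdep
    obtain ⟨q, hq⟩ := c2_dep h2 hdep
    refine c2_B hp0 hT hB ?_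
    have h5 : (p : ℂ) * E 1 = (p * E 1) * (l + 1) - (q * (p * l) + q * p) := by
      linear_combination (-(p : ℂ)) * hq
    rw [h5]
    exact Submodule.sub_mem _ (c2_smul hB (c2_log h1))
      (Submodule.add_mem _ (c2_smul (c2_rat q) (c2_log hE)) (c2_smul (c2_rat q) (c2_p h)))
  obtain ⟨i, j, hij⟩ := hT.six ![1, (p : ℂ)] ![1, E 1 * l, l] (c2_pair (transc_p h hT)) h4
  have hlm : (l : ℂ) ∈ logSpan E := by
    have h6 := (logSpan E).sub_mem (c2_le (c2_log h1)) c2_one
    rwa [add_sub_cancel_right] at h6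
  apply hij
  fin_cases i <;> fin_cases j
  · change (1 : ℂ) * 1 ∈ _
    rw [one_mul]
    exact c2_one
  · change (1 : ℂ) * (E 1 * l) ∈ _
    rw [one_mul]
    exact c2_le (c2_log hC)
  · change (1 : ℂ) * l ∈ _
    rwa [one_mul]
  · change (p : ℂ) * 1 ∈ _
    rw [mul_one]
    exact c2_le (c2_p h)
  · change (p : ℂ) * (E 1 * l) ∈ _
    rw [← mul_assoc]
    exact c2_smul hB hlm
  · change (p : ℂ) * l ∈ _
    exact c2_le (c2_log hE)

end Pool.Agent.Pat5
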