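import Mathlib
import Pool.Agent.Pat5.Conv1

/-!
# Pat5 P33: consequences of the algebraic independence of logarithms

`mul_eq`: let `R` and `S` be polynomials with rational coefficients in real logarithms of algebraic
numbers, with `p * R = S`. Then `R = 0`. Proof. The set `L` of the real logarithms is a rational vector
space; take a linearly independent subset `b` of `L` (as a set of complex numbers) with the same
rational span (`exists_linearIndependent`); then `Algebra.adjoin ℚ L = Algebra.adjoin ℚ b`, and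
`R`, `S` are in the algebra generated by a finite subset of `b`
(`MvPolynomial.aeval` at the subtype family, and the finitely many variables of the two
polynomials), indexed by `Fin n`: `R = P (λ)`, `S = Q (λ)`, `λ : Fin n → ℂ`. The family
`(λ, p I)` is linearly independent over `ℚ` (real and purely imaginary parts, `p ≠ 0`), and its members
are logarithms of algebraic numbers (`pI'`), so it is algebraically independent over `ℚ` by `hL`. From
`p R = S` we get `S ^ 2 = - (p I) ^ 2 * R ^ 2`, so `Q ^ 2 + X_n ^ 2 * P ^ 2 = 0` as polynomials in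
`X_0, ..., X_n` (`P`, `Q` do not contain `X_n`). Put `X_n = 0`: `Q = 0`; then `P = 0`, so `R = 0`.

`not_BC'`: `B` is rational, `e = E 1` is real. `E (l + 1) = B`, so `l + 1` is a real logarithm;
`p * (e l) = B * l = B * ((l + 1) - 1)`, so `e l = 0`, `l = 0`, `p = E 0 = 1`, which contradicts `transc_p`.
`not_BD'`: `p * e = B`, so `e = 0`, contradiction to `ne_zero'`. `not_BE'`: `p * ((l + 1) - 1) = p l`, so
`l = 0`. `not_CDE'`: `p * (e l) = e * (p l)`, so `e l = 0`.
-/

set_option autoImplicit false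

namespace Pool.Agent.Pat5

open Complex

variable {E : ℂ → ℂ} {p l : ℝ}

private theorem c3_indep (hL : LogIndep E) {ι : Type} (x : ι → ℂ)
    (hx : ∀ i, IsAlgebraic ℚ (E (x i))) (hi : LinearIndependent ℚ x) :
    AlgebraicIndependent ℚ x := by
  refine algebraicIndependent_of_finite_type fun t ht => ?_
  have := ht.fintype
  let e := Fintype.equivFin t
  have h1 : AlgebraicIndependent ℚ (fun j : Fin (Fintype.card t) => x (e.symm j)) := by
    refine hL _ _ (fun j => hx _) ?_
    exact hi.comp (fun j : Fin (Fintype.card t) => ((e.symm j : t) : ι))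
      (Subtype.val_injective.comp e.symm.injective)
  have h2 := h1.comp e e.injective
  have h3 : (fun j : Fin (Fintype.card t) => x (e.symm j)) ∘ e = fun i : t => x i := by
    funext i
    simp
  rwa [h3] at h2

theorem mul_eq (h : IsExp E p) (hL : LogIndep E) {R S : ℂ}
    (hR : R ∈ Algebra.adjoin ℚ {z : ℂ | z.im = 0 ∧ IsAlgebraic ℚ (E z)})
    (hS : S ∈ Algebra.adjoin ℚ {z : ℂ | z.im = 0 ∧ IsAlgebraic ℚ (E z)})
    (hRS : p * R = S) : R = 0 := by
  classical
  obtain ⟨b, hb, hspan, hlin⟩ := exists_linearIndependent ℚ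
    {z : ℂ | z.im = 0 ∧ IsAlgebraic ℚ (E z)}
  have hadj : Algebra.adjoin ℚ {z : ℂ | z.im = 0 ∧ IsAlgebraic ℚ (E z)} ≤
      Algebra.adjoin ℚ b := by
    rw [Algebra.adjoin_le_iff]
    intro z hz
    have h1 : z ∈ Submodule.span ℚ b := by
      rw [hspan]
      exact Submodule.subset_span hz
    have h2 : Submodule.span ℚ b ≤ Subalgebra.toSubmodule (Algebra.adjoin ℚ b) :=
      Submodule.span_le.2 Algebra.subset_adjoin
    exact h2 h1
  have hR' := hadj hR
  have hS' := hadj hS
  rw [Algebra.adjoin_eq_range, AlgHom.mem_range] at hR' hS'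
  obtain ⟨P, hP⟩ := hR'
  obtain ⟨Q, hQ⟩ := hS'
  -- the family with `p I`
  let x : Option b → ℂ := fun o => o.elim (p * I) (fun z => (z : ℂ))
  have hxa : ∀ o, IsAlgebraic ℚ (E (x o)) := by
    intro o
    cases o with
    | none =>
      change IsAlgebraic ℚ (E (p * I))
      rw [h.pI']
      exact isAlgebraic_one.neg
    | some z => exact (hb z.2).2
  have him : ∀ z ∈ Submodule.span ℚ (Set.range (x ∘ some)), z.im = 0 := by
    intro z hz
    induction hz using Submodule.span_induction with
    | mem z hz =>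
      obtain ⟨w, rfl⟩ := hz
      exact (hb w.2).1
    | zero => simp
    | add u v _ _ hu hv => rw [add_im, hu, hv, add_zero]
    | smul c u _ hu =>
      rw [Rat.smul_def, mul_im, hu]
      simp
  have hxl : LinearIndependent ℚ x := by
    rw [linearIndependent_option]
    refine ⟨hlin, fun h1 => ?_⟩
    have h2 := him _ h1
    change (((p : ℝ) : ℂ) * I).im = 0 at h2
    simp at h2
    exact h.pos.ne' h2
  have hind := c3_indep hL x hxa hxl
  have hPx : MvPolynomial.aeval x (MvPolynomial.rename some P) = R := by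
    rw [MvPolynomial.aeval_rename]
    exact hP
  have hQx : MvPolynomial.aeval x (MvPolynomial.rename some Q) = S := by
    rw [MvPolynomial.aeval_rename]
    exact hQ
  have h0 : MvPolynomial.rename some Q ^ 2 + MvPolynomial.X none ^ 2 *
      MvPolynomial.rename some P ^ 2 = (0 : MvPolynomial (Option b) ℚ) := by
    apply hind.eq_zero_of_aeval_eq_zero
    rw [map_add, _root_.map_mul, map_pow, map_pow, map_pow, hPx, hQx, MvPolynomial.aeval_X, ← hRS]
    change (p * R) ^ 2 + (p * I) ^ 2 * R ^ 2 = 0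
    linear_combination (p : ℂ) ^ 2 * R ^ 2 * I_sq
  have hQ0 : Q = 0 := by
    have h1 := congrArg (MvPolynomial.aeval (R := ℚ)
      (fun o : Option b => o.elim (0 : MvPolynomial b ℚ) MvPolynomial.X)) h0
    rw [map_add, _root_.map_mul, map_pow, map_pow, MvPolynomial.aeval_X, map_zero,
      MvPolynomial.aeval_rename] at h1
    have h2 : (fun o : Option b => o.elim (0 : MvPolynomial b ℚ) MvPolynomial.X) ∘ some =
        MvPolynomial.X := rfl
    rw [h2, MvPolynomial.aeval_X_left, AlgHom.id_apply] at h1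
    simp only [Option.elim_none, ne_eq, OfNat.ofNat_ne_zero, not_false_eq_true, zero_pow,
      zero_mul, add_zero] at h1
    exact (pow_eq_zero_iff (by norm_num)).1 h1
  have hP0 : P = 0 := by
    rw [hQ0, map_zero, zero_pow (by norm_num), zero_add, mul_eq_zero] at h0
    rcases h0 with h1 | h1
    · exact absurd ((pow_eq_zero_iff (by norm_num)).1 h1) (MvPolynomial.X_ne_zero _)
    · have h2 := (pow_eq_zero_iff (by norm_num)).1 h1
      exact MvPolynomial.rename_injective some (Option.some_injective _) (by rw [h2, map_zero])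
  rw [← hP, hP0, map_zero]

private theorem c3_l_ne (h : IsExp E p) (hT : Theorems E) (hl : E l = p) (h0 : (l : ℂ) = 0) :
    False := by
  rw [h0, h.zero'] at hl
  refine transc_p h hT ?_
  rw [← hl]
  exact isAlgebraic_one

private theorem c3_im (h : IsExp E p) : (E 1).im = 0 := by
  obtain ⟨r, -, hr⟩ := h.ofReal' 1
  rw [ofReal_one] at hr
  rw [hr, ofReal_im]

private theorem c3_l_mem (h : IsExp E p) (hl : E l = p) (B : ℚ) (hB : p * E 1 = B) :
    (l : ℂ) ∈ Algebra.adjoin ℚ {z : ℂ | z.im = 0 ∧ IsAlgebraic ℚ (E z)} := by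
  have h1 : (l : ℂ) + 1 ∈ Algebra.adjoin ℚ {z : ℂ | z.im = 0 ∧ IsAlgebraic ℚ (E z)} := by
    refine Algebra.subset_adjoin ⟨by simp, ?_⟩
    rw [h.add, hl, hB]
    exact isAlgebraic_algebraMap (A := ℂ) B
  have h2 := Subalgebra.sub_mem _ h1 (Subalgebra.one_mem _)
  rwa [add_sub_cancel_right] at h2

private theorem c3_rat_mem (B : ℚ) (s : Set ℂ) : (B : ℂ) ∈ Algebra.adjoin ℚ s :=
  Subalgebra.algebraMap_mem _ B

theorem not_BC' (h : IsExp E p) (hT : Theorems E) (hL : LogIndep E) (hl : E l = p) (B : ℚ)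
    (hB : p * E 1 = B) (hC : IsAlgebraic ℚ (E (E 1 * l))) : False := by
  have h1 : E 1 * l = 0 := by
    refine mul_eq (S := B * l) h hL (Algebra.subset_adjoin ⟨?_, hC⟩)
      (Subalgebra.mul_mem _ (c3_rat_mem B _) (c3_l_mem h hl B hB)) ?_
    · rw [mul_im, c3_im h]
      simp
    · rw [← hB]
      ring
  rcases mul_eq_zero.1 h1 with h2 | h2
  · exact h.ne_zero' 1 h2
  · exact c3_l_ne h hT hl h2

theorem not_BD' (h : IsExp E p) (hL : LogIndep E) (B : ℚ)
    (hB : p * E 1 = B) (hD : IsAlgebraic ℚ (E (E 1))) : False := by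
  exact h.ne_zero' 1 (mul_eq (S := B) h hL (Algebra.subset_adjoin ⟨c3_im h, hD⟩)
    (c3_rat_mem B _) hB)

theorem not_BE' (h : IsExp E p) (hT : Theorems E) (hL : LogIndep E) (hl : E l = p) (B : ℚ)
    (hB : p * E 1 = B) (hE : IsAlgebraic ℚ (E (p * l))) : False := by
  exact c3_l_ne h hT hl (mul_eq (S := p * l) h hL (c3_l_mem h hl B hB)
    (Algebra.subset_adjoin ⟨by simp, hE⟩) rfl)

theorem not_CDE' (h : IsExp E p) (hT : Theorems E) (hL : LogIndep E) (hl : E l = p)
    (hC : IsAlgebraic ℚ (E (E 1 * l))) (hD : IsAlgebraic ℚ (E (E 1)))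
    (hE : IsAlgebraic ℚ (E (p * l))) : False := by
  have h1 : E 1 * l = 0 := by
    refine mul_eq (S := E 1 * (p * l)) h hL (Algebra.subset_adjoin ⟨?_, hC⟩)
      (Subalgebra.mul_mem _ (Algebra.subset_adjoin ⟨c3_im h, hD⟩)
        (Algebra.subset_adjoin ⟨by simp, hE⟩)) (by ring)
    rw [mul_im, c3_im h]
    simp
  rcases mul_eq_zero.1 h1 with h2 | h2
  · exact h.ne_zero' 1 h2
  · exact c3_l_ne h hT hl h2

end Pool.Agent.Pat5
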