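import Mathlib
import Pool.Agent.Pat5.Conv2
import Pool.Agent.Pat5.Conv3

/-!
# Pat5 P34: the patterns which the theorems exclude

Proof. `converse`: a set of indices which is not in `good` contains one of the sets `{0, 1}`, `{0, 3}`,
`{0, 2, 4}`, `{1, 2, 3}`, `{1, 3, 4}`, `{1, 2, 4}` (`decide` over the `32` sets); each of them is excluded by
`not_AB`, `not_AD`, `not_ACE`, `not_BCD`, `not_BDE`, `not_BCE` (a rational number is algebraic;
unfold `five`). `converse_strong`: a set of indices which is not in `strong` contains one of the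
above or one of `{1, 2}`, `{1, 3}`, `{1, 4}`, `{2, 3, 4}`, which are excluded by `not_BC'`, `not_BD'`, `not_BE'`,
`not_CDE'`.
-/

set_option autoImplicit false

namespace Pool.Agent.Pat5

open Complex

variable {E : ℂ → ℂ} {p l : ℝ}

private theorem bad_good (S : Finset (Fin 5)) (h : S ∉ good) : (0 ∈ S ∧ 1 ∈ S) ∨
    (0 ∈ S ∧ 3 ∈ S) ∨ (0 ∈ S ∧ 2 ∈ S ∧ 4 ∈ S) ∨ (1 ∈ S ∧ 2 ∈ S ∧ 3 ∈ S) ∨
    (1 ∈ S ∧ 3 ∈ S ∧ 4 ∈ S) ∨ (1 ∈ S ∧ 2 ∈ S ∧ 4 ∈ S) := by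
  revert S
  decide

private theorem bad_strong (S : Finset (Fin 5)) (h : S ∉ strong) : S ∉ good ∨
    (1 ∈ S ∧ 2 ∈ S) ∨ (1 ∈ S ∧ 3 ∈ S) ∨ (1 ∈ S ∧ 4 ∈ S) ∨ (2 ∈ S ∧ 3 ∈ S ∧ 4 ∈ S) := by
  revert S
  decide

private theorem alg_of_rat {z : ℂ} (h : ∃ q : ℚ, z = q) : IsAlgebraic ℚ z := by
  obtain ⟨q, rfl⟩ := h
  exact isAlgebraic_algebraMap q

theorem converse (h : IsExp E p) (hT : Theorems E) (hl : E l = p) (hne : p * E 1 ≠ 1)
    (S : Finset (Fin 5)) (hS : ∀ i, i ∈ S ↔ ∃ q : ℚ, five E p l i = q) : S ∈ good := by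
  by_contra hcon
  have e0 : five E p l 0 = p + E 1 := rfl
  have e1 : five E p l 1 = p * E 1 := rfl
  have e2 : five E p l 2 = E (E 1 * l) := rfl
  have e3 : five E p l 3 = E (E 1) := rfl
  have e4 : five E p l 4 = E (p * l) := rfl
  have h0 := hS 0
  have h1 := hS 1
  have h2 := hS 2
  have h3 := hS 3
  have h4 := hS 4
  rw [e0] at h0
  rw [e1] at h1
  rw [e2] at h2
  rw [e3] at h3
  rw [e4] at h4
  rcases bad_good S hcon with ⟨a, b⟩ | ⟨a, b⟩ | ⟨a, b, c⟩ | ⟨a, b, c⟩ | ⟨a, b, c⟩ | ⟨a, b, c⟩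
  · exact not_AB h hT (alg_of_rat (h0.1 a)) (alg_of_rat (h1.1 b))
  · exact not_AD h hT (alg_of_rat (h0.1 a)) (alg_of_rat (h3.1 b))
  · obtain ⟨A, hA⟩ := h0.1 a
    exact not_ACE h hT hl A hA (alg_of_rat (h2.1 b)) (alg_of_rat (h4.1 c))
  · exact not_BCD h hT hl hne (alg_of_rat (h1.1 a)) (alg_of_rat (h2.1 b))
      (alg_of_rat (h3.1 c))
  · exact not_BDE h hT hl hne (alg_of_rat (h1.1 a)) (alg_of_rat (h3.1 b))
      (alg_of_rat (h4.1 c))
  · exact not_BCE h hT hl hne (alg_of_rat (h1.1 a)) (alg_of_rat (h2.1 b))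
      (alg_of_rat (h4.1 c))

theorem converse_strong (h : IsExp E p) (hT : Theorems E) (hL : LogIndep E) (hl : E l = p)
    (hne : p * E 1 ≠ 1) (S : Finset (Fin 5)) (hS : ∀ i, i ∈ S ↔ ∃ q : ℚ, five E p l i = q) :
    S ∈ strong := by
  by_contra hcon
  have e1 : five E p l 1 = p * E 1 := rfl
  have e2 : five E p l 2 = E (E 1 * l) := rfl
  have e3 : five E p l 3 = E (E 1) := rfl
  have e4 : five E p l 4 = E (p * l) := rfl
  have h1 := hS 1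
  have h2 := hS 2
  have h3 := hS 3
  have h4 := hS 4
  rw [e1] at h1
  rw [e2] at h2
  rw [e3] at h3
  rw [e4] at h4
  rcases bad_strong S hcon with hg | ⟨a, b⟩ | ⟨a, b⟩ | ⟨a, b⟩ | ⟨a, b, c⟩
  · exact hg (converse h hT hl hne S hS)
  · obtain ⟨B, hB⟩ := h1.1 a
    exact not_BC' h hT hL hl B hB (alg_of_rat (h2.1 b))
  · obtain ⟨B, hB⟩ := h1.1 a
    exact not_BD' h hL B hB (alg_of_rat (h3.1 b))
  · obtain ⟨B, hB⟩ := h1.1 a
    exact not_BE' h hT hL hl B hB (alg_of_rat (h4.1 b))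
  · exact not_CDE' h hT hL hl (alg_of_rat (h2.1 a)) (alg_of_rat (h3.1 b))
      (alg_of_rat (h4.1 c))

end Pool.Agent.Pat5
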