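import Mathlib
import Pool.Agent.Pat5.Kc

/-!
# Pat5: the data from which the functions `f` and `g` are constructed

Definitions only. The function `f` will satisfy `f 1 = log e`, `f (v i) = w i` (logarithms of
algebraic numbers), `f (X j) = Y j`, and `g p = π`.
-/

set_option autoImplicit false

namespace Pool.Agent.Pat5

open Complex

/-- The data. -/
structure Dat {n : ℕ} (z : Fin n → ℝ) {ν χ : Type} (e p : ℝ) (v w : ν → ℝ) (X Y : χ → ℝ) :
    Prop where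
  ai : AlgebraicIndependent ℚ (fun i => (z i : ℂ))
  epos : 0 < e
  ppos : 0 < p
  e_mem : (e : ℂ) ∈ Kc z
  p_mem : (p : ℂ) ∈ Kc z
  v_mem : ∀ i, (v i : ℂ) ∈ Kc z
  X_mem : ∀ j, (X j : ℂ) ∈ Kc z
  Y_mem : ∀ j, exp ((Y j : ℝ) : ℂ) ∈ Kc z
  w_mem : ∀ i, w i ∈ Lr
  w_li : LinearIndependent ℚ w
  dom : LinearIndependent Qbar (fun o : Option (ν ⊕ χ) =>
    o.elim 1 (Sum.elim (fun i => (v i : ℂ)) (fun j => (X j : ℂ))))
  ran : ∀ (a : ℚ) (b : χ →₀ ℚ), IsAlgebraic ℚ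
    (exp ((a : ℂ) * (Real.log e : ℝ) + b.sum fun j r => (r : ℂ) * ((Y j : ℝ) : ℂ))) →
      a = 0 ∧ b = 0
  log : LinearIndependent Qbar (fun o : Option (Unit ⊕ ν) =>
    o.elim 1 (Sum.elim (fun _ => (p : ℂ)) (fun i => (v i : ℂ))))

/-- The numbers `p` and `v i` are algebraically independent. -/
def Strong {ν : Type} (p : ℝ) (v : ν → ℝ) : Prop :=
  AlgebraicIndependent ℚ (Sum.elim (fun _ : Unit => (p : ℂ)) (fun i => (v i : ℂ)))

/-- The numbers `1`, `p`, `v i` span the same space as `1`, `Y` and algebraically independent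
numbers `x i`, where `x i0 * Y` is a polynomial in the other `x i`. -/
def QuadHyp {n : ℕ} (z : Fin n → ℝ) {ν : Type} (p : ℝ) (v : ν → ℝ) : Prop :=
  ∃ (ι : Type) (x : ι → ℂ) (i0 : ι) (m : MvPolynomial ι Qbar) (Y : ℂ),
    AlgebraicIndependent ℚ x ∧ (∀ i, x i ∈ Kc z) ∧ m ≠ 0 ∧ i0 ∉ m.vars ∧
    x i0 * Y = MvPolynomial.aeval x m ∧
    Submodule.span Qbar ({1, Y} ∪ Set.range x) =
      Submodule.span Qbar ({1, (p : ℂ)} ∪ Set.range (fun i => (v i : ℂ)))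

end Pool.Agent.Pat5
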