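import Mathlib
import Pool.Agent.Pat5.Dat
import Pool.Agent.Pat5.Mono
import Pool.Agent.Pat5.Circle

/-!
# Pat5 P15: the linear independences needed for the construction of `f` and `g`

Proofs.

`li_tower`: let `∑ c i * x i + ∑ d j * s j = 0` with `c i`, `d j` in `Qbar ≤ K`. The numbers `1`
and `s j` are linearly independent over `K`, because the `s j` are algebraically independent over
`K` (different monomials; e.g. apply `eq_zero_of_aeval_eq_zero` to the polynomial
`C (∑ c i x i) + ∑ C (d j) X j`), so all `d j = 0` and `∑ c i * x i = 0`, so all `c i = 0`.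

`li_alg`: let `∑ r k * β k + ∑ q i * y i = 0` with rational `r k`, `q i`. The first sum is an element
`c` of `Qbar`. As `1` and the `y i` are linearly independent over `Qbar`, all `q i = 0` and `c = 0`,
so all `r k = 0`.

`li_ranf`: let `a * log e + ∑ c k * log (t k) + ∑ d i * w i + ∑ b j * Y j + ∑ h l * σ l = 0` be a
rational relation. Take the exponential function: as `∑ d i * w i + ∑ h l * σ l` is in `Lr` and
`e`, `exp (Y j)` are in `Kc z`, which is closed under rational powers (`exp_rat_mem_Kc`), the number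
`exp (∑ c k * log (t k))` is in `Kc z`. By `transcendental_monomial` over `F = Kc z` (with
`ψ k = log (t k)`, `exp (ψ k) = t k`) all `c k = 0`. Then `exp (a * log e + ∑ b j * Y j)` is
algebraic (it is the inverse of `exp` of an element of `Lr`), so `a = 0` and `b = 0` by `D.ran`.
Finally `∑ d i * w i + ∑ h l * σ l = 0`, so all coefficients are `0` by `hσ`.

`li_rang`: let `∑ c k * ang (ς k) + a * π + ∑ h l * σ l = 0`. Multiply with `i` and take the
exponential: `exp (∑ c k * (ang (ς k) * I))` is algebraic (the inverse of an element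
`exp (y I)`, `y ∈ Li`), so it is in `Kc z`, and `c = 0` by `transcendental_monomial`; then `a` and the
`h l` are `0`.
-/

set_option autoImplicit false

namespace Pool.Agent.Pat5

open Complex

/-- The number `1` and algebraically independent numbers are linearly independent. -/
private theorem li_one {F : Type*} [Field F] [Algebra F ℂ] {κ : Type} {s : κ → ℂ}
    (hs : AlgebraicIndependent F s) :
    LinearIndependent F (fun o : Option κ => o.elim 1 s) := by
  classical
  have h1 := (MvPolynomial.basisMonomials κ F).linearIndependent.map'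
    (MvPolynomial.aeval s : MvPolynomial κ F →ₐ[F] ℂ).toLinearMap
    (LinearMap.ker_eq_bot.2 hs)
  let φ : Option κ → κ →₀ ℕ := fun o => o.elim 0 fun j => Finsupp.single j 1
  have hφ : Function.Injective φ := by
    intro a b hab
    cases a with
    | none =>
      cases b with
      | none => rfl
      | some b =>
        simp only [φ, Option.elim_none, Option.elim_some] at hab
        have := DFunLike.congr_fun hab b
        simp at this
    | some a =>
      cases b with
      | none =>
        simp only [φ, Option.elim_none, Option.elim_some] at hab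
        have := DFunLike.congr_fun hab a
        simp at this
      | some b =>
        simp only [φ, Option.elim_some] at hab
        rw [Finsupp.single_left_inj one_ne_zero] at hab
        rw [hab]
  have h2 := h1.comp φ hφ
  have h3 : (fun o : Option κ => o.elim 1 s) =
      ((MvPolynomial.aeval s : MvPolynomial κ F →ₐ[F] ℂ).toLinearMap ∘
        MvPolynomial.basisMonomials κ F) ∘ φ := by
    funext o
    cases o with
    | none => simp [φ]
    | some j => simp [φ, MvPolynomial.aeval_monomial]
  rw [h3]
  exact h2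

/-- A linear combination of algebraically independent numbers over `K`, with coefficients
in a smaller field, is in `K` only if it is zero. -/
private theorem li_comb (K : IntermediateField ℚ ℂ) (hK : Qbar ≤ K) {κ : Type} (s : κ → ℂ)
    (hs : AlgebraicIndependent K s) (d : κ →₀ Qbar) (c : ℂ) (hc : c ∈ K)
    (h : (d.sum fun j r => r • s j) = c) : d = 0 := by
  classical
  have h1 := linearIndependent_iff'.1 (li_one hs) (Finset.insertNone d.support)
    (fun o => o.elim (-⟨c, hc⟩) fun j => ⟨(d j : ℂ), hK (d j).2⟩) (by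
      rw [Finset.sum_insertNone]
      simp only [Option.elim_none, Option.elim_some]
      have e1 : (-(⟨c, hc⟩ : K)) • (1 : ℂ) = -c := by
        rw [IntermediateField.smul_def, smul_eq_mul, mul_one]
        rfl
      have e2 : ∑ j ∈ d.support, (⟨(d j : ℂ), hK (d j).2⟩ : K) • s j = c := by
        rw [← h]
        rfl
      rw [e1, e2, neg_add_cancel])
  ext j
  by_cases hj : j ∈ d.support
  · have h2 := h1 (some j) (by simpa using hj)
    simp only [Option.elim_some] at h2
    have h3 := congrArg Subtype.val h2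
    simpa using h3
  · rw [Finsupp.notMem_support_iff] at hj
    rw [hj]
    simp

theorem li_tower (K : IntermediateField ℚ ℂ) (hK : Qbar ≤ K) {ι κ : Type} (x : ι → ℂ)
    (hx : LinearIndependent Qbar x) (hm : ∀ i, x i ∈ K) (s : κ → ℂ)
    (hs : AlgebraicIndependent K s) : LinearIndependent Qbar (Sum.elim x s) := by
  refine hx.sum_type ?_ ?_
  · rw [linearIndependent_iff]
    intro d hd
    exact li_comb K hK s hs d 0 K.zero_mem hd
  · rw [Submodule.disjoint_def]
    intro u hu hu'
    have h1 : u ∈ K := by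
      refine Submodule.span_induction (p := fun u _ => u ∈ K) ?_ K.zero_mem
        (fun _ _ _ _ => K.add_mem) (fun a u _ hu => ?_) hu
      · rintro _ ⟨i, rfl⟩
        exact hm i
      · rw [IntermediateField.smul_def, smul_eq_mul]
        exact K.mul_mem (hK a.2) hu
    obtain ⟨d, hd⟩ := (Finsupp.mem_span_range_iff_exists_finsupp).1 hu'
    have h2 := li_comb K hK s hs d u h1 hd
    rw [← hd, h2, Finsupp.sum_zero_index]

/-- A rational linear combination of the `y i` is algebraic only if it is zero. -/
private theorem li_alg_comb {ι : Type} (y : ι → ℝ)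
    (hy : LinearIndependent Qbar (fun o : Option ι => o.elim 1 (fun i => (y i : ℂ))))
    (q : ι →₀ ℚ) (c : ℝ) (hc : IsAlgebraic ℚ c) (h : (q.sum fun i r => r • y i) = c) :
    q = 0 := by
  classical
  have hcC : ((c : ℝ) : ℂ) ∈ Qbar := by
    rw [mem_Qbar]
    exact (isAlgebraic_algebraMap_iff (algebraMap ℝ ℂ).injective).2 hc
  have h1 := linearIndependent_iff'.1 hy (Finset.insertNone q.support)
    (fun o => o.elim (-⟨(c : ℂ), hcC⟩) fun i => algebraMap ℚ Qbar (q i)) (by
      rw [Finset.sum_insertNone]
      simp only [Option.elim_none, Option.elim_some]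
      have e1 : (-(⟨(c : ℂ), hcC⟩ : Qbar)) • (1 : ℂ) = -c := by
        rw [IntermediateField.smul_def, smul_eq_mul, mul_one]
        rfl
      have e2 : ∑ i ∈ q.support, algebraMap ℚ Qbar (q i) • (y i : ℂ) = c := by
        rw [← h, Finsupp.sum]
        push_cast
        refine Finset.sum_congr rfl fun i _ => ?_
        rw [algebraMap_smul, Rat.smul_def]
      rw [e1, e2, neg_add_cancel])
  ext i
  by_cases hi : i ∈ q.support
  · have h2 := h1 (some i) (by simpa using hi)
    simp only [Option.elim_some] at h2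
    rw [Finsupp.zero_apply]
    exact (map_eq_zero _).1 h2
  · rw [Finsupp.notMem_support_iff] at hi
    rw [hi, Finsupp.zero_apply]

theorem li_alg {κ ι : Type} (β : κ → ℝ) (hβ : LinearIndependent ℚ β)
    (halg : ∀ k, IsAlgebraic ℚ (β k)) (y : ι → ℝ)
    (hy : LinearIndependent Qbar (fun o : Option ι => o.elim 1 (fun i => (y i : ℂ)))) :
    LinearIndependent ℚ (Sum.elim β y) := by
  refine hβ.sum_type ?_ ?_
  · rw [linearIndependent_iff]
    intro q hq
    exact li_alg_comb y hy q 0 isAlgebraic_zero hq
  · rw [Submodule.disjoint_def]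
    intro u hu hu'
    have h1 : u ∈ Qr := by
      have : Submodule.span ℚ (Set.range β) ≤ Qr := by
        rw [Submodule.span_le]
        rintro _ ⟨k, rfl⟩
        exact halg k
      exact this hu
    obtain ⟨q, hq⟩ := (Finsupp.mem_span_range_iff_exists_finsupp).1 hu'
    have h2 := li_alg_comb y hy q u h1 hq
    rw [← hq, h2, Finsupp.sum_zero_index]

/-- The real numbers whose exponential is in `Kc z`. -/
private noncomputable def LK {n : ℕ} (z : Fin n → ℝ) : Submodule ℚ ℝ where
  carrier := {y | exp ((y : ℝ) : ℂ) ∈ Kc z}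
  add_mem' := fun {a b} ha hb => by
    rw [Set.mem_ofPred_eq, ofReal_add, exp_add]
    exact (Kc z).mul_mem ha hb
  zero_mem' := by
    rw [Set.mem_ofPred_eq, ofReal_zero, exp_zero]
    exact (Kc z).one_mem
  smul_mem' := fun c x hx => by
    rw [Set.mem_ofPred_eq] at hx ⊢
    rw [Rat.smul_def, ofReal_mul, ofReal_ratCast]
    exact exp_rat_mem_Kc hx c

private theorem mem_LK {n : ℕ} {z : Fin n → ℝ} {y : ℝ} :
    y ∈ LK z ↔ exp ((y : ℝ) : ℂ) ∈ Kc z := Iff.rfl

private theorem Lr_alg {y : ℝ} (h : y ∈ Lr) : IsAlgebraic ℚ (exp ((y : ℝ) : ℂ)) := by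
  have h1 := (isAlgebraic_algebraMap_iff (A := ℂ) (algebraMap ℝ ℂ).injective).2 (mem_Lr.1 h)
  simpa only [coe_algebraMap, ofReal_exp] using h1

private theorem Lr_le_LK {n : ℕ} (z : Fin n → ℝ) : Lr ≤ LK z := fun _ h =>
  mem_LK.2 (Qbar_le_Kc z (mem_Qbar.2 (Lr_alg h)))

/-- The sum as a complex number. -/
private theorem ofReal_comb {κ : Type} (u : κ → ℝ) (c : κ →₀ ℚ) :
    (((c.sum fun k r => r • u k : ℝ)) : ℂ) = c.sum fun k r => (r : ℂ) * (u k : ℂ) := by
  rw [Finsupp.sum, Finsupp.sum, ofReal_sum]
  refine Finset.sum_congr rfl fun k _ => ?_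
  rw [Rat.smul_def, ofReal_mul, ofReal_ratCast]

/-- The middle part: `log e`, the `Y j` and the logarithms of algebraic numbers. -/
private theorem ran_comb {n : ℕ} {z : Fin n → ℝ} {ν χ : Type} {e p : ℝ} {v w : ν → ℝ}
    {X Y : χ → ℝ} (D : Dat z e p v w X Y) (d : (Unit ⊕ χ) →₀ ℚ) (c : ℝ) (hc : c ∈ Lr)
    (h : (d.sum fun j r => r • (Sum.elim (fun _ : Unit => Real.log e) Y) j) = c) : d = 0 := by
  classical
  have hd : (d.sum fun j r => r • (Sum.elim (fun _ : Unit => Real.log e) Y) j) =
      d (Sum.inl ()) • Real.log e + (Finsupp.comapDomain Sum.inr d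
        Sum.inr_injective.injOn).sum fun j r => r • Y j := by
    have h0 := Finsupp.linearCombination_apply ℚ (v := Sum.elim (fun _ : Unit => Real.log e) Y) d
    rw [← h0]
    have e1 : d = Finsupp.single (Sum.inl ()) (d (Sum.inl ())) +
        Finsupp.mapDomain Sum.inr (Finsupp.comapDomain Sum.inr d Sum.inr_injective.injOn) := by
      ext j
      rcases j with ⟨⟩ | j
      · rw [Finsupp.add_apply, Finsupp.single_eq_same, Finsupp.mapDomain_of_notMem_range, add_zero]
        rintro ⟨a, ha⟩
        cases ha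
      · rw [Finsupp.add_apply, Finsupp.single_eq_of_ne (by simp), zero_add,
          Finsupp.mapDomain_apply Sum.inr_injective, Finsupp.comapDomain_apply]
    conv_lhs => rw [e1]
    rw [map_add, Finsupp.linearCombination_single, Finsupp.linearCombination_mapDomain,
      Finsupp.linearCombination_apply]
    rfl
  have h1 : IsAlgebraic ℚ (exp ((d (Sum.inl ()) : ℂ) * (Real.log e : ℝ) +
      (Finsupp.comapDomain Sum.inr d Sum.inr_injective.injOn).sum
        fun j r => (r : ℂ) * ((Y j : ℝ) : ℂ))) := by
    have h2 := Lr_alg hc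
    rw [← h, hd, ofReal_add, ofReal_comb, Rat.smul_def, ofReal_mul, ofReal_ratCast] at h2
    exact h2
  obtain ⟨ha, hb⟩ := D.ran _ _ h1
  ext j
  rcases j with ⟨⟩ | j
  · exact ha
  · have := DFunLike.congr_fun hb j
    rw [Finsupp.comapDomain_apply] at this
    exact this

theorem li_ranf {n : ℕ} {z : Fin n → ℝ} {ν χ : Type} {e p : ℝ} {v w : ν → ℝ} {X Y : χ → ℝ}
    (D : Dat z e p v w X Y) {κ κ₁ : Type} (t : κ → ℝ) (ht : ∀ k, 0 < t k)
    (hai : AlgebraicIndependent (Kc z) (fun k => (t k : ℂ))) (σ : κ₁ → ℝ)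
    (hσ : LinearIndependent ℚ (Sum.elim w σ)) (hmem : ∀ l, σ l ∈ Lr) :
    LinearIndependent ℚ (Sum.elim (Sum.elim (fun _ : Unit => Real.log e)
      (fun k => Real.log (t k))) (Sum.elim (Sum.elim w Y) σ)) := by
  classical
  -- the logarithms of algebraic numbers
  have hC : ∀ u ∈ Submodule.span ℚ (Set.range (Sum.elim w σ)), u ∈ Lr := by
    intro u hu
    have : Submodule.span ℚ (Set.range (Sum.elim w σ)) ≤ Lr := by
      rw [Submodule.span_le]
      rintro _ ⟨i | l, rfl⟩
      · exact D.w_mem i
      · exact hmem l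
    exact this hu
  -- together with the middle part
  have hBC : LinearIndependent ℚ
      (Sum.elim (Sum.elim (fun _ : Unit => Real.log e) Y) (Sum.elim w σ)) := by
    refine LinearIndependent.sum_type ?_ hσ ?_
    · rw [linearIndependent_iff]
      intro d hd
      exact ran_comb D d 0 Lr.zero_mem hd
    · rw [Submodule.disjoint_def]
      intro u hu hu'
      obtain ⟨d, hd⟩ := (Finsupp.mem_span_range_iff_exists_finsupp).1 hu
      have h2 := ran_comb D d u (hC u hu') hd
      rw [← hd, h2, Finsupp.sum_zero_index]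
  have hLK : ∀ u ∈ Submodule.span ℚ (Set.range
      (Sum.elim (Sum.elim (fun _ : Unit => Real.log e) Y) (Sum.elim w σ))), u ∈ LK z := by
    intro u hu
    have : Submodule.span ℚ (Set.range
        (Sum.elim (Sum.elim (fun _ : Unit => Real.log e) Y) (Sum.elim w σ))) ≤ LK z := by
      rw [Submodule.span_le]
      rintro _ ⟨(⟨⟩ | j) | (i | l), rfl⟩
      · change exp ((Real.log e : ℝ) : ℂ) ∈ Kc z
        rw [← ofReal_exp, Real.exp_log D.epos]
        exact D.e_mem
      · exact D.Y_mem j
      · exact Lr_le_LK z (D.w_mem i)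
      · exact Lr_le_LK z (hmem l)
    exact this hu
  -- the part of the logarithms of the `t k`
  have hψ : AlgebraicIndependent (Kc z) (fun k => exp ((Real.log (t k) : ℝ) : ℂ)) := by
    have : (fun k => exp ((Real.log (t k) : ℝ) : ℂ)) = fun k => (t k : ℂ) := by
      funext k
      rw [← ofReal_exp, Real.exp_log (ht k)]
    rw [this]
    exact hai
  have hA : ∀ (c : κ →₀ ℚ) (u : ℝ), u ∈ LK z →
      (c.sum fun k r => r • Real.log (t k)) = u → c = 0 := by
    intro c u hu h
    by_contra hc
    have h1 := transcendental_monomial (fun k => ((Real.log (t k) : ℝ) : ℂ)) hψ c hc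
    rw [← ofReal_comb (fun k => Real.log (t k)) c, h] at h1
    exact h1 (isAlgebraic_algebraMap (⟨_, mem_LK.1 hu⟩ : Kc z))
  have hABC : LinearIndependent ℚ (Sum.elim (fun k => Real.log (t k))
      (Sum.elim (Sum.elim (fun _ : Unit => Real.log e) Y) (Sum.elim w σ))) := by
    refine LinearIndependent.sum_type ?_ hBC ?_
    · rw [linearIndependent_iff]
      intro d hd
      exact hA d 0 (LK z).zero_mem hd
    · rw [Submodule.disjoint_def]
      intro u hu hu'
      obtain ⟨d, hd⟩ := (Finsupp.mem_span_range_iff_exists_finsupp).1 hu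
      have h2 := hA d u (hLK u hu') hd
      rw [← hd, h2, Finsupp.sum_zero_index]
  let φ : (Unit ⊕ κ) ⊕ ((ν ⊕ χ) ⊕ κ₁) → κ ⊕ ((Unit ⊕ χ) ⊕ (ν ⊕ κ₁)) :=
    Sum.elim (Sum.elim (fun a => Sum.inr (Sum.inl (Sum.inl a))) Sum.inl)
      (Sum.elim (Sum.elim (fun i => Sum.inr (Sum.inr (Sum.inl i)))
        (fun j => Sum.inr (Sum.inl (Sum.inr j)))) (fun l => Sum.inr (Sum.inr (Sum.inr l))))
  have hφ : Function.Injective φ := by
    rintro ((a | a) | ((a | a) | a)) ((b | b) | ((b | b) | b)) hab <;>
      simp_all [φ]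
  have h := hABC.comp φ hφ
  convert h using 1
  funext o
  rcases o with (a | a) | ((a | a) | a) <;> rfl

theorem li_rang {n : ℕ} (z : Fin n → ℝ) {κ κ₁ : Type} (ς : κ → ℝ)
    (hai : AlgebraicIndependent (Kc z) (fun k => exp (ang (ς k) * I))) (σ : κ₁ → ℝ)
    (hσ : LinearIndependent ℚ (Sum.elim (fun _ : Unit => Real.pi) σ))
    (hmem : ∀ l, σ l ∈ Li) :
    LinearIndependent ℚ (Sum.elim (fun k => ang (ς k))
      (Sum.elim (fun _ : Unit => Real.pi) σ)) := by
  have hC : ∀ u ∈ Submodule.span ℚ (Set.range (Sum.elim (fun _ : Unit => Real.pi) σ)),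
      u ∈ Li := by
    intro u hu
    have : Submodule.span ℚ (Set.range (Sum.elim (fun _ : Unit => Real.pi) σ)) ≤ Li := by
      rw [Submodule.span_le]
      rintro _ ⟨⟨⟩ | l, rfl⟩
      · change IsAlgebraic ℚ (exp ((Real.pi : ℝ) * I))
        rw [exp_pi_mul_I]
        exact isAlgebraic_one.neg
      · exact hmem l
    exact this hu
  have hA : ∀ (c : κ →₀ ℚ) (u : ℝ), u ∈ Li →
      (c.sum fun k r => r • ang (ς k)) = u → c = 0 := by
    intro c u hu h
    by_contra hc
    have h1 := transcendental_monomial (fun k => (ang (ς k) : ℂ) * I) hai c hc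
    have h2 : (c.sum fun k r => (r : ℂ) * ((ang (ς k) : ℂ) * I)) = (u : ℂ) * I := by
      rw [← h, ofReal_comb, Finsupp.sum, Finsupp.sum, Finset.sum_mul]
      exact Finset.sum_congr rfl fun k _ => (mul_assoc _ _ _).symm
    rw [h2] at h1
    exact h1 (isAlgebraic_algebraMap (⟨_, Qbar_le_Kc z (mem_Qbar.2 (mem_Li.1 hu))⟩ : Kc z))
  refine LinearIndependent.sum_type ?_ hσ ?_
  · rw [linearIndependent_iff]
    intro d hd
    exact hA d 0 Li.zero_mem hd
  · rw [Submodule.disjoint_def]
    intro u hu hu'
    obtain ⟨d, hd⟩ := (Finsupp.mem_span_range_iff_exists_finsupp).1 hu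
    have h2 := hA d u (hC u hu') hd
    rw [← hd, h2, Finsupp.sum_zero_index]

end Pool.Agent.Pat5
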