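import Mathlib
import Pool.Agent.Pat5.EEx
import Pool.Agent.Pat5.Mono

/-!
# Pat5 P14: the theorem of Lindemann and Weierstrass for `EE f g`

`lw_EE`. Let `β` be a `ℚ`-basis of the algebraic real numbers (linearly independent, and every
algebraic real number is in the span), such that the numbers `exp (f (β k))` and
`exp (i g (β k))` are algebraically independent. Let `a 1, ..., a n` be algebraic and linearly
independent over `ℚ`. The real and imaginary parts of `a j` are algebraic
(`re = (a + conj a) / 2`), so `(a j).re = ∑ A j k * β k` and `(a j).im = ∑ B j k * β k` with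
finitely supported rational `A j`, `B j`. By `ℚ`-linearity of `f`, `g` and `EE_eq`
  `EE f g (a j) = exp (∑ A j k * f (β k) + ∑ B j k * (g (β k) * I))
    = exp (∑_{k : κ ⊕ κ} c j k * ψ k)`,
where `ψ = Sum.elim (f ∘ β) (g ∘ β * I)` and `c j : (κ ⊕ κ) →₀ ℚ` is the pair `(A j, B j)`
(`Finsupp.sumElim` or `Finsupp.sumFinsuppEquivProdFinsupp`). The `c j` are linearly independent
over `ℚ`: a relation between them gives the same relation between the real parts and the imaginary
parts of the `a j`, i.e. between the `a j`. Use `ai_monomials` with `F = ℚ`.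
-/

set_option autoImplicit false

namespace Pool.Agent.Pat5

open Complex

private theorem isAlgebraic_re {z : ℂ} (h : IsAlgebraic ℚ z) : IsAlgebraic ℚ z.re := by
  rw [← isAlgebraic_algebraMap_iff (algebraMap ℝ ℂ).injective]
  have h1 : IsAlgebraic ℚ (starRingEnd ℂ z) :=
    h.algHom (Complex.conjAe.toAlgHom.restrictScalars ℚ)
  have h2 : algebraMap ℝ ℂ z.re = (z + starRingEnd ℂ z) * algebraMap ℚ ℂ (1 / 2) := by
    rw [Complex.add_conj]
    simp only [coe_algebraMap, ofReal_mul, ofReal_ofNat, map_div₀, map_one, map_ofNat]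
    ring
  rw [h2]
  exact (h.add h1).mul (isAlgebraic_algebraMap _)

private theorem isAlgebraic_im {z : ℂ} (h : IsAlgebraic ℚ z) : IsAlgebraic ℚ z.im := by
  have hI : IsAlgebraic ℚ I := by
    refine IsAlgebraic.of_pow (n := 2) (by norm_num) ?_
    rw [I_sq]
    exact (isAlgebraic_one).neg
  have h1 := isAlgebraic_re ((h.mul hI).neg)
  simpa using h1

private theorem sum_cast {κ' : Type} (A : κ' →₀ ℚ) (v : κ' → ℝ) :
    ((A.sum fun k r => r • v k : ℝ) : ℂ) = A.sum fun k r => (r : ℂ) * (v k : ℂ) := by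
  simp only [Finsupp.sum, ofReal_sum]
  apply Finset.sum_congr rfl
  intro k _
  rw [Rat.smul_def, ofReal_mul, ofReal_ratCast]

theorem lw_EE (f g : ℝ ≃ₗ[ℚ] ℝ) {κ : Type} (β : κ → ℝ) (hβ : LinearIndependent ℚ β)
    (hspan : ∀ x : ℝ, IsAlgebraic ℚ x → x ∈ Submodule.span ℚ (Set.range β))
    (hai : AlgebraicIndependent ℚ (Sum.elim (fun k => exp ((f (β k) : ℝ) : ℂ))
      (fun k => exp ((g (β k) : ℝ) * I))))
    (n : ℕ) (a : Fin n → ℂ) (ha : ∀ i, IsAlgebraic ℚ (a i)) (hli : LinearIndependent ℚ a) :
    AlgebraicIndependent ℚ (fun i => EE f g (a i)) := by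
  have hA : ∀ j, ∃ A : κ →₀ ℚ, (A.sum fun k r => r • β k) = (a j).re := fun j =>
    Finsupp.mem_span_range_iff_exists_finsupp.1 (hspan _ (isAlgebraic_re (ha j)))
  have hB : ∀ j, ∃ B : κ →₀ ℚ, (B.sum fun k r => r • β k) = (a j).im := fun j =>
    Finsupp.mem_span_range_iff_exists_finsupp.1 (hspan _ (isAlgebraic_im (ha j)))
  choose A hA using hA
  choose B hB using hB
  set c : Fin n → (κ ⊕ κ) →₀ ℚ := fun j => Finsupp.sumElim (A j) (B j) with hc
  set ψ : κ ⊕ κ → ℂ := Sum.elim (fun k => ((f (β k) : ℝ) : ℂ)) (fun k => (g (β k) : ℝ) * I)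
    with hψ
  have hai' : AlgebraicIndependent ℚ (fun k => exp (ψ k)) := by
    convert hai using 1
    funext k
    rcases k with k | k <;> simp [hψ]
  have hsum : ∀ j (φ : κ ⊕ κ → ℂ), ((c j).sum fun k r => (r : ℂ) * φ k) =
      ((A j).sum fun k r => (r : ℂ) * φ (Sum.inl k)) +
        (B j).sum fun k r => (r : ℂ) * φ (Sum.inr k) := by
    intro j φ
    rw [hc]
    simp only
    rw [Finsupp.sum_sumElim]
    rfl
  have hlic : LinearIndependent ℚ c := by
    apply LinearIndependent.of_comp (Finsupp.linearCombination ℚ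
      (Sum.elim (fun k => ((β k : ℝ) : ℂ)) (fun k => (β k : ℝ) * I)))
    convert hli using 1
    funext j
    rw [Function.comp_apply, Finsupp.linearCombination_apply]
    have h1 : ∀ (r : ℚ) (z : ℂ), r • z = (r : ℂ) * z := fun r z => by
      rw [Algebra.smul_def]; rfl
    simp only [h1]
    rw [hsum]
    simp only [Sum.elim_inl, Sum.elim_inr, ← mul_assoc]
    rw [← sum_cast, hA, ← Finsupp.sum_mul, ← sum_cast, hB, re_add_im]
  have hfin := ai_monomials ψ hai' c hlic
  have hfun : (fun i => EE f g (a i)) = fun j => exp ((c j).sum fun k r => (r : ℂ) * ψ k) := by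
    funext j
    rw [EE_eq]
    congr 1
    rw [hsum]
    simp only [hψ, Sum.elim_inl, Sum.elim_inr, ← mul_assoc]
    have h1 : f (a j).re = (A j).sum fun k r => r • f (β k) := by
      rw [← hA j, map_finsuppSum]
      simp only [map_smul]
    have h2 : g (a j).im = (B j).sum fun k r => r • g (β k) := by
      rw [← hB j, map_finsuppSum]
      simp only [map_smul]
    rw [h1, h2, sum_cast, sum_cast, Finsupp.sum_mul]
  rw [hfun]
  exact hfin

end Pool.Agent.Pat5
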