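import Mathlib
import Pool.Agent.Pat5.Defs

/-!
# Pat5 P1: extension of a countable family to a `ℚ`-linear bijection of the real line

Proof of `exists_equiv`. Extend the linearly independent set `Set.range x` to a `ℚ`-basis `Bx` of
`ℝ` (`LinearIndependent.extend` on the subtype family, `Module.Basis.extend`), and `Set.range y`
to `By`. Both bases have the cardinality of the continuum (`Real.rank_rat_real`,
`Module.Basis.mk_eq_rank`), and `Set.range x`, `Set.range y` are countable, so the complements
`Bx \ range x` and `By \ range y` have the cardinality of the continuum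
(`Cardinal.mk_compl_of_infinite` or `Cardinal.mk_diff_add_mk`, as continuum = countable + c) and
there is a bijection between them. Together with `ι ≃ range x`, `ι ≃ range y` (the families are
injective) this gives a bijection of `Bx` with `By` which sends `x i` to `y i`;
`Module.Basis.equiv` gives the linear bijection. An alternative which may be shorter: make the
bases indexed by `ι ⊕ (Bx \ range x)` with `Module.Basis.mk`.
-/

set_option autoImplicit false

namespace Pool.Agent.Pat5

open Cardinal in
private theorem exists_basis {ι : Type} [Countable ι] (x : ι → ℝ) (hx : LinearIndependent ℚ x) :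
    ∃ b : Module.Basis (ι ⊕ ℝ) ℚ ℝ, ∀ i, b (Sum.inl i) = x i := by
  have hx' : LinearIndepOn ℚ id (Set.range x) := hx.linearIndepOn_id
  set B : Set ℝ := hx'.extend (Set.subset_univ _) with hB
  let bs : Module.Basis B ℚ ℝ := Module.Basis.extend hx'
  have hsub : Set.range x ⊆ B := hx'.subset_extend _
  have hcard : #B = 𝔠 := by
    rw [bs.mk_eq_rank'', Real.rank_rat_real]
  have hdiff : #(B \ Set.range x : Set ℝ) = 𝔠 := by
    have h1 := Cardinal.mk_sdiff_add_mk hsub
    have h2 : #(Set.range x) ≤ ℵ₀ := (Set.countable_range x).le_aleph0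
    rw [hcard] at h1
    by_contra hne
    have h3 : #(B \ Set.range x : Set ℝ) < 𝔠 :=
      lt_of_le_of_ne (h1 ▸ self_le_add_right _ _) hne
    exact absurd h1 (Cardinal.add_lt_of_lt aleph0_le_continuum h3
      (h2.trans_lt aleph0_lt_continuum)).ne
  have he : Nonempty (ℝ ≃ (B \ Set.range x : Set ℝ)) := by
    rw [← Cardinal.eq, hdiff, Cardinal.mk_real]
  obtain ⟨e⟩ := he
  classical
  let g : ι ⊕ ℝ ≃ B := (Equiv.sumCongr (Equiv.ofInjective x hx.injective) e).trans
    (Equiv.Set.sumDiffSubset hsub)
  refine ⟨bs.reindex g.symm, fun i => ?_⟩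
  rw [Module.Basis.reindex_apply, Equiv.symm_symm]
  exact Module.Basis.extend_apply_self hx' _

/-- For two countable families of real numbers which are linearly independent over `ℚ`, some
`ℚ`-linear bijection of the real line maps the first family to the second. -/
theorem exists_equiv {ι : Type} [Countable ι] (x y : ι → ℝ) (hx : LinearIndependent ℚ x)
    (hy : LinearIndependent ℚ y) : ∃ f : ℝ ≃ₗ[ℚ] ℝ, ∀ i, f (x i) = y i := by
  obtain ⟨bx, hbx⟩ := exists_basis x hx
  obtain ⟨bY, hby⟩ := exists_basis y hy
  refine ⟨bx.equiv bY (Equiv.refl _), fun i => ?_⟩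
  rw [← hbx i, Module.Basis.equiv_apply, Equiv.refl_apply, hby i]

end Pool.Agent.Pat5
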