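import Mathlib
import Pool.Agent.Pat5.Kc

/-!
# Pat5 P4: many algebraically independent real numbers

Proofs. Algebraic independence of real numbers and of their images in `ℂ` are equivalent
(`AlgHom.algebraicIndependent_iff` for `Complex.ofRealAm.restrictScalars ℚ` or
`AlgebraicIndependent.map'`).

`exists_ai_near`: a transcendence basis `B` of `ℝ` over `ℚ` is infinite, even uncountable: `ℝ` is
algebraic over the field generated by `B` and would be countable
(`Algebraic.countable`/`Cardinal.mk` bounds, `Algebra.IsAlgebraic.cardinalMk_le_max`, or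
`Real.trdeg`-type lemmas if present; see `IsTranscendenceBasis.lift_cardinalMk_eq_max_lift`).
Take distinct `b 0, ..., b (n-1)` in `B`; they are not `0`, so there are rational numbers
`q i ≠ 0` with `|q i * b i - t i| < ε` (a rational number in the open interval between
`(t i - ε) / b i` and `(t i + ε) / b i`; take `q i ≠ 0` by density again). The numbers
`z i = q i * b i` are algebraically independent: `AlgebraicIndependent.of_aeval`-type argument,
or: the polynomial substitution `X i ↦ C (q i) * X i` is injective on `MvPolynomial (Fin n) ℚ`.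

`exists_generic`: `z` (as a set of real numbers, `z` is injective) is contained in a transcendence
basis `B` of `ℝ` over `ℚ` (`exists_isTranscendenceBasis_superset`); `B` is uncountable, so
`B \ range z` contains the injective image of the countable type `κ`, say `k ↦ b k`. Put
`s k = |b k|`; `s k = ± b k` is positive and changing signs preserves algebraic independence of
the whole family `Sum.elim z s`. Finish with `ai_Kc`.
-/

set_option autoImplicit false

namespace Pool.Agent.Pat5

private theorem Supply_ext {n : ℕ} (z : Fin n → ℝ) (hz : AlgebraicIndependent ℚ z) (κ : Type)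
    [Countable κ] : ∃ b : κ → ℝ, AlgebraicIndependent ℚ (Sum.elim z b) := by
  obtain ⟨t, ht1, ht2⟩ := exists_isTranscendenceBasis_superset (s := Set.range z) hz.coe_range
  have hunc : ¬ t.Countable := by
    intro htc
    have h1 : Algebra.IsAlgebraic (Algebra.adjoin ℚ (Set.range ((↑) : t → ℝ))) ℝ :=
      ht2.isAlgebraic
    have h2 := Algebra.IsAlgebraic.cardinalMk_le_max
      (Algebra.adjoin ℚ (Set.range ((↑) : t → ℝ))) ℝ
    have h3 : Cardinal.mk (Algebra.adjoin ℚ (Set.range ((↑) : t → ℝ))) =
        Cardinal.mk (MvPolynomial t ℚ) := (Cardinal.mk_congr ht2.1.aevalEquiv.toEquiv).symm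
    have h4 : Cardinal.mk (MvPolynomial t ℚ) ≤ Cardinal.aleph0 := by
      refine MvPolynomial.cardinalMk_le_max.trans ?_
      have h5 : Cardinal.mk t ≤ Cardinal.aleph0 := Cardinal.mk_le_aleph0_iff.2 htc.to_subtype
      have h6 : Cardinal.mk ℚ ≤ Cardinal.aleph0 := Cardinal.mk_le_aleph0
      exact sup_le (sup_le h6 h5) le_rfl
    rw [h3] at h2
    have h7 : Cardinal.mk ℝ ≤ Cardinal.aleph0 := h2.trans (max_le h4 le_rfl)
    rw [Cardinal.mk_real] at h7
    exact absurd h7 (not_le.2 Cardinal.aleph0_lt_continuum)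
  have hinf : (t \ Set.range z).Infinite := by
    intro hfin
    apply hunc
    have h1 : t ⊆ (t \ Set.range z) ∪ Set.range z := fun x hx => by
      by_cases h : x ∈ Set.range z
      · exact Or.inr h
      · exact Or.inl ⟨hx, h⟩
    exact ((hfin.union (Set.finite_range z)).countable).mono h1
  obtain ⟨f, hf⟩ := exists_injective_nat κ
  let g : Fin n ⊕ κ → t := Sum.elim (fun i => ⟨z i, ht1 ⟨i, rfl⟩⟩)
    (fun k => ⟨(hinf.natEmbedding _ (f k)).1, (hinf.natEmbedding _ (f k)).2.1⟩)
  have hg : Function.Injective g := by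
    rintro (i | k) (j | l) h
    · exact congrArg Sum.inl (hz.injective (congrArg Subtype.val h))
    · exact absurd ⟨i, congrArg Subtype.val h⟩ (hinf.natEmbedding _ (f l)).2.2
    · exact absurd ⟨j, (congrArg Subtype.val h).symm⟩ (hinf.natEmbedding _ (f k)).2.2
    · have h1 : ((hinf.natEmbedding _ (f k)).1 : ℝ) = (hinf.natEmbedding _ (f l)).1 :=
        congrArg (fun y : t => (y : ℝ)) h
      exact congrArg Sum.inr (hf ((hinf.natEmbedding _).injective (Subtype.ext h1)))
  refine ⟨fun k => (hinf.natEmbedding _ (f k)).1, ?_⟩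
  have h := ht2.1.comp g hg
  have h' : ((↑) : t → ℝ) ∘ g = Sum.elim z fun k => (hinf.natEmbedding _ (f k)).1 := by
    funext j
    rcases j with i | k
    · rfl
    · rfl
  rwa [h'] at h

private theorem Supply_scale {κ : Type} {x : κ → ℝ} (hx : AlgebraicIndependent ℚ x) (q : κ → ℚ)
    (hq : ∀ k, q k ≠ 0) : AlgebraicIndependent ℚ (fun k => (q k : ℝ) * x k) := by
  have h := hx.polynomial_aeval_of_transcendental
    (f := fun k => Polynomial.C (q k) * Polynomial.X) (fun k => by
      refine Polynomial.transcendental _ ?_ ?_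
      · rw [Polynomial.natDegree_C_mul_X _ (hq k)]
        exact one_ne_zero
      · rw [Polynomial.leadingCoeff_C_mul_X]
        exact mem_nonZeroDivisors_of_ne_zero (hq k))
  have h' : (fun k => Polynomial.aeval (x k) (Polynomial.C (q k) * Polynomial.X)) =
      fun k => (q k : ℝ) * x k := by
    funext k
    simp
  rwa [h'] at h

private theorem Supply_complex {κ : Type} {x : κ → ℝ} :
    AlgebraicIndependent ℚ (fun k => (x k : ℂ)) ↔ AlgebraicIndependent ℚ x :=
  AlgHom.algebraicIndependent_iff (Complex.ofRealAm.restrictScalars ℚ) Complex.ofReal_injective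

private theorem Supply_rat (b t ε : ℝ) (hb : b ≠ 0) (hε : 0 < ε) :
    ∃ q : ℚ, q ≠ 0 ∧ |(q : ℝ) * b - t| < ε := by
  have hb' : 0 < |b| := abs_pos.2 hb
  have key : ∃ q : ℚ, q ≠ 0 ∧ t / b - ε / |b| < q ∧ (q : ℝ) < t / b + ε / |b| := by
    have h1 : 0 < ε / |b| := div_pos hε hb'
    by_cases h : 0 < t / b + ε / |b|
    · obtain ⟨q, hq1, hq2⟩ := exists_rat_btwn
        (show max (t / b - ε / |b|) 0 < t / b + ε / |b| from max_lt (by linarith) h)
      refine ⟨q, ?_, (le_max_left _ _).trans_lt hq1, hq2⟩
      have h2 : (0 : ℝ) < q := (le_max_right _ _).trans_lt hq1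
      rintro rfl
      simp at h2
    · obtain ⟨q, hq1, hq2⟩ := exists_rat_btwn
        (show t / b - ε / |b| < t / b + ε / |b| by linarith)
      refine ⟨q, ?_, hq1, hq2⟩
      rintro rfl
      apply h
      simpa using hq2
  obtain ⟨q, hq0, hq1, hq2⟩ := key
  refine ⟨q, hq0, ?_⟩
  have h3 : (q : ℝ) * b - t = b * (q - t / b) := by field_simp
  rw [h3, abs_mul]
  have h4 : |(q : ℝ) - t / b| < ε / |b| := abs_lt.2 ⟨by linarith, by linarith⟩
  calc |b| * |(q : ℝ) - t / b| < |b| * (ε / |b|) := mul_lt_mul_of_pos_left h4 hb'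
    _ = ε := by field_simp

/-- Algebraically independent real numbers near given ones. -/
theorem exists_ai_near {n : ℕ} (t : Fin n → ℝ) (ε : ℝ) (hε : 0 < ε) :
    ∃ z : Fin n → ℝ, AlgebraicIndependent ℚ (fun i => (z i : ℂ)) ∧ ∀ i, |z i - t i| < ε := by
  obtain ⟨b, hb⟩ := Supply_ext (Fin.elim0 : Fin 0 → ℝ)
    (algebraicIndependent_empty_type_iff.2 (algebraMap ℚ ℝ).injective) (Fin n)
  have hb' : AlgebraicIndependent ℚ b := hb.comp Sum.inr Sum.inr_injective
  choose q hq0 hq using fun i => Supply_rat (b i) (t i) ε (hb'.ne_zero i) hε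
  exact ⟨fun i => (q i : ℝ) * b i, Supply_complex.2 (Supply_scale hb' q hq0), hq⟩

/-- Countably many positive real numbers which are algebraically independent over `Kc z`. -/
theorem exists_generic {n : ℕ} (z : Fin n → ℝ)
    (hz : AlgebraicIndependent ℚ (fun i => (z i : ℂ))) (κ : Type) [Countable κ] :
    ∃ s : κ → ℝ, (∀ k, 0 < s k) ∧ AlgebraicIndependent (Kc z) (fun k => (s k : ℂ)) := by
  obtain ⟨b, hb⟩ := Supply_ext z (Supply_complex.1 hz) κ
  have hb0 : ∀ k, b k ≠ 0 := fun k => hb.ne_zero (Sum.inr k)
  refine ⟨fun k => |b k|, fun k => abs_pos.2 (hb0 k), ai_Kc _ ?_⟩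
  have h := Supply_complex.2 (Supply_scale hb
    (Sum.elim (fun _ => 1) fun k => if 0 ≤ b k then 1 else -1) (by
      rintro (i | k)
      · exact one_ne_zero
      · simp only [Sum.elim_inr]
        split_ifs
        · exact one_ne_zero
        · exact neg_ne_zero.2 one_ne_zero))
  refine (algebraicIndependent_equiv' (Equiv.refl _) ?_).2 h
  funext j
  rcases j with i | k
  · simp
  · simp only [Function.comp_apply, Equiv.refl_apply, Sum.elim_inr]
    split_ifs with hk
    · simp [abs_of_nonneg hk]
    · simp [abs_of_neg (not_le.1 hk)]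

end Pool.Agent.Pat5
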