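import Mathlib
import Pool.Agent.Pat5.LinExt
import Pool.Agent.Pat5.Bases
import Pool.Agent.Pat5.Supply
import Pool.Agent.Pat5.Indep
import Pool.Agent.Pat5.LWe

/-!
# Pat5 P16: the construction of `f` and `g`

Proof of `master`. By `exists_ext` for `Qr` and the family `1` (indexed by `Unit`) there are a
countable type `κ` and `β : κ → ℝ` such that `(1, β)` is a `ℚ`-basis of `Qr`. By `exists_ext` for
`Lr` and `w` there is `σ : κ₁ → ℝ` such that `(w, σ)` is a basis of `Lr`, and for `Li` and `π`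
(`exp (π I) = -1`) there is `σ' : κ₂ → ℝ` such that `(π, σ')` is a basis of `Li`. The types `κ`, `κ₁`,
`κ₂` are countable. `exists_generic` for the type `(κ ⊕ (Unit ⊕ κ)) ⊕ (κ₁ ⊕ κ₂)` gives positive
numbers `t : κ → ℝ`, `ς : Unit ⊕ κ → ℝ`, `s : κ₁ → ℝ`, `s' : κ₂ → ℝ`, all together algebraically
independent over `Kc z`.

Apply `exists_equiv` to the families, indexed by `(Unit ⊕ κ) ⊕ ((ν ⊕ χ) ⊕ κ₁)`,
  `((1, β), ((v, X), s))` and `((log e, log t), ((w, Y), σ))`.
The first one is linearly independent over `ℚ` by `li_alg` for `(1, β)` and `((v, X), s)`: that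
`1, v, X, s` are linearly independent over `Qbar` is `li_tower` for `D.dom` and `s` (reindex
`Option (ν ⊕ χ) ⊕ κ₁ ≃ Option ((ν ⊕ χ) ⊕ κ₁)`); the second one by `li_ranf`. This gives `f`.

Apply `exists_equiv` to the families, indexed by `(Unit ⊕ κ) ⊕ (Unit ⊕ κ₂)`,
  `((1, β), (p, s'))` and `(ang ς, (π, σ'))`,
by `li_alg`, `li_tower` (for `1, p`, which are linearly independent over `Qbar` by `D.log`) and
`li_rang` (with `ai_circle`). This gives `g`.

The theorem of Lindemann and Weierstrass: `lw_EE` for the family `(1, β)`, `Unit ⊕ κ → ℝ`. The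
numbers `exp (f β)` are `e` and `t k` and the numbers `exp (g β I)` are `exp (ang ς I)`. `e` is
transcendental (`D.ran` with `a = 1`, `b = 0`: otherwise `1 = 0`) and is in `Kc z`; the numbers
`(t, exp (ang ς I))` are algebraically independent over `Kc z` by `ai_circle`
(`I ∈ Kc z`), so `ai_sum` gives that `(e, (t, exp (ang ς I)))` is algebraically independent
over `ℚ`; reindex.

The description of `{x | f x ∈ Lr}`: `f` maps `v, s` to `w, σ`, so it maps the rational span of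
`(v, s)` onto the span of `(w, σ)`, which is `Lr`, and `f` is injective
(`Submodule.map_span`, `Submodule.mem_map_equiv`). The same for `g`, `(p, s')`, `(π, σ')`, `Li`.
-/

set_option autoImplicit false

namespace Pool.Agent.Pat5

open Complex

/-- `1`, numbers `x`, and algebraically independent numbers `s` over `K`. -/
private theorem master_tower (K : IntermediateField ℚ ℂ) (hK : Qbar ≤ K) {ι κ : Type} (x : ι → ℝ)
    (hx : LinearIndependent Qbar (fun o : Option ι => o.elim 1 fun i => (x i : ℂ)))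
    (hm : ∀ i, (x i : ℂ) ∈ K) (s : κ → ℝ) (hs : AlgebraicIndependent K fun k => (s k : ℂ)) :
    LinearIndependent Qbar
      (fun o : Option (ι ⊕ κ) => o.elim 1 fun i => ((Sum.elim x s i : ℝ) : ℂ)) := by
  have h := li_tower K hK _ hx (by
    rintro (_ | i)
    · exact K.one_mem
    · exact hm i) _ hs
  let φ : Option (ι ⊕ κ) → Option ι ⊕ κ := fun o =>
    o.elim (Sum.inl none) (Sum.elim (fun i => Sum.inl (some i)) Sum.inr)
  have hφ : Function.Injective φ := by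
    rintro (_ | i | i) (_ | j | j) hij <;> simp_all [φ]
  have h2 := h.comp φ hφ
  refine cast ?_ h2
  congr 1
  funext o
  rcases o with _ | i | i <;> rfl

private theorem master_span (f : ℝ ≃ₗ[ℚ] ℝ) {ι : Type} (x y : ι → ℝ) (h : ∀ i, f (x i) = y i)
    (W : Submodule ℚ ℝ) (hW : Submodule.span ℚ (Set.range y) = W) (r : ℝ) :
    f r ∈ W ↔ r ∈ Submodule.span ℚ (Set.range x) := by
  have h1 : Submodule.map (f : ℝ →ₗ[ℚ] ℝ) (Submodule.span ℚ (Set.range x)) = W := by
    rw [Submodule.map_span, ← hW, ← Set.range_comp]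
    congr 2
    funext i
    exact h i
  rw [← h1]
  constructor
  · rintro ⟨y, hy, hyr⟩
    rw [← f.injective hyr]
    exact hy
  · exact fun hr => ⟨r, hr, rfl⟩

private theorem master_transc {n : ℕ} {z : Fin n → ℝ} {ν χ : Type} {e p : ℝ}
    {v w : ν → ℝ} {X Y : χ → ℝ} (D : Dat z e p v w X Y) : Transcendental ℚ (e : ℂ) := by
  intro h
  have h1 := (D.ran 1 0 (by
    rw [Finsupp.sum_zero_index, add_zero, Rat.cast_one, one_mul, ← ofReal_exp,
      Real.exp_log D.epos]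
    exact h)).1
  exact one_ne_zero h1

theorem master {n : ℕ} {z : Fin n → ℝ} {ν χ : Type} [Finite ν] [Finite χ] {e p : ℝ}
    {v w : ν → ℝ} {X Y : χ → ℝ} (D : Dat z e p v w X Y) :
    ∃ (f g : ℝ ≃ₗ[ℚ] ℝ) (κ₁ κ₂ : Type) (s : κ₁ → ℝ) (s' : κ₂ → ℝ),
      f 1 = Real.log e ∧ g p = Real.pi ∧ (∀ i, f (v i) = w i) ∧ (∀ j, f (X j) = Y j) ∧
      (∀ (m : ℕ) (a : Fin m → ℂ), (∀ i, IsAlgebraic ℚ (a i)) → LinearIndependent ℚ a →
        AlgebraicIndependent ℚ (fun i => EE f g (a i))) ∧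
      (∀ x, f x ∈ Lr ↔ x ∈ Submodule.span ℚ (Set.range (Sum.elim v s))) ∧
      (∀ y, g y ∈ Li ↔ y ∈ Submodule.span ℚ
        (Set.range (Sum.elim (fun _ : Unit => p) s'))) ∧
      AlgebraicIndependent (Kc z) (Sum.elim (fun k => (s k : ℂ)) (fun k => (s' k : ℂ))) := by
  obtain ⟨κ, hκ, β, hβ, hβs⟩ := exists_ext Qr Qr_countable (fun _ : Unit => (1 : ℝ))
    (LinearIndependent.of_subsingleton () one_ne_zero) (fun _ => isAlgebraic_one)
  obtain ⟨κ₁, hκ₁, σ, hσ, hσs⟩ := exists_ext Lr Lr_countable w D.w_li D.w_mem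
  obtain ⟨κ₂, hκ₂, σ', hσ', hσs'⟩ := exists_ext Li Li_countable (fun _ : Unit => Real.pi)
    (LinearIndependent.of_subsingleton () Real.pi_ne_zero) (fun _ => by
      rw [mem_Li, exp_pi_mul_I]
      exact isAlgebraic_one.neg)
  obtain ⟨S, hS, hSai⟩ := exists_generic z D.ai ((κ ⊕ (Unit ⊕ κ)) ⊕ (κ₁ ⊕ κ₂))
  have halg : ∀ k, IsAlgebraic ℚ (Sum.elim (fun _ : Unit => (1 : ℝ)) β k) := fun k => by
    rw [← mem_Qr, ← hβs]
    exact Submodule.subset_span ⟨k, rfl⟩
  have hσm : ∀ l, σ l ∈ Lr := fun l => by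
    rw [← hσs]
    exact Submodule.subset_span ⟨Sum.inr l, rfl⟩
  have hσm' : ∀ l, σ' l ∈ Li := fun l => by
    rw [← hσs']
    exact Submodule.subset_span ⟨Sum.inr l, rfl⟩
  have hI : IsAlgebraic (Kc z) I := isAlgebraic_algebraMap (⟨I, I_mem_Kc z⟩ : Kc z)
  -- the parts of the generic family
  set t : κ → ℝ := fun k => S (Sum.inl (Sum.inl k)) with ht
  set ς : Unit ⊕ κ → ℝ := fun k => S (Sum.inl (Sum.inr k)) with hς
  set s : κ₁ → ℝ := fun k => S (Sum.inr (Sum.inl k)) with hs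
  set s' : κ₂ → ℝ := fun k => S (Sum.inr (Sum.inr k)) with hs'
  have htpos : ∀ k, 0 < t k := fun k => hS _
  have ai_t : AlgebraicIndependent (Kc z) fun k => (t k : ℂ) :=
    hSai.comp (fun k : κ => (Sum.inl (Sum.inl k) : (κ ⊕ (Unit ⊕ κ)) ⊕ (κ₁ ⊕ κ₂)))
      (Sum.inl_injective.comp Sum.inl_injective)
  have ai_s : AlgebraicIndependent (Kc z) fun k => (s k : ℂ) :=
    hSai.comp (fun k : κ₁ => (Sum.inr (Sum.inl k) : (κ ⊕ (Unit ⊕ κ)) ⊕ (κ₁ ⊕ κ₂)))
      (Sum.inr_injective.comp Sum.inl_injective)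
  have ai_s' : AlgebraicIndependent (Kc z) fun k => (s' k : ℂ) :=
    hSai.comp (fun k : κ₂ => (Sum.inr (Sum.inr k) : (κ ⊕ (Unit ⊕ κ)) ⊕ (κ₁ ⊕ κ₂)))
      (Sum.inr_injective.comp Sum.inr_injective)
  have ai_ts : AlgebraicIndependent (Kc z)
      (Sum.elim (fun k => (t k : ℂ)) (fun k => (ς k : ℂ))) := by
    have h1 := hSai.comp (Sum.inl : κ ⊕ (Unit ⊕ κ) → (κ ⊕ (Unit ⊕ κ)) ⊕ (κ₁ ⊕ κ₂))
      Sum.inl_injective
    have h2 : (Sum.elim (fun k => (t k : ℂ)) (fun k => (ς k : ℂ))) =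
        (fun k => (S k : ℂ)) ∘ (Sum.inl : κ ⊕ (Unit ⊕ κ) → (κ ⊕ (Unit ⊕ κ)) ⊕ (κ₁ ⊕ κ₂)) := by
      funext k
      rcases k with k | k <;> rfl
    rw [h2]
    exact h1
  have ai_ss : AlgebraicIndependent (Kc z)
      (Sum.elim (fun k => (s k : ℂ)) (fun k => (s' k : ℂ))) := by
    have h1 := hSai.comp (Sum.inr : κ₁ ⊕ κ₂ → (κ ⊕ (Unit ⊕ κ)) ⊕ (κ₁ ⊕ κ₂)) Sum.inr_injective
    have h2 : (Sum.elim (fun k => (s k : ℂ)) (fun k => (s' k : ℂ))) =
        (fun k => (S k : ℂ)) ∘ (Sum.inr : κ₁ ⊕ κ₂ → (κ ⊕ (Unit ⊕ κ)) ⊕ (κ₁ ⊕ κ₂)) := by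
      funext k
      rcases k with k | k <;> rfl
    rw [h2]
    exact h1
  have ai_c := ai_circle hI t ς htpos ai_ts
  have ai_ang : AlgebraicIndependent (Kc z) fun k => exp (ang (ς k) * I) :=
    ai_c.comp (Sum.inr : Unit ⊕ κ → κ ⊕ (Unit ⊕ κ)) Sum.inr_injective
  -- the function `f`
  have hx : LinearIndependent ℚ (Sum.elim (Sum.elim (fun _ : Unit => (1 : ℝ)) β)
      (Sum.elim (Sum.elim v X) s)) := by
    refine li_alg _ hβ halg _ (master_tower (Kc z) (Qbar_le_Kc z) _ ?_ ?_ s ai_s)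
    · have h1 := D.dom
      have h2 : (fun o : Option (ν ⊕ χ) => o.elim (1 : ℂ) fun i =>
          ((Sum.elim v X i : ℝ) : ℂ)) = fun o : Option (ν ⊕ χ) =>
            o.elim 1 (Sum.elim (fun i => (v i : ℂ)) (fun j => (X j : ℂ))) := by
        funext o
        rcases o with _ | i | i <;> rfl
      rw [h2]
      exact h1
    · rintro (i | i)
      · exact D.v_mem i
      · exact D.X_mem i
  obtain ⟨f, hf⟩ := exists_equiv _ _ hx (li_ranf D t htpos ai_t σ hσ hσm)
  -- the function `g`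
  have hx' : LinearIndependent ℚ (Sum.elim (Sum.elim (fun _ : Unit => (1 : ℝ)) β)
      (Sum.elim (fun _ : Unit => p) s')) := by
    refine li_alg _ hβ halg _ (master_tower (Kc z) (Qbar_le_Kc z) _ ?_ ?_ s' ai_s')
    · have h1 := D.log.comp (Option.map (Sum.inl : Unit → Unit ⊕ ν))
        (Option.map_injective Sum.inl_injective)
      have h2 : (fun o : Option Unit => o.elim (1 : ℂ) fun _ => ((p : ℝ) : ℂ)) =
          (fun o : Option (Unit ⊕ ν) =>
            o.elim 1 (Sum.elim (fun _ => (p : ℂ)) (fun i => (v i : ℂ)))) ∘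
              (Option.map (Sum.inl : Unit → Unit ⊕ ν)) := by
        funext o
        rcases o with _ | i <;> rfl
      rw [h2]
      exact h1
    · exact fun _ => D.p_mem
  obtain ⟨g, hg⟩ := exists_equiv _ _ hx' (li_rang z ς ai_ang σ' hσ' hσm')
  refine ⟨f, g, κ₁, κ₂, s, s', hf (Sum.inl (Sum.inl ())), hg (Sum.inr (Sum.inl ())),
    fun i => hf (Sum.inr (Sum.inl (Sum.inl i))), fun j => hf (Sum.inr (Sum.inl (Sum.inr j))),
    ?_, ?_, ?_, ai_ss⟩
  · intro m a ha hli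
    refine lw_EE f g _ hβ (fun x hx => by rw [hβs]; exact hx) ?_ m a ha hli
    have h1 : AlgebraicIndependent ℚ fun _ : Unit => (e : ℂ) :=
      algebraicIndependent_unique_type_iff.2 (master_transc D)
    have h2 := ai_sum (Kc z) h1 (fun _ => D.e_mem) ai_c
    have h3 := h2.comp (Equiv.sumAssoc Unit κ (Unit ⊕ κ)) (Equiv.injective _)
    refine cast ?_ h3
    congr 1
    funext k
    rcases k with (k | k) | k
    · have h4 : f 1 = Real.log e := hf (Sum.inl (Sum.inl ()))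
      change (e : ℂ) = exp ((f 1 : ℝ) : ℂ)
      rw [h4, ← ofReal_exp, Real.exp_log D.epos]
    · have h4 : f (β k) = Real.log (t k) := hf (Sum.inl (Sum.inr k))
      change exp ((Real.log (t k) : ℝ) : ℂ) = exp ((f (β k) : ℝ) : ℂ)
      rw [h4]
    · have h4 : g (Sum.elim (fun _ : Unit => (1 : ℝ)) β k) = ang (ς k) := hg (Sum.inl k)
      change exp (ang (ς k) * I) = exp ((g (Sum.elim (fun _ : Unit => (1 : ℝ)) β k) : ℝ) * I)
      rw [h4]
  · refine master_span f _ _ ?_ Lr hσs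
    rintro (i | k)
    · exact hf (Sum.inr (Sum.inl (Sum.inl i)))
    · exact hf (Sum.inr (Sum.inr k))
  · refine master_span g _ _ ?_ Li hσs'
    rintro (i | k)
    · exact hg (Sum.inr (Sum.inl ()))
    · exact hg (Sum.inr (Sum.inr k))

end Pool.Agent.Pat5
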