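import Mathlib
import Pool.Agent.Pat5.Defs

/-!
# Pat5 P13: the relations of degree two of a family with one dependent member

`quad`: `x` is algebraically independent over `Qbar`, and `x i0 * Y = m(x)` where `m ≠ 0` is a
polynomial which does not contain the variable `i0`. Then every polynomial relation of total degree
`≤ 2` of the family `(Y, x)` is a multiple of `Q = X_none * X_{some i0} - m`.

Proof. Write `P = A + X_none * B + c * X_none ^ 2` with `A`, `B` polynomials in the variables
`some i`, of total degree `≤ 2` and `≤ 1`, and a constant `c` (`MvPolynomial.optionEquivLeft`, or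
`MvPolynomial.totalDegree_coeff_optionEquivLeft_add_le`-type lemmas; or a direct decomposition of
monomials: every exponent of degree `≤ 2` is of one of the three kinds). Evaluate at `(Y, x)` and
multiply by `x i0 ^ 2`; since `x i0 * Y = m(x)`,
  `x i0 ^ 2 * A(x) + x i0 * m(x) * B(x) + c * m(x) ^ 2 = 0`,
and as `x` is algebraically independent, `X i0 ^ 2 * A + X i0 * m * B + c * m ^ 2 = 0` as polynomials
in the variables `i`. Substitute `X i0 = 0` (the algebra homomorphism which maps `X i0` to `0` and
fixes the other variables; it fixes `m`, `MvPolynomial.mem_vars`, e.g.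
`MvPolynomial.eval₂Hom_congr'`/`aeval_eq_of_vars`-type lemma): `c * m ^ 2 = 0`, so `c = 0`. Divide by
`X i0`: `X i0 * A + m * B = 0`. Substitute `X i0 = 0` again: `m * B|_{X i0 = 0} = 0`, so
`B|_{X i0 = 0} = 0`, and as `B` has total degree `≤ 1`, `B = b * X i0` for a constant `b`. Hence
`A = - b * m` and `P = b * (X_none * X_{some i0} - m)`.
-/

set_option autoImplicit false

namespace Pool.Agent.Pat5

open MvPolynomial in
/-- The substitution `X i0 = 0` does not change a polynomial modulo `X i0`. -/
private theorem quad_dvd {ι : Type} [DecidableEq ι] (i0 : ι) (p : MvPolynomial ι Qbar) :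
    X i0 ∣ p - aeval (fun i => if i ∈ ({i0}ᶜ : Set ι) then X i else 0) p := by
  induction p using MvPolynomial.induction_on with
  | C a =>
    have h : aeval (fun i => if i ∈ ({i0}ᶜ : Set ι) then X i else (0 : MvPolynomial ι Qbar))
        (C a : MvPolynomial ι Qbar) = C a := by
      rw [aeval_C]; rfl
    rw [h, sub_self]
    exact dvd_zero _
  | add p q hp hq =>
    rw [map_add, add_sub_add_comm]
    exact dvd_add hp hq
  | mul_X p n hp =>
    rw [map_mul, aeval_X]
    by_cases hn : n = i0
    · subst hn
      simp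
    · have h1 : n ∈ ({i0}ᶜ : Set ι) := hn
      rw [if_pos h1, ← sub_mul]
      exact hp.mul_right _

open MvPolynomial in
theorem quad {ι : Type} (x : ι → ℂ) (hx : AlgebraicIndependent Qbar x) (i0 : ι)
    (m : MvPolynomial ι Qbar) (hm : m ≠ 0) (hi : i0 ∉ m.vars) (Y : ℂ)
    (hY : x i0 * Y = aeval x m) :
    ∃ Q : MvPolynomial (Option ι) Qbar, ∀ P : MvPolynomial (Option ι) Qbar,
      P.totalDegree ≤ 2 → aeval (fun o : Option ι => o.elim Y x) P = 0 →
      ∃ c : Qbar, P = C c * Q := by
  classical
  set φ : MvPolynomial ι Qbar →ₐ[Qbar] MvPolynomial ι Qbar :=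
    aeval (fun i => if i ∈ ({i0}ᶜ : Set ι) then X i else 0) with hφ
  have hφm : φ m = m := by
    refine aeval_ite_mem_eq_self m ?_
    intro i him h
    exact hi (h ▸ him)
  have hφX : φ (X i0) = 0 := by
    rw [hφ, aeval_X]; simp
  have hφC : ∀ a : Qbar, φ (C a) = C a := fun a => by rw [hφ, aeval_C]; rfl
  have hdvd : ∀ p : MvPolynomial ι Qbar, φ p = 0 → X i0 ∣ p := by
    intro p hp
    have h := quad_dvd i0 p
    rw [← hφ, hp, sub_zero] at h
    exact h
  refine ⟨(optionEquivLeft Qbar ι).symm
    (Polynomial.X * Polynomial.C (X i0) - Polynomial.C m), fun P hP hev => ?_⟩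
  set R := optionEquivLeft Qbar ι P with hR
  -- the evaluation through `optionEquivLeft`
  have heval : ∀ p : MvPolynomial (Option ι) Qbar,
      aeval (fun o : Option ι => o.elim Y x) p =
        Polynomial.eval₂ (aeval x : MvPolynomial ι Qbar →ₐ[Qbar] ℂ).toRingHom Y
          (optionEquivLeft Qbar ι p) := by
    intro p
    induction p using MvPolynomial.induction_on with
    | C a => simp [optionEquivLeft_C]
    | add p q hp hq => rw [map_add, map_add, Polynomial.eval₂_add, hp, hq]
    | mul_X p n hp =>
      rw [map_mul, map_mul, Polynomial.eval₂_mul, hp]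
      congr 1
      cases n with
      | none => simp [optionEquivLeft_X_none]
      | some i => simp [optionEquivLeft_X_some]
  have hnat : R.natDegree < 3 := by
    rw [hR, natDegree_optionEquivLeft]
    have := degreeOf_le_totalDegree P none
    omega
  have hcoeff : ∀ k ≤ 2, (R.coeff k).totalDegree + k ≤ 2 := by
    intro k hk
    by_cases hk1 : k ≤ P.totalDegree
    · exact (totalDegree_coeff_optionEquivLeft_add_le Qbar ι P k hk1).trans hP
    · have h1 : R.natDegree < k := by
        rw [hR, natDegree_optionEquivLeft]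
        have := degreeOf_le_totalDegree P none
        omega
      rw [Polynomial.coeff_eq_zero_of_natDegree_lt h1, totalDegree_zero]
      omega
  set a0 := R.coeff 0 with ha0
  set a1 := R.coeff 1 with ha1
  set a2 := R.coeff 2 with ha2
  have hRsum : R = Polynomial.C a0 + Polynomial.C a1 * Polynomial.X
      + Polynomial.C a2 * Polynomial.X ^ 2 := by
    conv_lhs => rw [Polynomial.as_sum_range_C_mul_X_pow' R hnat]
    rw [Finset.sum_range_succ, Finset.sum_range_succ, Finset.sum_range_succ,
      Finset.sum_range_zero, pow_zero, mul_one, pow_one, zero_add]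
  have hev2 : aeval x a0 + aeval x a1 * Y + aeval x a2 * Y ^ 2 = 0 := by
    have h := heval P
    rw [hev, ← hR, hRsum] at h
    simpa using h.symm
  have hpoly : X i0 ^ 2 * a0 + X i0 * m * a1 + m ^ 2 * a2 = 0 := by
    refine (injective_iff_map_eq_zero (aeval x : MvPolynomial ι Qbar →ₐ[Qbar] ℂ)).1 hx _ ?_
    simp only [map_add, map_mul, map_pow, aeval_X]
    rw [← hY]
    linear_combination x i0 ^ 2 * hev2
  have h2c : a2.totalDegree = 0 := by
    have h1 : a2.totalDegree + 2 ≤ 2 := hcoeff 2 le_rfl
    omega
  have ha2z : a2 = 0 := by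
    have h := congrArg φ hpoly
    rw [map_add, map_add, map_mul, map_mul, map_mul, map_mul, map_pow, map_pow, hφX, hφm,
      map_zero, totalDegree_eq_zero_iff_eq_C.1 h2c, hφC] at h
    have h1 : m ^ 2 * C (coeff 0 a2) = 0 := by simpa using h
    have h3 := (mul_eq_zero.1 h1).resolve_left (pow_ne_zero 2 hm)
    rw [totalDegree_eq_zero_iff_eq_C.1 h2c, h3]
  have hpoly2 : X i0 * a0 + m * a1 = 0 := by
    have h1 : X i0 * (X i0 * a0 + m * a1) = 0 := by
      rw [ha2z] at hpoly
      linear_combination hpoly
    exact (mul_eq_zero.1 h1).resolve_left (X_ne_zero i0)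
  have hφa1 : φ a1 = 0 := by
    have h := congrArg φ hpoly2
    rw [map_add, map_mul, map_mul, hφX, hφm, map_zero, zero_mul, zero_add] at h
    exact (mul_eq_zero.1 h).resolve_left hm
  obtain ⟨q, hq⟩ := hdvd a1 hφa1
  have hqC : ∃ b : Qbar, q = C b := by
    by_cases hq0 : q = 0
    · exact ⟨0, by rw [hq0, map_zero]⟩
    · have h1 := hcoeff 1 (by omega)
      rw [← ha1, hq, totalDegree_mul_of_isDomain (X_ne_zero i0) hq0, totalDegree_X] at h1
      exact ⟨coeff 0 q, totalDegree_eq_zero_iff_eq_C.1 (by omega)⟩
  obtain ⟨b, hb⟩ := hqC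
  have ha0b : a0 = - (C b * m) := by
    have h1 : X i0 * (a0 + C b * m) = 0 := by
      rw [hq, hb] at hpoly2
      linear_combination hpoly2
    exact eq_neg_of_add_eq_zero_left ((mul_eq_zero.1 h1).resolve_left (X_ne_zero i0))
  refine ⟨b, ?_⟩
  apply (optionEquivLeft Qbar ι).injective
  rw [map_mul, AlgEquiv.apply_symm_apply, optionEquivLeft_C, ← hR, hRsum, ha2z, ha0b, hq, hb]
  simp only [map_neg, map_mul, map_zero, zero_mul, add_zero]
  ring

end Pool.Agent.Pat5
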