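import Mathlib
import Pool.Agent.Pat5.Defs

/-!
# Pat5 P11: matrices of linear forms with vanishing minors

`rank_one`: `F j`, `G j` (`j = 0, 1, 2`) are polynomials of total degree at most `1` with
`F i * G j = F j * G i`, and the `F j` are linearly independent over the field `k`. Then
`G j = c * F j` for some constant `c`.

Proof. A polynomial `P` of total degree `≤ 1` is `C (coeff 0 P) + ∑ C (coeff (single s 1) P) X s`
and `pderiv s P = C (coeff (single s 1) P)`; if all these coefficients are zero, then `P` is a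
constant. Write `f j = coeff (single s 1) (F j)`, `g j` similarly for `G j`, for a variable `s`.
Differentiate `F j * G 0 = F 0 * G j`:
  `C (f j) G 0 + F j C (g 0) = C (f 0) G j + F 0 C (g j)`.
Multiply by `F 0` and use `F 0 * G j = F j * G 0`:
  `F 0 (f j G 0 - g j F 0) = F j (f 0 G 0 - g 0 F 0)`.     (1)
Put `H s = f 0 G 0 - g 0 F 0` and `L j = f j G 0 - g j F 0` (so `L 0 = H`).

Case 1: `H s = 0` for all `s`. If some `f 0 ≠ 0` then `G 0 = (g 0 / f 0) F 0`. If all `f 0` are `0`,
then `F 0` is a constant, not `0` as the `F j` are linearly independent, and `g 0 F 0 = 0` for all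
`s` shows that `G 0` is a constant, too; again `G 0 = c F 0`. Now
`F 0 G j = F j G 0 = c F j F 0` and `F 0 ≠ 0` give `G j = c F j` for all `j`.

Case 2: `H s ≠ 0` for some `s`. The three vectors `(f j, g j)`, `j = 0, 1, 2`, of `k^2` are linearly
dependent: there are `c j`, not all zero, with `∑ c j f j = 0 = ∑ c j g j`, so `∑ c j L j = 0`.
Multiply (1) by `c j` and sum: `F 0 * 0 = (∑ c j F j) H`, so `∑ c j F j = 0`. Contradiction.
-/

set_option autoImplicit false

namespace Pool.Agent.Pat5

open MvPolynomial in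
private theorem coeff_zero_of {k : Type} [Field k] {σ : Type} {P : MvPolynomial σ k}
    (hP : P.totalDegree ≤ 1) {m : σ →₀ ℕ} (hm : 1 < m.degree) : P.coeff m = 0 := by
  apply coeff_eq_zero_of_totalDegree_lt
  refine lt_of_le_of_lt hP ?_
  exact hm

open MvPolynomial in
private theorem pd {k : Type} [Field k] {σ : Type} {P : MvPolynomial σ k}
    (hP : P.totalDegree ≤ 1) (s : σ) : pderiv s P = C (P.coeff (Finsupp.single s 1)) := by
  classical
  ext m
  rw [coeff_pderiv, coeff_C]
  split_ifs with h
  · rw [← h]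
    simp
  · rw [coeff_zero_of hP, zero_mul]
    rw [map_add, Finsupp.degree_single]
    have h1 : m.degree ≠ 0 := fun h2 => h ((Finsupp.degree_eq_zero_iff m).1 h2).symm
    omega

open MvPolynomial in
private theorem const_of {k : Type} [Field k] {σ : Type} {P : MvPolynomial σ k}
    (hP : P.totalDegree ≤ 1) (h : ∀ s, P.coeff (Finsupp.single s 1) = 0) :
    P = C (P.coeff 0) := by
  classical
  ext m
  rw [coeff_C]
  split_ifs with h0
  · rw [h0]
  · have h1 : m.degree ≠ 0 := fun h2 => h0 ((Finsupp.degree_eq_zero_iff m).1 h2).symm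
    by_cases h2 : 1 < m.degree
    · exact coeff_zero_of hP h2
    · have h3 : m.degree = 1 := by omega
      obtain ⟨s, hs⟩ : ∃ s, m s ≠ 0 := by
        by_contra hcon
        push Not at hcon
        exact h0 (Finsupp.ext fun s => (hcon s).symm)
      have h4 : Finsupp.single s 1 + (m - Finsupp.single s 1) = m := by
        apply add_tsub_cancel_of_le
        rw [Finsupp.single_le_iff]
        exact Nat.one_le_iff_ne_zero.2 hs
      have h5 : (m - Finsupp.single s 1).degree = 0 := by
        have h6 := congrArg Finsupp.degree h4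
        rw [map_add, Finsupp.degree_single, h3] at h6
        omega
      rw [Finsupp.degree_eq_zero_iff] at h5
      rw [h5, add_zero] at h4
      rw [← h4]
      exact h s

open MvPolynomial in
theorem rank_one {k : Type} [Field k] {σ : Type} (F G : Fin 3 → MvPolynomial σ k)
    (hF : ∀ j, (F j).totalDegree ≤ 1) (hG : ∀ j, (G j).totalDegree ≤ 1)
    (hm : ∀ i j, F i * G j = F j * G i) (hli : LinearIndependent k F) :
    ∃ c : k, ∀ j, G j = MvPolynomial.C c * F j := by
  have hF0 : F 0 ≠ 0 := hli.ne_zero 0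
  set f : Fin 3 → σ → k := fun j s => (F j).coeff (Finsupp.single s 1) with hf
  set g : Fin 3 → σ → k := fun j s => (G j).coeff (Finsupp.single s 1) with hg
  have hpF : ∀ j s, pderiv s (F j) = C (f j s) := fun j s => pd (hF j) s
  have hpG : ∀ j s, pderiv s (G j) = C (g j s) := fun j s => pd (hG j) s
  -- equation (1)
  have h1 : ∀ s j, F 0 * (C (f j s) * G 0 - C (g j s) * F 0) =
      F j * (C (f 0 s) * G 0 - C (g 0 s) * F 0) := by
    intro s j
    have h2 := congrArg (pderiv s) (hm j 0)
    rw [pderiv_mul, pderiv_mul, hpF, hpF, hpG, hpG] at h2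
    have h3 := hm 0 j
    linear_combination F 0 * h2 + C (f 0 s) * h3
  have hcase : ∀ c : k, G 0 = C c * F 0 → ∃ c : k, ∀ j, G j = MvPolynomial.C c * F j := by
    intro c hc
    refine ⟨c, fun j => ?_⟩
    have h3 := hm 0 j
    rw [hc] at h3
    apply mul_left_cancel₀ hF0
    rw [h3]
    ring
  by_cases hH : ∀ s, C (f 0 s) * G 0 - C (g 0 s) * F 0 = 0
  · by_cases hf0 : ∃ s, f 0 s ≠ 0
    · obtain ⟨s, hs⟩ := hf0
      apply hcase (g 0 s / f 0 s)
      have h2 := hH s
      have h3 : C (f 0 s) ≠ (0 : MvPolynomial σ k) := by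
        rw [Ne, map_eq_zero_iff C (C_injective σ k)]
        exact hs
      apply mul_left_cancel₀ h3
      have h4 : C (f 0 s) * (C (g 0 s / f 0 s) * F 0) = C (g 0 s) * F 0 := by
        rw [← mul_assoc, ← C_mul, mul_div_cancel₀ _ hs]
      rw [h4]
      exact sub_eq_zero.1 h2
    · push Not at hf0
      have h2 := const_of (hF 0) hf0
      have h3 : ∀ s, g 0 s = 0 := by
        intro s
        have h4 := hH s
        rw [hf0 s, C_0, zero_mul, zero_sub, neg_eq_zero, mul_eq_zero,
          map_eq_zero_iff C (C_injective σ k)] at h4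
        exact h4.resolve_right hF0
      have h4 := const_of (hG 0) h3
      have h5 : (F 0).coeff 0 ≠ 0 := by
        intro h6
        rw [h6, C_0] at h2
        exact hF0 h2
      apply hcase ((G 0).coeff 0 / (F 0).coeff 0)
      rw [h2, h4, ← C_mul]
      simp only [coeff_zero_C]
      rw [div_mul_cancel₀ _ h5]
  · exfalso
    push Not at hH
    obtain ⟨s, hs⟩ := hH
    set M : Matrix (Fin 2) (Fin 3) k := !![f 0 s, f 1 s, f 2 s; g 0 s, g 1 s, g 2 s] with hM
    have hker : LinearMap.ker M.mulVecLin ≠ ⊥ := by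
      apply LinearMap.ker_ne_bot_of_finrank_lt
      simp
    obtain ⟨c, hc, hc0⟩ := Submodule.exists_mem_ne_zero_of_ne_bot hker
    rw [LinearMap.mem_ker, Matrix.mulVecLin_apply] at hc
    have c1 := congrFun hc 0
    have c2 := congrFun hc 1
    simp only [hM, Matrix.mulVec, dotProduct, Fin.sum_univ_three, Matrix.of_apply,
      Matrix.cons_val', Matrix.cons_val_zero, Matrix.cons_val_one, Matrix.cons_val,
      Pi.zero_apply] at c1 c2
    have e1 := h1 s 0
    have e2 := h1 s 1
    have e3 := h1 s 2
    have c1' : C (f 0 s) * C (c 0) + C (f 1 s) * C (c 1) + C (f 2 s) * C (c 2) =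
        (0 : MvPolynomial σ k) := by
      rw [← C_mul, ← C_mul, ← C_mul, ← C_add, ← C_add, c1, C_0]
    have c2' : C (g 0 s) * C (c 0) + C (g 1 s) * C (c 1) + C (g 2 s) * C (c 2) =
        (0 : MvPolynomial σ k) := by
      rw [← C_mul, ← C_mul, ← C_mul, ← C_add, ← C_add, c2, C_0]
    have e4 : (C (c 0) * F 0 + C (c 1) * F 1 + C (c 2) * F 2) *
        (C (f 0 s) * G 0 - C (g 0 s) * F 0) = 0 := by
      linear_combination (F 0 * G 0) * c1' - (F 0 * F 0) * c2' - C (c 0) * e1 - C (c 1) * e2 -
        C (c 2) * e3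
    have e5 := (mul_eq_zero.1 e4).resolve_right hs
    have e6 := Fintype.linearIndependent_iff.1 hli c (by
      rw [Fin.sum_univ_three]
      simpa only [smul_eq_C_mul] using e5)
    exact hc0 (funext e6)

end Pool.Agent.Pat5
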