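import Mathlib
import Pool.Agent.Pat5.RankOne

/-!
# Pat5 P12: the strong six exponentials property from one quadratic relation

`six_of_quad`: all relations of degree at most `2` between the numbers `u s` over `Qbar` are
multiples of one polynomial `Q`. Suppose `x i * y j` is in the `Qbar`-span of `1` and the `u s` for all
`i`, `j`. Choose polynomials `F j`, `G j` of total degree `≤ 1` with `aeval u (F j) = x 0 * y j` and
`aeval u (G j) = x 1 * y j` (an element of the span of `{1} ∪ range u` is the value of such a
polynomial: `Submodule.span_induction`). For `i`, `j` the polynomial `D i j = F i * G j - F j * G i` has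
total degree `≤ 2` and the value `0` at `u`, so `D i j = C (c i j) * Q`. Expanding along the first row,
  `F 0 * D 1 2 - F 1 * D 0 2 + F 2 * D 0 1 = 0`   (`ring`),
so `(c 1 2 • F 0 - c 0 2 • F 1 + c 0 1 • F 2) * Q = 0`. If `Q = 0`, then all `D i j` are `0`. Otherwise
the linear combination is zero; evaluate it at `u` and divide by `x 0 ≠ 0`:
`c 1 2 * y 0 - c 0 2 * y 1 + c 0 1 * y 2 = 0`, so all the `c` are `0` by the linear independence of `y`,
and again all `D i j` are `0`. The `F j` are linearly independent over `Qbar` (evaluate at `u`, divide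
by `x 0`). By `rank_one` there is `c` with `G j = C c * F j`; for `j = 0` evaluation gives
`x 1 * y 0 = c * x 0 * y 0`, `y 0 ≠ 0`, so `x 1 = c * x 0`, contradicting the independence of `x`.
-/

set_option autoImplicit false

namespace Pool.Agent.Pat5

open MvPolynomial in
/-- An element of the span of `1` and the numbers `u s` is the value of a polynomial of degree at
most one. -/
private theorem exists_lin {σ : Type} (u : σ → ℂ) {z : ℂ}
    (hz : z ∈ Submodule.span Qbar ({1} ∪ Set.range u)) :
    ∃ P : MvPolynomial σ Qbar, P.totalDegree ≤ 1 ∧ aeval u P = z := by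
  induction hz using Submodule.span_induction with
  | mem w hw =>
    rcases hw with hw | ⟨s, rfl⟩
    · rw [Set.mem_singleton_iff] at hw
      subst hw
      exact ⟨1, by simp, by simp⟩
    · exact ⟨X s, by simp, by simp⟩
  | zero => exact ⟨0, by simp, by simp⟩
  | add a b _ _ ha hb =>
    obtain ⟨P, hP, rfl⟩ := ha
    obtain ⟨R, hR, rfl⟩ := hb
    exact ⟨P + R, (totalDegree_add P R).trans (max_le hP hR), by simp⟩
  | smul c a _ ha =>
    obtain ⟨P, hP, rfl⟩ := ha
    refine ⟨c • P, (totalDegree_smul_le c P).trans hP, by simp⟩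

open MvPolynomial in
theorem six_of_quad {σ : Type} (u : σ → ℂ) (Q : MvPolynomial σ Qbar)
    (hQ : ∀ P : MvPolynomial σ Qbar, P.totalDegree ≤ 2 → aeval u P = 0 →
      ∃ c : Qbar, P = C c * Q)
    (x : Fin 2 → ℂ) (y : Fin 3 → ℂ) (hx : LinearIndependent Qbar x)
    (hy : LinearIndependent Qbar y) :
    ∃ i j, x i * y j ∉ Submodule.span Qbar ({1} ∪ Set.range u) := by
  by_contra hcon
  push Not at hcon
  have hF : ∀ j, ∃ P : MvPolynomial σ Qbar, P.totalDegree ≤ 1 ∧ aeval u P = x 0 * y j :=
    fun j => exists_lin u (hcon 0 j)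
  have hG : ∀ j, ∃ P : MvPolynomial σ Qbar, P.totalDegree ≤ 1 ∧ aeval u P = x 1 * y j :=
    fun j => exists_lin u (hcon 1 j)
  choose F hFd hFe using hF
  choose G hGd hGe using hG
  have hx0 : x 0 ≠ 0 := hx.ne_zero 0
  have hy0 : y 0 ≠ 0 := hy.ne_zero 0
  have hDd : ∀ i j, (F i * G j - F j * G i).totalDegree ≤ 2 := by
    intro i j
    refine (totalDegree_sub _ _).trans (max_le ?_ ?_)
    · exact (totalDegree_mul _ _).trans (by have := hFd i; have := hGd j; omega)
    · exact (totalDegree_mul _ _).trans (by have := hFd j; have := hGd i; omega)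
  have hDe : ∀ i j, aeval u (F i * G j - F j * G i) = 0 := by
    intro i j
    rw [map_sub, map_mul, map_mul, hFe, hFe, hGe, hGe]
    ring
  have hD : ∀ i j, ∃ c : Qbar, F i * G j - F j * G i = C c * Q :=
    fun i j => hQ _ (hDd i j) (hDe i j)
  choose c hc using hD
  -- a linear relation between the `F j` gives one between the `y j`
  have hFrel : ∀ a0 a1 a2 : Qbar, C a0 * F 0 + C a1 * F 1 + C a2 * F 2 = 0 →
      a0 = 0 ∧ a1 = 0 ∧ a2 = 0 := by
    intro a0 a1 a2 h
    have h1 := congrArg (aeval u) h
    rw [map_add, map_add, map_mul, map_mul, map_mul, hFe, hFe, hFe, map_zero] at h1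
    simp only [aeval_C] at h1
    have h2 : x 0 * (a0 • y 0 + a1 • y 1 + a2 • y 2) = 0 := by
      simp only [Algebra.smul_def]
      linear_combination h1
    have h3 : a0 • y 0 + a1 • y 1 + a2 • y 2 = 0 := by
      rcases mul_eq_zero.mp h2 with h | h
      · exact absurd h hx0
      · exact h
    rw [Fintype.linearIndependent_iff] at hy
    have h4 := hy ![a0, a1, a2] (by
      rw [Fin.sum_univ_three]
      simpa using h3)
    exact ⟨by simpa using h4 0, by simpa using h4 1, by simpa using h4 2⟩
  have hDzero : ∀ i j, F i * G j - F j * G i = 0 := by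
    by_cases hQ0 : Q = 0
    · intro i j
      rw [hc i j, hQ0, mul_zero]
    · have h1 : (C (c 1 2) * F 0 + C (-c 0 2) * F 1 + C (c 0 1) * F 2) * Q = 0 := by
        have e12 := hc 1 2
        have e02 := hc 0 2
        have e01 := hc 0 1
        rw [C_neg]
        linear_combination (-F 0) * e12 + F 1 * e02 + (-F 2) * e01
      have h2 := hFrel _ _ _ ((mul_eq_zero.mp h1).resolve_right hQ0)
      have c12 : c 1 2 = 0 := h2.1
      have c02 : c 0 2 = 0 := neg_eq_zero.mp h2.2.1
      have c01 : c 0 1 = 0 := h2.2.2
      have e12 : F 1 * G 2 - F 2 * G 1 = 0 := by rw [hc 1 2, c12, C_0, zero_mul]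
      have e02 : F 0 * G 2 - F 2 * G 0 = 0 := by rw [hc 0 2, c02, C_0, zero_mul]
      have e01 : F 0 * G 1 - F 1 * G 0 = 0 := by rw [hc 0 1, c01, C_0, zero_mul]
      intro i j
      fin_cases i <;> fin_cases j <;> simp only [Fin.zero_eta, Fin.mk_one, Fin.reduceFinMk]
      · ring
      · exact e01
      · exact e02
      · linear_combination -e01
      · ring
      · exact e12
      · linear_combination -e02
      · linear_combination -e12
      · ring
  have hli : LinearIndependent Qbar F := by
    rw [Fintype.linearIndependent_iff]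
    intro g hg
    rw [Fin.sum_univ_three] at hg
    simp only [smul_eq_C_mul] at hg
    have h := hFrel _ _ _ hg
    intro i
    fin_cases i
    · exact h.1
    · exact h.2.1
    · exact h.2.2
  obtain ⟨a, ha⟩ := rank_one F G hFd hGd
    (fun i j => by linear_combination hDzero i j) hli
  have h1 := congrArg (aeval u) (ha 0)
  rw [map_mul, hFe, hGe, aeval_C] at h1
  have h2 : x 1 = a • x 0 := by
    rw [Algebra.smul_def]
    have h3 : y 0 * (x 1 - algebraMap Qbar ℂ a * x 0) = 0 := by linear_combination h1
    exact sub_eq_zero.mp ((mul_eq_zero.mp h3).resolve_left hy0)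
  rw [Fintype.linearIndependent_iff] at hx
  have h4 := hx ![a, -1] (by
    rw [Fin.sum_univ_two]
    simp [h2]) 1
  simp at h4

end Pool.Agent.Pat5
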