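import Mathlib
import Pool.Agent.Pat5.Kc
import Pool.Agent.Pat5.AiAlg

/-!
# Pat5 P19: linear and algebraic independence facts

`li_monomials`: the numbers `z i` are algebraically independent over `Qbar` (`ai_Qbar`), so
`MvPolynomial.aeval z` is injective on `MvPolynomial (Fin n) Qbar`, and distinct monomials are
linearly independent (`MvPolynomial.basisMonomials`, `LinearIndependent.map'`).

`li_I`: `li_monomials` for the six monomials `1, e l, e, p l, l, p` of `(e, p, l)`.

`ai_I_0` etc.: `ai_of_alg` over `ℚ` with `ι = Fin 3`: from `(e, p, l)` to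
 * `(p, e, p l)`: `l = (p l) / p`;
 * `(p, e l, p l)`: `l = (p l) / p`, `e = (e l) / l`;
 * `(p, e l, e)`: `l = (e l) / e`.
All the numbers are nonzero. `ai_I_12`: for the pair `(e, p)` and the numbers `e + p`, `e p`: they are
transcendental, as `e` and `p` are algebraically independent (`X 0 + X 1` and `X 0 * X 1` are
transcendental over `ℚ` in the polynomial ring; or: if `p + e = c` were algebraic, then `p = c - e`
would be algebraic over `ℚ(e)`; or evaluate a one variable polynomial).
-/

set_option autoImplicit false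

namespace Pool.Agent.Pat5

private theorem isAlg_of_mem {ι : Type} {y : ι → ℂ} {x : ℂ}
    (h : x ∈ IntermediateField.adjoin ℚ (Set.range y)) :
    IsAlgebraic (IntermediateField.adjoin ℚ (Set.range y)) x :=
  isAlgebraic_algebraMap (⟨x, h⟩ : IntermediateField.adjoin ℚ (Set.range y))

private theorem mem_y {ι : Type} (y : ι → ℂ) (i : ι) :
    y i ∈ IntermediateField.adjoin ℚ (Set.range y) :=
  IntermediateField.subset_adjoin _ _ ⟨i, rfl⟩

theorem li_monomials {n : ℕ} {z : Fin n → ℂ} (hz : AlgebraicIndependent ℚ z) {κ : Type}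
    (m : κ → Fin n →₀ ℕ) (hm : Function.Injective m) :
    LinearIndependent Qbar (fun k => (m k).prod fun i a => z i ^ a) := by
  have h := ai_Qbar hz
  have hb : LinearIndependent Qbar fun k => MvPolynomial.monomial (m k) (1 : Qbar) := by
    have h1 := (MvPolynomial.basisMonomials (Fin n) Qbar).linearIndependent.comp m hm
    simpa [Function.comp_def] using h1
  have h2 := hb.map' (MvPolynomial.aeval z : MvPolynomial (Fin n) Qbar →ₐ[Qbar] ℂ).toLinearMap
    (LinearMap.ker_eq_bot.2 h)
  have h3 : (fun k => (m k).prod fun i a => z i ^ a) =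
      (MvPolynomial.aeval z : MvPolynomial (Fin n) Qbar →ₐ[Qbar] ℂ).toLinearMap ∘
        fun k => MvPolynomial.monomial (m k) (1 : Qbar) := by
    funext k
    simp [MvPolynomial.aeval_monomial]
  rw [h3]
  exact h2

theorem li_I {e p l : ℂ} (h : AlgebraicIndependent ℚ ![e, p, l]) :
    LinearIndependent Qbar ![1, e * l, e, p * l, l, p] := by
  let M : Fin 6 → Fin 3 → ℕ :=
    ![![0, 0, 0], ![1, 0, 1], ![1, 0, 0], ![0, 1, 1], ![0, 0, 1], ![0, 1, 0]]
  have hM : Function.Injective M := by decide
  have h1 := li_monomials h (fun k => Finsupp.equivFunOnFinite.symm (M k))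
    (Finsupp.equivFunOnFinite.symm.injective.comp hM)
  have h2 : (![1, e * l, e, p * l, l, p] : Fin 6 → ℂ) = fun k =>
      (Finsupp.equivFunOnFinite.symm (M k)).prod fun i a => (![e, p, l] : Fin 3 → ℂ) i ^ a := by
    funext k
    rw [Finsupp.prod_fintype _ _ fun i => pow_zero _]
    fin_cases k <;> simp [M, Fin.prod_univ_succ]
  rw [h2]
  exact h1

theorem ai_I_0 {e p l : ℂ} (h : AlgebraicIndependent ℚ ![e, p, l]) :
    AlgebraicIndependent ℚ ![p, e, p * l] := by
  have hp : p ≠ 0 := h.ne_zero 1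
  refine ai_of_alg h fun i => isAlg_of_mem ?_
  have h0 := mem_y ![p, e, p * l] 0
  have h1 := mem_y ![p, e, p * l] 1
  have h2 := mem_y ![p, e, p * l] 2
  fin_cases i
  · exact h1
  · exact h0
  · have h3 := div_mem h2 h0
    have h4 : (![p, e, p * l] : Fin 3 → ℂ) 2 / (![p, e, p * l] : Fin 3 → ℂ) 0 = l :=
      mul_div_cancel_left₀ l hp
    rw [h4] at h3
    exact h3

theorem ai_I_1 {e p l : ℂ} (h : AlgebraicIndependent ℚ ![e, p, l]) :
    AlgebraicIndependent ℚ ![p, e * l, p * l] := by
  have hp : p ≠ 0 := h.ne_zero 1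
  have hl : l ≠ 0 := h.ne_zero 2
  refine ai_of_alg h fun i => isAlg_of_mem ?_
  have h0 := mem_y ![p, e * l, p * l] 0
  have h1 := mem_y ![p, e * l, p * l] 1
  have h2 := mem_y ![p, e * l, p * l] 2
  have h3 := div_mem h2 h0
  have h4 : (![p, e * l, p * l] : Fin 3 → ℂ) 2 / (![p, e * l, p * l] : Fin 3 → ℂ) 0 = l :=
    mul_div_cancel_left₀ l hp
  rw [h4] at h3
  have h5 := div_mem h1 h3
  have h6 : (![p, e * l, p * l] : Fin 3 → ℂ) 1 / l = e := mul_div_cancel_right₀ e hl
  rw [h6] at h5
  fin_cases i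
  · exact h5
  · exact h0
  · exact h3

theorem ai_I_2 {e p l : ℂ} (h : AlgebraicIndependent ℚ ![e, p, l]) :
    AlgebraicIndependent ℚ ![p, e * l, e] := by
  have he : e ≠ 0 := h.ne_zero 0
  refine ai_of_alg h fun i => isAlg_of_mem ?_
  have h0 := mem_y ![p, e * l, e] 0
  have h1 := mem_y ![p, e * l, e] 1
  have h2 := mem_y ![p, e * l, e] 2
  fin_cases i
  · exact h2
  · exact h0
  · have h3 := div_mem h1 h2
    have h4 : (![p, e * l, e] : Fin 3 → ℂ) 1 / (![p, e * l, e] : Fin 3 → ℂ) 2 = l :=
      mul_div_cancel_left₀ l he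
    rw [h4] at h3
    exact h3

theorem transcendental_add {e p : ℂ} (h : AlgebraicIndependent ℚ ![e, p]) :
    Transcendental ℚ (p + e) := by
  have h1 : AlgebraicIndependent ℚ ![e, p + e] := by
    refine ai_of_alg h fun i => isAlg_of_mem ?_
    have h0 := mem_y ![e, p + e] 0
    have h1 := mem_y ![e, p + e] 1
    fin_cases i
    · exact h0
    · have h3 := sub_mem h1 h0
      have h4 : (![e, p + e] : Fin 2 → ℂ) 1 - (![e, p + e] : Fin 2 → ℂ) 0 = p :=
        add_sub_cancel_right p e
      rw [h4] at h3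
      exact h3
  exact h1.transcendental 1

theorem transcendental_mul {e p : ℂ} (h : AlgebraicIndependent ℚ ![e, p]) :
    Transcendental ℚ (p * e) := by
  have he : e ≠ 0 := h.ne_zero 0
  have h1 : AlgebraicIndependent ℚ ![e, p * e] := by
    refine ai_of_alg h fun i => isAlg_of_mem ?_
    have h0 := mem_y ![e, p * e] 0
    have h1 := mem_y ![e, p * e] 1
    fin_cases i
    · exact h0
    · have h3 := div_mem h1 h0
      have h4 : (![e, p * e] : Fin 2 → ℂ) 1 / (![e, p * e] : Fin 2 → ℂ) 0 = p :=
        mul_div_cancel_right₀ p he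
      rw [h4] at h3
      exact h3
  exact h1.transcendental 1

end Pool.Agent.Pat5
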