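import Mathlib
import Pool.Agent.Pat5.Defs

/-!
# Pat5 P18: rational approximations with linearly independent logarithms

Proof of `exists_rat_near`, by induction on `n` (`Fin.snoc` or `Fin.cons`). Let `q 0, ..., q (n-1)` be
found. Choose a prime number `P` which does not divide any numerator or denominator of these `q i`
and is so large that `1 / P < ε / 2` and `t n * P > 2` (`Nat.exists_infinite_primes`). Among
the two consecutive integers `⌊t n * P⌋` and `⌊t n * P⌋ + 1`, both positive, one is not divisible by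
`P`; call it `a` and put `q n = a / P`. Then `|q n - t n| ≤ 1 / P < ε` and the `P`-adic
valuation of `q n` is `-1` (`padicValRat`) while it is `0` for the other `q i`. Linear independence
over `ℚ` of the logarithms: clear denominators (`LinearIndependent ℚ ↔ LinearIndependent ℤ`,
`LinearIndependent.iff_fractionRing`); a relation `∑ c i * log (q i) = 0` with integers `c i` means
`∏ (q i) ^ (c i) = 1` (`Real.log_zpow`, `Real.log_prod`, injectivity of `log` on the positive
numbers), and taking the `P`-adic valuation gives `c n = 0`; use the induction hypothesis.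

`log_mem_Lr`: `exp (log q) = q` is rational.
-/

set_option autoImplicit false

namespace Pool.Agent.Pat5

/-- The valuation of a rational number at a large prime number is zero. -/
theorem RatNear_val {P : ℕ} (q : ℚ) (h1 : q.num.natAbs < P) (h2 : q.den < P) (hq : q ≠ 0) :
    padicValRat P q = 0 := by
  have h3 : ¬ P ∣ q.num.natAbs := by
    intro h
    have h4 := Nat.le_of_dvd (Int.natAbs_pos.2 (Rat.num_ne_zero.2 hq)) h
    omega
  have h5 : ¬ P ∣ q.den := by
    intro h
    have h4 := Nat.le_of_dvd q.den_pos h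
    omega
  rw [padicValRat_def, padicValNat.eq_zero_of_not_dvd h5, padicValInt,
    padicValNat.eq_zero_of_not_dvd h3]
  norm_num

/-- The next rational number. -/
theorem RatNear_step {n : ℕ} (q : Fin n → ℚ) (hq : ∀ i, 0 < q i) (t : ℝ) (ht : 0 < t) (ε : ℝ)
    (hε : 0 < ε) : ∃ (P : ℕ) (r : ℚ), P.Prime ∧ 0 < r ∧ |(r : ℝ) - t| < ε ∧
      padicValRat P r = -1 ∧ ∀ i, padicValRat P (q i) = 0 := by
  obtain ⟨P, hP1, hP⟩ := Nat.exists_infinite_primes
    (1 + (∑ i, ((q i).num.natAbs + (q i).den)) + ⌈1 / ε⌉₊ + ⌈1 / t⌉₊)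
  have hP0 : 0 < (P : ℝ) := by exact_mod_cast hP.pos
  have hb : ∀ i, (q i).num.natAbs < P ∧ (q i).den < P := by
    intro i
    have h1 := Finset.single_le_sum (f := fun i => (q i).num.natAbs + (q i).den)
      (fun i _ => Nat.zero_le _) (Finset.mem_univ i)
    omega
  have hPε : 1 / ε < (P : ℝ) := by
    have h1 : ⌈1 / ε⌉₊ < P := by omega
    exact lt_of_le_of_lt (Nat.le_ceil _) (by exact_mod_cast h1)
  have hPt : 1 / t < (P : ℝ) := by
    have h1 : ⌈1 / t⌉₊ < P := by omega
    exact lt_of_le_of_lt (Nat.le_ceil _) (by exact_mod_cast h1)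
  have hPt' : 1 < t * P := by
    rw [div_lt_iff₀ ht] at hPt
    linarith
  have hPε' : 1 / (P : ℝ) < ε := by
    rw [div_lt_iff₀ hε] at hPε
    rw [div_lt_iff₀ hP0]
    linarith
  -- the numerator
  have ha : ∃ a : ℕ, 0 < a ∧ ¬ P ∣ a ∧ |(a : ℝ) - t * P| ≤ 1 := by
    have h0 : 0 ≤ t * P := by positivity
    have h1 := Nat.floor_le h0
    have h2 := Nat.lt_floor_add_one (t * P)
    have h3 : 1 ≤ ⌊t * P⌋₊ := Nat.floor_pos.2 hPt'.le
    by_cases hd : P ∣ ⌊t * P⌋₊
    · refine ⟨⌊t * P⌋₊ + 1, by omega, ?_, ?_⟩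
      · intro h4
        have h5 : P ∣ 1 := (Nat.dvd_add_right hd).1 h4
        exact hP.one_lt.ne' (Nat.dvd_one.1 h5)
      · push_cast
        rw [abs_le]
        constructor <;> linarith
    · refine ⟨⌊t * P⌋₊, by omega, hd, ?_⟩
      rw [abs_le]
      constructor <;> linarith
  obtain ⟨a, ha0, haP, hat⟩ := ha
  have : Fact P.Prime := ⟨hP⟩
  refine ⟨P, (a : ℚ) / P, hP, ?_, ?_, ?_, ?_⟩
  · have h1 : (0 : ℚ) < P := by exact_mod_cast hP.pos
    have h2 : (0 : ℚ) < a := by exact_mod_cast ha0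
    positivity
  · push_cast
    have h1 : (a : ℝ) / P - t = ((a : ℝ) - t * P) / P := by
      field_simp
    rw [h1, abs_div, abs_of_pos hP0]
    calc |(a : ℝ) - t * P| / P ≤ 1 / P := by gcongr
      _ < ε := hPε'
  · have h1 : (P : ℚ) ≠ 0 := by exact_mod_cast hP.ne_zero
    have h2 : (a : ℚ) ≠ 0 := by exact_mod_cast ha0.ne'
    rw [padicValRat.div h2 h1, padicValRat.self hP.one_lt]
    have h3 : padicValRat P (a : ℚ) = 0 := by
      rw [padicValRat.of_nat, padicValNat.eq_zero_of_not_dvd haP]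
      rfl
    rw [h3]
    norm_num
  · intro i
    exact RatNear_val (q i) (hb i).1 (hb i).2 (hq i).ne'

/-- A common denominator. -/
theorem RatNear_den {n : ℕ} (c : Fin n → ℚ) : ∃ N : ℕ, 0 < N ∧ ∃ z : Fin n → ℤ,
    ∀ i, (N : ℚ) * c i = z i := by
  refine ⟨∏ i, (c i).den, Finset.prod_pos fun i _ => (c i).den_pos, ?_⟩
  have h : ∀ i, ∃ z : ℤ, ((∏ j, (c j).den : ℕ) : ℚ) * c i = z := by
    intro i
    obtain ⟨k, hk⟩ := Finset.dvd_prod_of_mem (fun j => (c j).den) (Finset.mem_univ i)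
    refine ⟨k * (c i).num, ?_⟩
    rw [hk]
    push_cast
    rw [← Rat.den_mul_eq_num (c i)]
    ring
  choose z hz using h
  exact ⟨z, hz⟩

theorem RatNear_indep {n : ℕ} (q : Fin n → ℚ) (hq : ∀ i, 0 < q i) (P : ℕ) (hP : P.Prime)
    (r : ℚ) (hr : 0 < r) (hr1 : padicValRat P r = -1) (h0 : ∀ i, padicValRat P (q i) = 0) :
    Real.log r ∉ Submodule.span ℚ (Set.range fun i => Real.log (q i)) := by
  have : Fact P.Prime := ⟨hP⟩
  intro hmem
  rw [Submodule.mem_span_range_iff_exists_fun] at hmem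
  obtain ⟨c, hc⟩ := hmem
  obtain ⟨N, hN, z, hz⟩ := RatNear_den c
  have h1 : (N : ℝ) * Real.log r = ∑ i, (z i : ℝ) * Real.log (q i) := by
    rw [← hc, Finset.mul_sum]
    refine Finset.sum_congr rfl fun i _ => ?_
    have h2 : (N : ℝ) * (c i : ℝ) = (z i : ℝ) := by
      exact_mod_cast congrArg (fun x : ℚ => (x : ℝ)) (hz i)
    rw [Rat.smul_def, ← mul_assoc, h2]
  have hqr : ∀ i, (0 : ℝ) < q i := fun i => by exact_mod_cast hq i
  have hrr : (0 : ℝ) < r := by exact_mod_cast hr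
  have h2 : Real.log ((r : ℝ) ^ N) = Real.log (∏ i, (q i : ℝ) ^ z i) := by
    rw [Real.log_pow, Real.log_prod (fun i _ => (zpow_pos (hqr i) _).ne'), h1]
    refine Finset.sum_congr rfl fun i _ => ?_
    rw [Real.log_zpow]
  have h3 : (r : ℝ) ^ N = ∏ i, (q i : ℝ) ^ z i :=
    Real.log_injOn_pos (Set.mem_Ioi.2 (pow_pos hrr N))
      (Set.mem_Ioi.2 (Finset.prod_pos fun i _ => zpow_pos (hqr i) _)) h2
  have h4 : r ^ N = ∏ i, q i ^ z i := by exact_mod_cast h3
  have h5 : (∏ i, q i ^ z i) ≠ 0 ∧ padicValRat P (∏ i, q i ^ z i) = 0 := by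
    refine Finset.prod_induction _ (fun x : ℚ => x ≠ 0 ∧ padicValRat P x = 0) ?_ ?_ ?_
    · rintro a b ⟨ha, ha'⟩ ⟨hb, hb'⟩
      refine ⟨mul_ne_zero ha hb, ?_⟩
      rw [padicValRat.mul ha hb, ha', hb', add_zero]
    · exact ⟨one_ne_zero, padicValRat.one⟩
    · intro i _
      refine ⟨zpow_ne_zero _ (hq i).ne', ?_⟩
      rw [padicValRat.zpow, h0, mul_zero]
  rw [← h4, padicValRat.pow, hr1] at h5
  have h6 := h5.2
  have h7 : (0 : ℤ) < N := by exact_mod_cast hN
  linarith

theorem exists_rat_near {n : ℕ} (t : Fin n → ℝ) (ht : ∀ i, 0 < t i) (ε : ℝ) (hε : 0 < ε) :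
    ∃ q : Fin n → ℚ, (∀ i, 0 < q i) ∧ (∀ i, |(q i : ℝ) - t i| < ε) ∧
      LinearIndependent ℚ (fun i => Real.log (q i)) := by
  induction n with
  | zero => exact ⟨fun i => i.elim0, fun i => i.elim0, fun i => i.elim0,
      linearIndependent_empty_type⟩
  | succ n ih =>
    obtain ⟨q, h1, h2, h3⟩ := ih (fun i => t i.castSucc) (fun i => ht _)
    obtain ⟨P, r, hP, hr, hrt, hr1, h0⟩ := RatNear_step q h1 (t (Fin.last n)) (ht _) ε hε
    have h4 := RatNear_indep q h1 P hP r hr hr1 h0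
    refine ⟨Fin.snoc q r, ?_, ?_, ?_⟩
    · intro i
      refine Fin.lastCases ?_ (fun i => ?_) i
      · rw [Fin.snoc_last]
        exact hr
      · rw [Fin.snoc_castSucc]
        exact h1 i
    · intro i
      refine Fin.lastCases ?_ (fun i => ?_) i
      · rw [Fin.snoc_last]
        exact hrt
      · rw [Fin.snoc_castSucc]
        exact h2 i
    · have h5 : (fun i : Fin (n + 1) => Real.log ((Fin.snoc q r : Fin (n + 1) → ℚ) i : ℚ)) =
          (Fin.snoc (fun i => Real.log (q i)) (Real.log r) : Fin (n + 1) → ℝ) := by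
        funext i
        refine Fin.lastCases ?_ (fun i => ?_) i
        · rw [Fin.snoc_last, Fin.snoc_last]
        · rw [Fin.snoc_castSucc, Fin.snoc_castSucc]
      rw [h5, linearIndependent_finSnoc]
      exact ⟨h3, h4⟩

theorem log_mem_Lr {q : ℚ} (hq : 0 < q) : Real.log (q : ℝ) ∈ Lr := by
  rw [mem_Lr, Real.exp_log (by exact_mod_cast hq)]
  exact isAlgebraic_algebraMap (A := ℝ) q

end Pool.Agent.Pat5
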