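import Mathlib
import Pool.Agent.Pat5.Dat
import Pool.Agent.Pat5.Mono
import Pool.Agent.Pat5.FactsI
import Pool.Agent.Pat5.RatNear

/-!
# Pat5 P24: the data for the patterns without a rational sum or product

`z = (e, p, l, G, c0, c1, c2)`. The set `T` consists of the indices `i : Fin 3` for which
`f (arg i)` is the logarithm of the rational number `q i`; for the other ones it is the logarithm
of the generic number `z (gI i)`. Moreover `f l = log p`, `f p = log G`.

Proof of `dat_I`. Memberships in `Kc z`: products of `z i`, and `exp (log (z i)) = z i`. `w_mem`: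
`log_mem_Lr`. `w_li`: a subfamily of `hli` (`LinearIndependent.comp`). `dom`: `li_I` for
`(z 0, z 1, z 2)` (algebraically independent, `AlgebraicIndependent.comp`), composed with an injective
map `Option ({i // i ∈ T} ⊕ ({i // i ∉ T} ⊕ Fin 2)) → Fin 6`: `none ↦ 0`, the elements `i` of `T` and of
its complement go to `i + 1`, the elements of `Fin 2` to `4`, `5`. `log`: a subfamily, too
(`p` is the last one). `ran`: the number is `exp (∑ k, c k * log (z k))` with `c 0 = a`, `c 1` and
`c 3` the coefficients of `inr 0`, `inr 1` and `c (gI i)` the coefficient of `inl i`; by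
`transcendental_monomial` with `F = ℚ` and `ψ k = log (z k)` (`exp (ψ k) = z k`) we get `c = 0`.

`strong_I`: choose `j ∉ T`; the family is a subfamily (up to the order) of `ai_I_0`, `ai_I_1`,
`ai_I_2` for `j = 0, 1, 2` applied to `(z 0, z 1, z 2)`.

`quad_I`: `x = ![p, e, p l]` (algebraically independent by `ai_I_0`), `i0 = 0`, `Y = e l`,
`m = X 1 * X 2`: `p * (e l) = e * (p l)`. Both spans are the one of `1, p, e, e l, p l`.
-/

set_option autoImplicit false

namespace Pool.Agent.Pat5

/-- The arguments `e l`, `e`, `p l`. -/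
def arg (e p l : ℝ) : Fin 3 → ℝ := ![e * l, e, p * l]

/-- The positions of the generic numbers. -/
def gI : Fin 3 → Fin 7 := ![4, 5, 6]

private theorem ai3 {z : Fin 7 → ℝ} (hz : AlgebraicIndependent ℚ (fun i => (z i : ℂ))) :
    AlgebraicIndependent ℚ ![((z 0 : ℝ) : ℂ), ((z 1 : ℝ) : ℂ), ((z 2 : ℝ) : ℂ)] := by
  have h := hz.comp (![0, 1, 2] : Fin 3 → Fin 7) (by decide)
  convert h using 1
  funext i
  fin_cases i <;> rfl

private theorem arg_mem (z : Fin 7 → ℝ) (i : Fin 3) :
    ((arg (z 0) (z 1) (z 2) i : ℝ) : ℂ) ∈ Kc z := by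
  have h0 := coe_mem_Kc z 0
  have h1 := coe_mem_Kc z 1
  have h2 := coe_mem_Kc z 2
  fin_cases i
  · simp only [arg, Fin.zero_eta, Matrix.cons_val_zero, Complex.ofReal_mul]
    exact mul_mem h0 h2
  · simpa [arg] using h0
  · simp only [arg, Fin.reduceFinMk, Matrix.cons_val, Complex.ofReal_mul]
    exact mul_mem h1 h2

private theorem exp_log_mem {z : Fin 7 → ℝ} (hpos : ∀ i, 0 < z i) (k : Fin 7) :
    Complex.exp ((Real.log (z k) : ℝ) : ℂ) ∈ Kc z := by
  rw [← Complex.ofReal_exp, Real.exp_log (hpos k)]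
  exact coe_mem_Kc z k

/-- The index map into the family of `li_I`. -/
private def domMap (T : Finset (Fin 3)) :
    Option ({i // i ∈ T} ⊕ ({i // i ∉ T} ⊕ Fin 2)) → Fin 6
  | none => 0
  | some (Sum.inl i) => ![1, 2, 3] i.1
  | some (Sum.inr (Sum.inl i)) => ![1, 2, 3] i.1
  | some (Sum.inr (Sum.inr j)) => ![4, 5] j

/-- The index map for the logarithms. -/
private def logMap (T : Finset (Fin 3)) : Option (Unit ⊕ {i // i ∈ T}) → Fin 6
  | none => 0
  | some (Sum.inl _) => 5
  | some (Sum.inr i) => ![1, 2, 3] i.1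

/-- The index map for the generic numbers. -/
private def ranMap (T : Finset (Fin 3)) : {i // i ∉ T} ⊕ Fin 2 → Fin 7
  | Sum.inl i => gI i.1
  | Sum.inr j => ![1, 3] j

private theorem m3_inj : Function.Injective (![1, 2, 3] : Fin 3 → Fin 6) := by decide

private theorem m3_ne (i : Fin 3) : (![1, 2, 3] : Fin 3 → Fin 6) i ≠ 0 := by
  revert i; decide

private theorem m2_ne (i : Fin 2) : (![4, 5] : Fin 2 → Fin 6) i ≠ 0 := by
  revert i; decide

private theorem m3_m2 (i : Fin 3) (j : Fin 2) :
    (![1, 2, 3] : Fin 3 → Fin 6) i ≠ (![4, 5] : Fin 2 → Fin 6) j := by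
  revert i j; decide

private theorem m2_inj : Function.Injective (![4, 5] : Fin 2 → Fin 6) := by decide

private theorem m3_five (i : Fin 3) : (![1, 2, 3] : Fin 3 → Fin 6) i ≠ 5 := by
  revert i; decide

private theorem domMap_inj (T : Finset (Fin 3)) : Function.Injective (domMap T) := by
  rintro (_ | (⟨i, hi⟩ | (⟨i, hi⟩ | i))) (_ | (⟨j, hj⟩ | (⟨j, hj⟩ | j))) h
  · rfl
  · exact absurd h.symm (m3_ne j)
  · exact absurd h.symm (m3_ne j)
  · exact absurd h.symm (m2_ne j)
  · exact absurd h (m3_ne i)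
  · obtain rfl : i = j := m3_inj h
    rfl
  · obtain rfl : i = j := m3_inj h
    exact absurd hi hj
  · exact absurd h (m3_m2 i j)
  · exact absurd h (m3_ne i)
  · obtain rfl : i = j := m3_inj h
    exact absurd hj hi
  · obtain rfl : i = j := m3_inj h
    rfl
  · exact absurd h (m3_m2 i j)
  · exact absurd h (m2_ne i)
  · exact absurd h.symm (m3_m2 j i)
  · exact absurd h.symm (m3_m2 j i)
  · obtain rfl : i = j := m2_inj h
    rfl

private theorem logMap_inj (T : Finset (Fin 3)) : Function.Injective (logMap T) := by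
  rintro (_ | (⟨⟩ | ⟨i, hi⟩)) (_ | (⟨⟩ | ⟨j, hj⟩)) h
  · rfl
  · exact absurd h (by simp [logMap])
  · exact absurd h.symm (m3_ne j)
  · exact absurd h (by simp [logMap])
  · rfl
  · exact absurd h.symm (m3_five j)
  · exact absurd h (m3_ne i)
  · exact absurd h (m3_five i)
  · obtain rfl : i = j := m3_inj h
    rfl

private theorem g_inj : Function.Injective gI := by decide

private theorem m102_inj : Function.Injective (![1, 0, 2] : Fin 3 → Fin 3) := by decide

private theorem m120_inj : Function.Injective (![1, 2, 0] : Fin 3 → Fin 3) := by decide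

private theorem g2_inj : Function.Injective (![1, 3] : Fin 2 → Fin 7) := by decide

private theorem g_ne (i : Fin 3) (j : Fin 2) : gI i ≠ (![1, 3] : Fin 2 → Fin 7) j := by
  revert i j; decide

private theorem g_zero (i : Fin 3) : gI i ≠ 0 := by
  revert i; decide

private theorem g2_zero (i : Fin 2) : (![1, 3] : Fin 2 → Fin 7) i ≠ 0 := by
  revert i; decide

private theorem ranMap_inj (T : Finset (Fin 3)) : Function.Injective (ranMap T) := by
  rintro (⟨i, hi⟩ | i) (⟨j, hj⟩ | j) h
  · obtain rfl : i = j := g_inj h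
    rfl
  · exact absurd h (g_ne i j)
  · exact absurd h.symm (g_ne j i)
  · obtain rfl : i = j := g2_inj h
    rfl

private theorem ranMap_zero (T : Finset (Fin 3)) : (0 : Fin 7) ∉ Set.range (ranMap T) := by
  rintro ⟨i | i, h⟩
  · exact g_zero i.1 h
  · exact g2_zero i h

private theorem coe_arg (z : Fin 7 → ℝ) (i : Fin 3) :
    ((arg (z 0) (z 1) (z 2) i : ℝ) : ℂ) =
      (![1, (z 0 : ℂ) * (z 2 : ℂ), (z 0 : ℂ), (z 1 : ℂ) * (z 2 : ℂ), (z 2 : ℂ), (z 1 : ℂ)] :
        Fin 6 → ℂ) ((![1, 2, 3] : Fin 3 → Fin 6) i) := by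
  fin_cases i <;> simp [arg]

theorem dat_I (z : Fin 7 → ℝ) (hz : AlgebraicIndependent ℚ (fun i => (z i : ℂ)))
    (hpos : ∀ i, 0 < z i) (T : Finset (Fin 3)) (q : Fin 3 → ℚ) (hq : ∀ i, 0 < q i)
    (hli : LinearIndependent ℚ (fun i => Real.log (q i))) :
    Dat z (z 0) (z 1) (fun i : {i // i ∈ T} => arg (z 0) (z 1) (z 2) i)
      (fun i : {i // i ∈ T} => Real.log (q i))
      (Sum.elim (fun i : {i // i ∉ T} => arg (z 0) (z 1) (z 2) i) ![z 2, z 1])
      (Sum.elim (fun i : {i // i ∉ T} => Real.log (z (gI i)))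
        ![Real.log (z 1), Real.log (z 3)]) where
  ai := hz
  epos := hpos 0
  ppos := hpos 1
  e_mem := coe_mem_Kc z 0
  p_mem := coe_mem_Kc z 1
  v_mem i := arg_mem z i
  X_mem j := by
    rcases j with i | i
    · exact arg_mem z i
    · fin_cases i
      · exact coe_mem_Kc z 2
      · exact coe_mem_Kc z 1
  Y_mem j := by
    rcases j with i | i
    · exact exp_log_mem hpos _
    · fin_cases i
      · exact exp_log_mem hpos 1
      · exact exp_log_mem hpos 3
  w_mem i := log_mem_Lr (hq i)
  w_li := hli.comp (fun i : {i // i ∈ T} => i.1) Subtype.val_injective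
  dom := by
    convert (li_I (ai3 hz)).comp (domMap T) (domMap_inj T) using 1
    funext o
    rcases o with _ | (i | (i | i))
    · rfl
    · exact coe_arg z i
    · exact coe_arg z i
    · fin_cases i <;> rfl
  ran a b h := by
    set c : Fin 7 →₀ ℚ := Finsupp.single 0 a + b.mapDomain (ranMap T) with hc
    have hsum : (c.sum fun k r => (r : ℂ) * ((Real.log (z k) : ℝ) : ℂ)) =
        (a : ℂ) * (Real.log (z 0) : ℝ) + b.sum fun j r => (r : ℂ) *
          (((Sum.elim (fun i : {i // i ∉ T} => Real.log (z (gI i)))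
            ![Real.log (z 1), Real.log (z 3)] : {i // i ∉ T} ⊕ Fin 2 → ℝ) j : ℝ) : ℂ) := by
      rw [hc, Finsupp.sum_add_index', Finsupp.sum_single_index, Finsupp.sum_mapDomain_index]
      · congr 1
        refine Finsupp.sum_congr fun j _ => ?_
        congr 2
        rcases j with i | i
        · rfl
        · fin_cases i <;> rfl
      · intro k; simp
      · intro k r s; push_cast; ring
      · simp
      · intro k; simp
      · intro k r s; push_cast; ring
    have hc0 : c = 0 := by
      by_contra hne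
      have hai : AlgebraicIndependent ℚ
          (fun k : Fin 7 => Complex.exp ((Real.log (z k) : ℝ) : ℂ)) := by
        convert hz using 1
        funext k
        rw [← Complex.ofReal_exp, Real.exp_log (hpos k)]
      have := transcendental_monomial (F := ℚ) _ hai c hne
      rw [hsum] at this
      exact this h
    have ha : a = 0 := by
      have h1 : c 0 = 0 := by rw [hc0]; rfl
      rw [hc, Finsupp.add_apply, Finsupp.single_eq_same,
        Finsupp.mapDomain_of_notMem_range _ _ (ranMap_zero T), add_zero] at h1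
      exact h1
    refine ⟨ha, ?_⟩
    rw [hc, ha, Finsupp.single_zero, zero_add] at hc0
    exact Finsupp.mapDomain_injective (ranMap_inj T) (by rw [hc0, Finsupp.mapDomain_zero])
  log := by
    convert (li_I (ai3 hz)).comp (logMap T) (logMap_inj T) using 1
    funext o
    rcases o with _ | (i | i)
    · rfl
    · rfl
    · exact coe_arg z i

private theorem strong_aux {p : ℂ} {T : Finset (Fin 3)} {v : Fin 3 → ℂ} {x : Fin 3 → ℂ}
    (hx : AlgebraicIndependent ℚ x) (h0 : x 0 = p) (m : Fin 3 → Fin 3)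
    (hm : ∀ i ∈ T, x (m i) = v i ∧ m i ≠ 0) (hi : ∀ i ∈ T, ∀ j ∈ T, m i = m j → i = j) :
    AlgebraicIndependent ℚ
      (Sum.elim (fun _ : Unit => p) (fun i : {i // i ∈ T} => v i)) := by
  have hinj : Function.Injective
      (Sum.elim (fun _ : Unit => (0 : Fin 3)) (fun i : {i // i ∈ T} => m i)) := by
    rintro (⟨⟩ | ⟨i, hiT⟩) (⟨⟩ | ⟨j, hjT⟩) h
    · rfl
    · exact absurd h.symm (hm j hjT).2
    · exact absurd h (hm i hiT).2
    · obtain rfl : i = j := hi i hiT j hjT h
      rfl
  convert hx.comp _ hinj using 1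
  funext o
  rcases o with _ | i
  · exact h0.symm
  · exact ((hm i.1 i.2).1).symm

theorem strong_I (z : Fin 7 → ℝ) (hz : AlgebraicIndependent ℚ (fun i => (z i : ℂ)))
    (T : Finset (Fin 3)) (hT : T ≠ Finset.univ) :
    Strong (z 1) (fun i : {i // i ∈ T} => arg (z 0) (z 1) (z 2) i) := by
  obtain ⟨j, hj⟩ : ∃ j, j ∉ T := by
    by_contra h
    push Not at h
    exact hT (Finset.eq_univ_iff_forall.2 h)
  have h3 := ai3 hz
  unfold Strong
  fin_cases j
  · have hne : ∀ i ∈ T, i ≠ 0 := fun i hi h => hj (by subst h; exact hi)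
    refine strong_aux (v := fun i => ((arg (z 0) (z 1) (z 2) i : ℝ) : ℂ)) (ai_I_0 h3) rfl
      (fun i => i) ?_ ?_
    · intro i hi
      have := hne i hi
      fin_cases i
      · exact absurd rfl this
      · exact ⟨by simp [arg], by decide⟩
      · exact ⟨by simp [arg], by decide⟩
    · intro i _ j _ h
      exact h
  · have hne : ∀ i ∈ T, i ≠ 1 := fun i hi h => hj (by subst h; exact hi)
    refine strong_aux (v := fun i => ((arg (z 0) (z 1) (z 2) i : ℝ) : ℂ)) (ai_I_1 h3) rfl
      ![1, 0, 2] ?_ ?_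
    · intro i hi
      have := hne i hi
      fin_cases i
      · exact ⟨by simp [arg], by decide⟩
      · exact absurd rfl this
      · exact ⟨by simp [arg], by decide⟩
    · intro i _ j _ h
      exact m102_inj h
  · have hne : ∀ i ∈ T, i ≠ 2 := fun i hi h => hj (by subst h; exact hi)
    refine strong_aux (v := fun i => ((arg (z 0) (z 1) (z 2) i : ℝ) : ℂ)) (ai_I_2 h3) rfl
      ![1, 2, 0] ?_ ?_
    · intro i hi
      have := hne i hi
      fin_cases i
      · exact ⟨by simp [arg], by decide⟩
      · exact ⟨by simp [arg], by decide⟩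
      · exact absurd rfl this
    · intro i _ j _ h
      exact m120_inj h

theorem quad_I (z : Fin 7 → ℝ) (hz : AlgebraicIndependent ℚ (fun i => (z i : ℂ)))
    (T : Finset (Fin 3)) (hT : T = Finset.univ) :
    QuadHyp z (z 1) (fun i : {i // i ∈ T} => arg (z 0) (z 1) (z 2) i) := by
  subst hT
  refine ⟨Fin 3, ![(z 1 : ℂ), (z 0 : ℂ), (z 1 : ℂ) * (z 2 : ℂ)], 0,
    MvPolynomial.X 1 * MvPolynomial.X 2, (z 0 : ℂ) * (z 2 : ℂ), ai_I_0 (ai3 hz), ?_, ?_, ?_, ?_,
    ?_⟩
  · intro i
    fin_cases i
    · exact coe_mem_Kc z 1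
    · exact coe_mem_Kc z 0
    · exact mul_mem (coe_mem_Kc z 1) (coe_mem_Kc z 2)
  · exact mul_ne_zero (MvPolynomial.X_ne_zero _) (MvPolynomial.X_ne_zero _)
  · intro h
    have := MvPolynomial.vars_mul _ _ h
    rw [MvPolynomial.vars_X, MvPolynomial.vars_X] at this
    revert this
    decide
  · simp only [map_mul, MvPolynomial.aeval_X]
    simp
    ring
  · congr 1
    ext x
    simp only [Set.mem_union, Set.mem_insert_iff, Set.mem_singleton_iff, Set.mem_range]
    constructor
    · rintro ((h | h) | ⟨i, h⟩)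
      · exact Or.inl (Or.inl h)
      · exact Or.inr ⟨⟨0, Finset.mem_univ _⟩, by simp [arg, h]⟩
      · fin_cases i
        · exact Or.inl (Or.inr h.symm)
        · exact Or.inr ⟨⟨1, Finset.mem_univ _⟩, by rw [← h]; simp [arg]⟩
        · exact Or.inr ⟨⟨2, Finset.mem_univ _⟩, by rw [← h]; simp [arg]⟩
    · rintro ((h | h) | ⟨⟨i, hi⟩, h⟩)
      · exact Or.inl (Or.inl h)
      · exact Or.inr ⟨0, h.symm⟩
      · fin_cases i
        · exact Or.inl (Or.inr (by rw [← h]; simp [arg]))
        · exact Or.inr ⟨1, by rw [← h]; simp [arg]⟩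
        · exact Or.inr ⟨2, by rw [← h]; simp [arg]⟩

end Pool.Agent.Pat5
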