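import Mathlib
import Pool.Agent.Pat5.FactsI

/-!
# Pat5 P20: facts for the patterns with a rational sum `A = p + e`

Here `e`, `l` are algebraically independent, `A` is a rational number and `p = A - e`.

`li_II_1`, `li_II_2`: `1, e l, l, e` are linearly independent over `Qbar` by `li_monomials`; for
`(A - e) l = A l - e l` instead of `e l` the change of basis is triangular (compare coefficients:
`a + b (A l - e l) + c l + d e = 0` gives `a = 0`, `-b = 0`, `c + A b = 0`, `d = 0`).
`li_II_3`, `li_II_4`: `1, A - e, e l` and `1, A - e, (A - e) l`, the same.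

`ai_II_1`, `ai_II_2`: `ai_of_alg` with `ι = Fin 2`: `e = A - (A - e)` and `l = (e l) / e`,
`l = ((A - e) l) / (A - e)`; `A - e ≠ 0` as `e` is transcendental. `ai_II_3`: from `(e, D)` to
`(A - e, y)` where `y * D = exp (A log e)`: `e = A - (A - e)`, and `D = exp (A log e) / y`, where
`exp (A log e)` is algebraic over `ℚ(e)` by `alg_exp_rat` (`exp (log e) = e`), and `e` is in the
field generated by `A - e` and `y`.

`ran_II`: let `exp (a log e + b log (A - e))` be algebraic with rational `a`, `b`. Let `N > 0` be a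
common denominator; the `N`-th power is `e ^ (a N) * (A - e) ^ (b N)` with integer exponents,
algebraic over `ℚ`, say equal to `c ≠ 0`. Separating positive and negative exponents gives an
equality of two polynomials in `e` with coefficients in `Qbar`: `e` is transcendental over `Qbar`,
so it is an equality of polynomials in `X` (or of rational functions: `X ^ r * (A - X) ^ s = c`, with
integers `r`, `s`). Since `X` and `A - X` are coprime primes (`A ≠ 0`), `r = s = 0`: for instance
compare the orders of vanishing at `0` and at `A` (`Polynomial.rootMultiplicity`), or substitute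
`X = 0` and `X = A` in the polynomial identity.

`transc_II`: `e (A - e)` is transcendental: otherwise `e` is a root of
`X ^ 2 - A X + c` with `c` algebraic. `transc_II_pow`: `exp (A log p)` is transcendental for
transcendental `p > 0` and rational `A ≠ 0`: otherwise `p = exp (A⁻¹ (A log p))` is algebraic by
`alg_exp_rat`.
-/

set_option autoImplicit false

namespace Pool.Agent.Pat5

open Complex

variable {e l : ℂ} (A : ℚ)

private theorem isAlg_of_mem {ι : Type} {y : ι → ℂ} {x : ℂ}
    (h : x ∈ IntermediateField.adjoin ℚ (Set.range y)) :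
    IsAlgebraic (IntermediateField.adjoin ℚ (Set.range y)) x :=
  isAlgebraic_algebraMap (⟨x, h⟩ : IntermediateField.adjoin ℚ (Set.range y))

private theorem mem_y {ι : Type} (y : ι → ℂ) (i : ι) :
    y i ∈ IntermediateField.adjoin ℚ (Set.range y) :=
  IntermediateField.subset_adjoin _ _ ⟨i, rfl⟩

private theorem ratCast_mem_adj {ι : Type} (y : ι → ℂ) (A : ℚ) :
    (A : ℂ) ∈ IntermediateField.adjoin ℚ (Set.range y) := by
  have h := (IntermediateField.adjoin ℚ (Set.range y)).algebraMap_mem A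
  rwa [eq_ratCast] at h

theorem li_II_1 (h : AlgebraicIndependent ℚ ![e, l]) :
    LinearIndependent Qbar ![1, e * l, l, e] := by
  let M : Fin 4 → Fin 2 → ℕ := ![![0, 0], ![1, 1], ![0, 1], ![1, 0]]
  have hM : Function.Injective M := by decide
  have h1 := li_monomials h (fun k => Finsupp.equivFunOnFinite.symm (M k))
    (Finsupp.equivFunOnFinite.symm.injective.comp hM)
  have h2 : (![1, e * l, l, e] : Fin 4 → ℂ) = fun k =>
      (Finsupp.equivFunOnFinite.symm (M k)).prod fun i a => (![e, l] : Fin 2 → ℂ) i ^ a := by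
    funext k
    rw [Finsupp.prod_fintype _ _ fun i => pow_zero _]
    fin_cases k <;> simp [M, Fin.prod_univ_succ]
  rw [h2]
  exact h1

/-- The coefficients of a vanishing combination of `1, e l, l, e` are zero. -/
private theorem coef (h : AlgebraicIndependent ℚ ![e, l]) (a b c d : Qbar)
    (h0 : (a : ℂ) + b * (e * l) + c * l + d * e = 0) : a = 0 ∧ b = 0 ∧ c = 0 ∧ d = 0 := by
  have h1 := Fintype.linearIndependent_iff.1 (li_II_1 h) ![a, b, c, d] (by
    simp only [Fin.sum_univ_four, Matrix.cons_val_zero, Matrix.cons_val_one, Matrix.cons_val,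
      Algebra.smul_def, IntermediateField.algebraMap_apply]
    rw [mul_one]
    exact h0)
  exact ⟨h1 0, h1 1, h1 2, h1 3⟩

private theorem coe_rat (A : ℚ) : (((algebraMap ℚ Qbar A : Qbar)) : ℂ) = (A : ℂ) := by
  simp

theorem li_II_2 (h : AlgebraicIndependent ℚ ![e, l]) :
    LinearIndependent Qbar ![1, (A - e) * l, l, e] := by
  rw [Fintype.linearIndependent_iff]
  intro g hg
  simp only [Fin.sum_univ_four, Matrix.cons_val_zero, Matrix.cons_val_one, Matrix.cons_val,
    Algebra.smul_def, IntermediateField.algebraMap_apply] at hg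
  obtain ⟨h1, h2, h3, h4⟩ := coef h (g 0) (-g 1) (g 2 + algebraMap ℚ Qbar A * g 1) (g 3) (by
    push_cast [coe_rat]
    linear_combination hg)
  rw [neg_eq_zero] at h2
  rw [h2, mul_zero, add_zero] at h3
  intro i
  fin_cases i
  · exact h1
  · exact h2
  · exact h3
  · exact h4

theorem li_II_3 (h : AlgebraicIndependent ℚ ![e, l]) :
    LinearIndependent Qbar ![1, A - e, e * l] := by
  rw [Fintype.linearIndependent_iff]
  intro g hg
  simp only [Fin.sum_univ_three, Matrix.cons_val_zero, Matrix.cons_val_one, Matrix.cons_val,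
    Algebra.smul_def, IntermediateField.algebraMap_apply] at hg
  obtain ⟨h1, h2, -, h4⟩ := coef h (g 0 + algebraMap ℚ Qbar A * g 1) (g 2) 0 (-g 1) (by
    push_cast [coe_rat]
    linear_combination hg)
  rw [neg_eq_zero] at h4
  rw [h4, mul_zero, add_zero] at h1
  intro i
  fin_cases i
  · exact h1
  · exact h4
  · exact h2

theorem li_II_4 (h : AlgebraicIndependent ℚ ![e, l]) :
    LinearIndependent Qbar ![1, A - e, (A - e) * l] := by
  rw [Fintype.linearIndependent_iff]
  intro g hg
  simp only [Fin.sum_univ_three, Matrix.cons_val_zero, Matrix.cons_val_one, Matrix.cons_val,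
    Algebra.smul_def, IntermediateField.algebraMap_apply] at hg
  obtain ⟨h1, h2, -, h4⟩ := coef h (g 0 + algebraMap ℚ Qbar A * g 1) (-g 2)
    (algebraMap ℚ Qbar A * g 2) (-g 1) (by
    push_cast [coe_rat]
    linear_combination hg)
  rw [neg_eq_zero] at h4 h2
  rw [h4, mul_zero, add_zero] at h1
  intro i
  fin_cases i
  · exact h1
  · exact h4
  · exact h2

private theorem sub_ne (h : Transcendental ℚ e) : (A : ℂ) - e ≠ 0 := by
  intro h0
  refine h ?_
  rw [← sub_eq_zero.1 h0]
  have := isAlgebraic_algebraMap (R := ℚ) (A := ℂ) A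
  simpa using this

theorem ai_II_1 (h : AlgebraicIndependent ℚ ![e, l]) :
    AlgebraicIndependent ℚ ![A - e, e * l] := by
  have he : e ≠ 0 := h.ne_zero 0
  refine ai_of_alg h fun i => isAlg_of_mem ?_
  have h0 := mem_y ![A - e, e * l] 0
  have h1 := mem_y ![A - e, e * l] 1
  have h2 := sub_mem (ratCast_mem_adj ![A - e, e * l] A) h0
  have h3 : (A : ℂ) - (![A - e, e * l] : Fin 2 → ℂ) 0 = e := sub_sub_cancel (A : ℂ) e
  rw [h3] at h2
  fin_cases i
  · exact h2
  · have h4 := div_mem h1 h2
    have h5 : (![A - e, e * l] : Fin 2 → ℂ) 1 / e = l := mul_div_cancel_left₀ l he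
    rw [h5] at h4
    exact h4

theorem ai_II_2 (h : AlgebraicIndependent ℚ ![e, l]) :
    AlgebraicIndependent ℚ ![A - e, (A - e) * l] := by
  have he : (A : ℂ) - e ≠ 0 := sub_ne A (h.transcendental 0)
  refine ai_of_alg h fun i => isAlg_of_mem ?_
  have h0 := mem_y ![A - e, (A - e) * l] 0
  have h1 := mem_y ![A - e, (A - e) * l] 1
  have h2 := sub_mem (ratCast_mem_adj ![A - e, (A - e) * l] A) h0
  have h3 : (A : ℂ) - (![A - e, (A - e) * l] : Fin 2 → ℂ) 0 = e := sub_sub_cancel (A : ℂ) e
  rw [h3] at h2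
  fin_cases i
  · exact h2
  · have h4 := div_mem h1 h0
    have h5 : (![A - e, (A - e) * l] : Fin 2 → ℂ) 1 / (![A - e, (A - e) * l] : Fin 2 → ℂ) 0 = l :=
      mul_div_cancel_left₀ l he
    rw [h5] at h4
    exact h4

theorem ai_II_3 {e D y : ℝ} (he : 0 < e) (h : AlgebraicIndependent ℚ ![(e : ℂ), (D : ℂ)])
    (hy : y * D = Real.exp (A * Real.log e)) :
    AlgebraicIndependent ℚ ![((A - e : ℝ) : ℂ), (y : ℂ)] := by
  have hy0 : (y : ℂ) ≠ 0 := by
    intro h0
    rw [ofReal_eq_zero] at h0
    rw [h0, zero_mul] at hy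
    exact (Real.exp_pos _).ne hy
  refine ai_of_alg h fun i => ?_
  have h0 := mem_y ![((A - e : ℝ) : ℂ), (y : ℂ)] 0
  have h1 := mem_y ![((A - e : ℝ) : ℂ), (y : ℂ)] 1
  have h2 := sub_mem (ratCast_mem_adj ![((A - e : ℝ) : ℂ), (y : ℂ)] A) h0
  have h3 : (A : ℂ) - (![((A - e : ℝ) : ℂ), (y : ℂ)] : Fin 2 → ℂ) 0 = e := by
    simp
  rw [h3] at h2
  fin_cases i
  · exact isAlg_of_mem h2
  · have h4 : exp ((Real.log e : ℝ) : ℂ) = (e : ℂ) := by
      rw [← ofReal_exp, Real.exp_log he]
    have h5 := isAlg_of_mem h2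
    rw [← h4] at h5
    have h6 := alg_exp_rat h5 A
    have h7 : exp ((A : ℂ) * ((Real.log e : ℝ) : ℂ)) = (y : ℂ) * (D : ℂ) := by
      rw [← ofReal_mul, hy]
      push_cast
      rfl
    rw [h7] at h6
    have h8 := h6.mul (isAlg_of_mem h1).inv
    have h9 : (y : ℂ) * (D : ℂ) * ((![((A - e : ℝ) : ℂ), (y : ℂ)] : Fin 2 → ℂ) 1)⁻¹ = (D : ℂ) := by
      change (y : ℂ) * (D : ℂ) * (y : ℂ)⁻¹ = (D : ℂ)
      field_simp
    rw [h9] at h8
    exact h8

/-- A transcendental number is transcendental over the field of algebraic numbers. -/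
private theorem transc_Qbar {x : ℂ} (h : Transcendental ℚ x) : Transcendental Qbar x := by
  have h1 : AlgebraicIndependent ℚ ![x] := by
    rw [algebraicIndependent_unique_type_iff]
    exact h
  exact (ai_Qbar h1).transcendental 0

open Polynomial in
private theorem poly_aux {A c : Qbar} (hA : A ≠ 0) (hc : c ≠ 0) {r r' s s' : ℕ}
    (h : (X : Qbar[X]) ^ r * (C A - X) ^ s = C c * (X ^ r' * (C A - X) ^ s'))
    (hr : r = 0 ∨ r' = 0) (hs : s = 0 ∨ s' = 0) : (r = 0 ∧ r' = 0) ∧ (s = 0 ∧ s' = 0) := by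
  have h0 := congrArg (eval 0) h
  have h1 := congrArg (eval A) h
  simp only [eval_mul, eval_pow, eval_X, eval_sub, eval_C, sub_zero, sub_self] at h0 h1
  constructor
  · rcases hr with rfl | rfl
    · refine ⟨rfl, ?_⟩
      by_contra hne
      rw [zero_pow hne, zero_mul, mul_zero, pow_zero, one_mul] at h0
      exact pow_ne_zero _ hA h0
    · refine ⟨?_, rfl⟩
      by_contra hne
      rw [zero_pow hne, zero_mul, pow_zero, one_mul] at h0
      exact mul_ne_zero hc (pow_ne_zero _ hA) h0.symm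
  · rcases hs with rfl | rfl
    · refine ⟨rfl, ?_⟩
      by_contra hne
      rw [zero_pow hne, mul_zero, mul_zero, pow_zero, mul_one] at h1
      exact pow_ne_zero _ hA h1
    · refine ⟨?_, rfl⟩
      by_contra hne
      rw [zero_pow hne, mul_zero, pow_zero, mul_one] at h1
      exact mul_ne_zero hc (pow_ne_zero _ hA) h1.symm

open Polynomial in
private theorem int_aux {e : ℝ} (ht : Transcendental ℚ (e : ℂ)) (hA : A ≠ 0)
    (he : 0 < e) (hp : 0 < A - e) (r s : ℤ)
    (h : IsAlgebraic ℚ (((e ^ r * (A - e) ^ s : ℝ)) : ℂ)) : r = 0 ∧ s = 0 := by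
  set c : Qbar := ⟨((e ^ r * (A - e) ^ s : ℝ) : ℂ), mem_Qbar.2 h⟩ with hcdef
  have hc0 : c ≠ 0 := by
    intro h0
    have h1 : ((e ^ r * (A - e) ^ s : ℝ) : ℂ) = 0 := congrArg (fun x : Qbar => (x : ℂ)) h0
    rw [ofReal_eq_zero] at h1
    exact (mul_pos (zpow_pos he r) (zpow_pos hp s)).ne' h1
  have hA0 : (algebraMap ℚ Qbar A) ≠ 0 := by
    rw [_root_.map_ne_zero]
    exact hA
  have hreal : e ^ r.toNat * (A - e) ^ s.toNat =
      e ^ r * (A - e) ^ s * (e ^ (-r).toNat * (A - e) ^ (-s).toNat) := by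
    have h1 : ∀ (x : ℝ), x ≠ 0 → ∀ n : ℤ, x ^ n.toNat = x ^ n * x ^ (-n).toNat := by
      intro x hx n
      rw [← zpow_natCast x n.toNat, ← zpow_natCast x (-n).toNat, ← zpow_add₀ hx]
      congr 1
      omega
    rw [h1 e he.ne' r, h1 _ hp.ne' s]
    ring
  have hpoly : (X : Qbar[X]) ^ r.toNat * (C (algebraMap ℚ Qbar A) - X) ^ s.toNat =
      C c * (X ^ (-r).toNat * (C (algebraMap ℚ Qbar A) - X) ^ (-s).toNat) := by
    rw [← sub_eq_zero]
    refine (transcendental_iff.1 (transc_Qbar ht)) _ ?_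
    have h1 := congrArg (fun x : ℝ => (x : ℂ)) hreal
    simp only [map_sub, map_mul, map_pow, aeval_X, aeval_C, IntermediateField.algebraMap_apply,
      coe_rat]
    rw [sub_eq_zero, hcdef]
    push_cast at h1 ⊢
    exact h1
  have h2 := poly_aux hA0 hc0 hpoly (by omega) (by omega)
  omega

theorem ran_II {e : ℝ} (he : 0 < e) (ht : Transcendental ℚ (e : ℂ)) (hA : A ≠ 0)
    (hp : 0 < A - e) (a b : ℚ)
    (h : IsAlgebraic ℚ (Real.exp (a * Real.log e + b * Real.log (A - e)))) :
    a = 0 ∧ b = 0 := by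
  have h1 : Real.exp (a * Real.log e + b * Real.log (A - e)) ^ (a.den * b.den) =
      e ^ (a.num * b.den) * (A - e) ^ (b.num * a.den) := by
    have ha : (a.den : ℝ) * (a : ℝ) = (a.num : ℝ) := by
      have := Rat.den_mul_eq_num a
      exact_mod_cast congrArg (fun q : ℚ => (q : ℝ)) this
    have hb : (b.den : ℝ) * (b : ℝ) = (b.num : ℝ) := by
      have := Rat.den_mul_eq_num b
      exact_mod_cast congrArg (fun q : ℚ => (q : ℝ)) this
    rw [← Real.exp_nat_mul]
    have h2 : e ^ (a.num * b.den) = Real.exp ((a.num * b.den : ℤ) * Real.log e) := by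
      rw [mul_comm _ (Real.log e), Real.exp_mul, Real.exp_log he, Real.rpow_intCast]
    have h3 : (A - e : ℝ) ^ (b.num * a.den) =
        Real.exp ((b.num * a.den : ℤ) * Real.log (A - e)) := by
      rw [mul_comm _ (Real.log (A - e)), Real.exp_mul, Real.exp_log hp, Real.rpow_intCast]
    rw [h2, h3, ← Real.exp_add]
    congr 1
    push_cast
    rw [← ha, ← hb]
    ring
  have h2 := h.pow (a.den * b.den)
  rw [h1] at h2
  have h3 := (isAlgebraic_algebraMap_iff (R := ℚ) (algebraMap ℝ ℂ).injective).2 h2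
  obtain ⟨h4, h5⟩ := int_aux A ht hA he hp _ _ h3
  have h6 : a.num = 0 := by
    rcases mul_eq_zero.1 h4 with h6 | h6
    · exact h6
    · exact absurd h6 (by exact_mod_cast b.den_pos.ne')
  have h7 : b.num = 0 := by
    rcases mul_eq_zero.1 h5 with h6 | h6
    · exact h6
    · exact absurd h6 (by exact_mod_cast a.den_pos.ne')
  exact ⟨Rat.num_eq_zero.1 h6, Rat.num_eq_zero.1 h7⟩

open Polynomial in
theorem transc_II {e : ℂ} (ht : Transcendental ℚ e) : Transcendental ℚ ((A - e) * e) := by
  intro h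
  set c : Qbar := ⟨(A - e) * e, mem_Qbar.2 h⟩ with hcdef
  have h1 : aeval e ((X : Qbar[X]) ^ 2 - C (algebraMap ℚ Qbar A) * X + C c) = 0 := by
    simp only [map_sub, map_mul, map_add, map_pow, aeval_X, aeval_C,
      IntermediateField.algebraMap_apply, coe_rat]
    rw [hcdef]
    ring
  have h2 := (transcendental_iff.1 (transc_Qbar ht)) _ h1
  have h3 := congrArg (fun p => p.coeff 2) h2
  simp at h3

theorem transc_II_pow {p : ℝ} (hp : 0 < p) (ht : Transcendental ℚ (p : ℂ)) (hA : A ≠ 0) :
    Transcendental ℚ (Real.exp (A * Real.log p)) := by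
  intro h
  refine ht ?_
  have h1 := (isAlgebraic_algebraMap_iff (R := ℚ) (algebraMap ℝ ℂ).injective).2 h
  simp only [coe_algebraMap, ofReal_exp] at h1
  have h2 := alg_exp_rat h1 A⁻¹
  have h3 : exp (((A⁻¹ : ℚ) : ℂ) * ((A * Real.log p : ℝ) : ℂ)) = (p : ℂ) := by
    have hA' : (A : ℂ) ≠ 0 := by exact_mod_cast hA
    push_cast
    rw [inv_mul_cancel_left₀ hA', ← ofReal_exp, Real.exp_log hp]
  rw [h3] at h2
  exact h2

end Pool.Agent.Pat5
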