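import Mathlib
import Pool.Agent.Pat5.Dat
import Pool.Agent.Pat5.Mono
import Pool.Agent.Pat5.FactsII
import Pool.Agent.Pat5.RatNear

/-!
# Pat5 P26: the data for the patterns with a rational sum

`z = (e, l, D, C)`, `A` is a rational number, `p = A - e > 0`. The three cases: all of `e l`, `e`
free; `f (e l) = log c` with rational `c`; `f (p l) = log d` with rational `d`.

Proofs. Memberships: `A - e ∈ Kc z` etc. `w_mem`: `log_mem_Lr`. `w_li`: a family with one member
which is not zero (`linearIndependent_unique_iff`; `c ≠ 1` gives `log c ≠ 0`). `dom`: `li_II_1` or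
`li_II_2`, reindexed. `log`: `li_II_3`, `li_II_4` (or a part of it, for the first case).
`ran`: let `x = exp (a log e + b log p + d log D + c log C)` be algebraic. The numbers `D`, `C` are
algebraically independent over `Kc ![e, l]` (`ai_Kc`), and `exp (a log e + b log p)` is in
`Kc ![e, l]`, so `exp (d log D + c log C)` is in it and `d = c = 0` by `transcendental_monomial` with
`F = Kc ![e, l]`; then `a = b = 0` by `ran_II` (`A ≠ 0` as `A > e > 0`). In the second and third case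
there is no `C` (`c = 0`).
`strong`: `ai_II_1`, `ai_II_2`, or a part.
-/

set_option autoImplicit false

namespace Pool.Agent.Pat5

open Complex

variable (z : Fin 4 → ℝ) (A : ℚ)

private theorem ai01 (hz : AlgebraicIndependent ℚ (fun i => (z i : ℂ))) :
    AlgebraicIndependent ℚ ![(z 0 : ℂ), (z 1 : ℂ)] := by
  have h := hz.comp ![0, 1] (by decide)
  convert h using 1
  ext i
  fin_cases i <;> rfl

private theorem ai0123 (hz : AlgebraicIndependent ℚ (fun i => (z i : ℂ))) :
    AlgebraicIndependent ℚ (Sum.elim (fun i => ((![z 0, z 1] i : ℝ) : ℂ))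
      ![(z 2 : ℂ), (z 3 : ℂ)]) := by
  have h := hz.comp (Sum.elim ![0, 1] ![2, 3]) (by decide)
  convert h using 1
  ext i
  rcases i with i | i <;> fin_cases i <;> rfl

private theorem z0_tr (hz : AlgebraicIndependent ℚ (fun i => (z i : ℂ))) :
    Transcendental ℚ (z 0 : ℂ) := hz.transcendental 0

private theorem rat_mem {n : ℕ} (y : Fin n → ℝ) (q : ℚ) : (q : ℂ) ∈ Kc y := by
  simp

private theorem real_exp_log_mem {n : ℕ} {y : Fin n → ℝ} {x : ℝ} (hx : 0 < x)
    (h : (x : ℂ) ∈ Kc y) : exp ((Real.log x : ℝ) : ℂ) ∈ Kc y := by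
  rw [← ofReal_exp, Real.exp_log hx]
  exact h

private theorem ran_aux (hz : AlgebraicIndependent ℚ (fun i => (z i : ℂ))) (hpos : ∀ i, 0 < z i)
    (hA : 0 < A - z 0) (a b d c : ℚ)
    (h : IsAlgebraic ℚ (exp ((a : ℂ) * (Real.log (z 0) : ℝ) + (b : ℂ) * (Real.log (A - z 0) : ℝ)
      + ((d : ℂ) * (Real.log (z 2) : ℝ) + (c : ℂ) * (Real.log (z 3) : ℝ))))) :
    a = 0 ∧ b = 0 ∧ d = 0 ∧ c = 0 := by
  have h0 : (z 0 : ℂ) ∈ Kc ![z 0, z 1] := coe_mem_Kc ![z 0, z 1] 0
  have hp : ((A - z 0 : ℝ) : ℂ) ∈ Kc ![z 0, z 1] := by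
    rw [ofReal_sub, ofReal_ratCast]
    exact sub_mem (rat_mem _ A) h0
  have hu : exp ((a : ℂ) * (Real.log (z 0) : ℝ) + (b : ℂ) * (Real.log (A - z 0) : ℝ)) ∈
      Kc ![z 0, z 1] := by
    rw [exp_add]
    exact mul_mem (exp_rat_mem_Kc (real_exp_log_mem (hpos 0) h0) a)
      (exp_rat_mem_Kc (real_exp_log_mem hA hp) b)
  have hai := ai_Kc (z := ![z 0, z 1]) ![(z 2 : ℂ), (z 3 : ℂ)] (ai0123 z hz)
  have hai' : AlgebraicIndependent (Kc ![z 0, z 1])
      (fun k => exp ((![((Real.log (z 2) : ℝ) : ℂ), ((Real.log (z 3) : ℝ) : ℂ)]) k)) := by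
    convert hai using 1
    ext i
    fin_cases i
    · change exp ((Real.log (z 2) : ℝ) : ℂ) = _
      rw [← ofReal_exp, Real.exp_log (hpos 2)]
      rfl
    · change exp ((Real.log (z 3) : ℝ) : ℂ) = _
      rw [← ofReal_exp, Real.exp_log (hpos 3)]
      rfl
  have hcd : (Finsupp.equivFunOnFinite.symm ![d, c] : Fin 2 →₀ ℚ) = 0 := by
    by_contra hne
    refine transcendental_monomial _ hai' _ hne ?_
    have hsum : ((Finsupp.equivFunOnFinite.symm ![d, c] : Fin 2 →₀ ℚ).sum fun k r =>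
        (r : ℂ) * (![((Real.log (z 2) : ℝ) : ℂ), ((Real.log (z 3) : ℝ) : ℂ)]) k) =
        (d : ℂ) * (Real.log (z 2) : ℝ) + (c : ℂ) * (Real.log (z 3) : ℝ) := by
      rw [Finsupp.sum_fintype _ _ (by simp)]
      simp [Fin.sum_univ_two]
    rw [hsum]
    rw [exp_add] at h
    have h1 := h.extendScalars (S := Kc ![z 0, z 1]) (algebraMap ℚ _).injective
    have h2 : IsAlgebraic (Kc ![z 0, z 1])
        (exp ((a : ℂ) * (Real.log (z 0) : ℝ) + (b : ℂ) * (Real.log (A - z 0) : ℝ))) :=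
      isAlgebraic_algebraMap (A := ℂ) (⟨_, hu⟩ : Kc ![z 0, z 1])
    have h3 := h2.inv.mul h1
    rwa [inv_mul_cancel_left₀ (exp_ne_zero _)] at h3
  have hd : d = 0 := by
    have := DFunLike.congr_fun hcd 0
    simpa using this
  have hc : c = 0 := by
    have := DFunLike.congr_fun hcd 1
    simpa using this
  subst hd hc
  have hA0 : A ≠ 0 := by
    rintro rfl
    have := hpos 0
    rw [Rat.cast_zero] at hA
    linarith
  have h' : IsAlgebraic ℚ (Real.exp (a * Real.log (z 0) + b * Real.log (A - z 0))) := by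
    rw [← isAlgebraic_algebraMap_iff (algebraMap ℝ ℂ).injective]
    simpa using h
  have := ran_II A (hpos 0) (z0_tr z hz) hA0 hA a b h'
  exact ⟨this.1, this.2, rfl, rfl⟩

theorem dat_II_0 (hz : AlgebraicIndependent ℚ (fun i => (z i : ℂ))) (hpos : ∀ i, 0 < z i)
    (hA : 0 < A - z 0) :
    Dat z (z 0) (A - z 0) (![] : Fin 0 → ℝ) ![] ![z 1, z 0, z 0 * z 1]
      ![Real.log (A - z 0), Real.log (z 2), Real.log (z 3)] where
  ai := hz
  epos := hpos 0
  ppos := hA
  e_mem := coe_mem_Kc z 0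
  p_mem := by
    rw [ofReal_sub, ofReal_ratCast]
    exact sub_mem (rat_mem _ A) (coe_mem_Kc z 0)
  v_mem i := i.elim0
  X_mem j := by
    fin_cases j
    · exact coe_mem_Kc z 1
    · exact coe_mem_Kc z 0
    · change ((z 0 * z 1 : ℝ) : ℂ) ∈ _
      rw [ofReal_mul]
      exact mul_mem (coe_mem_Kc z 0) (coe_mem_Kc z 1)
  Y_mem j := by
    fin_cases j
    · refine real_exp_log_mem hA ?_
      rw [ofReal_sub, ofReal_ratCast]
      exact sub_mem (rat_mem _ A) (coe_mem_Kc z 0)
    · exact real_exp_log_mem (hpos 2) (coe_mem_Kc z 2)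
    · exact real_exp_log_mem (hpos 3) (coe_mem_Kc z 3)
  w_mem i := i.elim0
  w_li := linearIndependent_empty_type
  dom := by
    have h := (li_II_1 (ai01 z hz)).comp
      (fun o : Option (Fin 0 ⊕ Fin 3) => o.elim 0 (Sum.elim Fin.elim0 ![2, 3, 1])) (by decide)
    convert h using 1
    ext o
    rcases o with _ | (i | j)
    · rfl
    · exact i.elim0
    · fin_cases j
      · rfl
      · rfl
      · exact ofReal_mul _ _
  ran a b h := by
    have h' := ran_aux z A hz hpos hA a (b 0) (b 1) (b 2) (by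
      convert h using 1
      rw [Finsupp.sum_fintype _ _ (by simp)]
      simp [Fin.sum_univ_three]
      ring_nf)
    refine ⟨h'.1, ?_⟩
    ext j
    fin_cases j
    · exact h'.2.1
    · exact h'.2.2.1
    · exact h'.2.2.2
  log := by
    have h := (li_II_3 A (ai01 z hz)).comp
      (fun o : Option (Unit ⊕ Fin 0) => o.elim 0 (Sum.elim (fun _ => 1) Fin.elim0)) (by decide)
    convert h using 1
    ext o
    rcases o with _ | (i | j)
    · rfl
    · change ((A - z 0 : ℝ) : ℂ) = (A : ℂ) - (z 0 : ℂ)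
      push_cast
      rfl
    · exact j.elim0

private theorem w_li_aux {c : ℚ} (hc : 1 < c) : LinearIndependent ℚ ![Real.log c] := by
  rw [linearIndependent_unique_iff]
  change Real.log c ≠ 0
  exact (Real.log_pos (by exact_mod_cast hc)).ne'

private theorem dat_aux (hz : AlgebraicIndependent ℚ (fun i => (z i : ℂ)))
    (hpos : ∀ i, 0 < z i) (hA : 0 < A - z 0) (c : ℚ) (hc : 1 < c) (x : ℝ)
    (hx : (x : ℂ) ∈ Kc z)
    (hdom : LinearIndependent Qbar ![1, (x : ℂ), (z 1 : ℂ), (z 0 : ℂ)])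
    (hlog : LinearIndependent Qbar ![1, (A - z 0 : ℂ), (x : ℂ)]) :
    Dat z (z 0) (A - z 0) ![x] ![Real.log c] ![z 1, z 0]
      ![Real.log (A - z 0), Real.log (z 2)] where
  ai := hz
  epos := hpos 0
  ppos := hA
  e_mem := coe_mem_Kc z 0
  p_mem := by
    rw [ofReal_sub, ofReal_ratCast]
    exact sub_mem (rat_mem _ A) (coe_mem_Kc z 0)
  v_mem i := by
    fin_cases i
    exact hx
  X_mem j := by
    fin_cases j
    · exact coe_mem_Kc z 1
    · exact coe_mem_Kc z 0
  Y_mem j := by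
    fin_cases j
    · refine real_exp_log_mem hA ?_
      rw [ofReal_sub, ofReal_ratCast]
      exact sub_mem (rat_mem _ A) (coe_mem_Kc z 0)
    · exact real_exp_log_mem (hpos 2) (coe_mem_Kc z 2)
  w_mem i := by
    fin_cases i
    exact log_mem_Lr (by linarith)
  w_li := w_li_aux hc
  dom := by
    have h := hdom.comp
      (fun o : Option (Fin 1 ⊕ Fin 2) => o.elim 0 (Sum.elim ![1] ![2, 3])) (by decide)
    convert h using 1
    ext o
    rcases o with _ | (i | j)
    · rfl
    · fin_cases i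
      rfl
    · fin_cases j <;> rfl
  ran a b h := by
    have h' := ran_aux z A hz hpos hA a (b 0) (b 1) 0 (by
      convert h using 1
      rw [Finsupp.sum_fintype _ _ (by simp)]
      simp [Fin.sum_univ_two]
      ring_nf)
    refine ⟨h'.1, ?_⟩
    ext j
    fin_cases j
    · exact h'.2.1
    · exact h'.2.2.1
  log := by
    have h := hlog.comp
      (fun o : Option (Unit ⊕ Fin 1) => o.elim 0 (Sum.elim (fun _ => 1) ![2])) (by decide)
    convert h using 1
    ext o
    rcases o with _ | (i | j)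
    · rfl
    · change ((A - z 0 : ℝ) : ℂ) = (A : ℂ) - (z 0 : ℂ)
      push_cast
      rfl
    · fin_cases j
      rfl

theorem dat_II_2 (hz : AlgebraicIndependent ℚ (fun i => (z i : ℂ))) (hpos : ∀ i, 0 < z i)
    (hA : 0 < A - z 0) (c : ℚ) (hc : 1 < c) :
    Dat z (z 0) (A - z 0) ![z 0 * z 1] ![Real.log c] ![z 1, z 0]
      ![Real.log (A - z 0), Real.log (z 2)] := by
  refine dat_aux z A hz hpos hA c hc _ ?_ ?_ ?_
  · rw [ofReal_mul]
    exact mul_mem (coe_mem_Kc z 0) (coe_mem_Kc z 1)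
  · rw [ofReal_mul]
    exact li_II_1 (ai01 z hz)
  · rw [ofReal_mul]
    exact li_II_3 A (ai01 z hz)

theorem dat_II_4 (hz : AlgebraicIndependent ℚ (fun i => (z i : ℂ))) (hpos : ∀ i, 0 < z i)
    (hA : 0 < A - z 0) (d : ℚ) (hd : 1 < d) :
    Dat z (z 0) (A - z 0) ![(A - z 0) * z 1] ![Real.log d] ![z 1, z 0]
      ![Real.log (A - z 0), Real.log (z 2)] := by
  refine dat_aux z A hz hpos hA d hd _ ?_ ?_ ?_
  · rw [ofReal_mul, ofReal_sub, ofReal_ratCast]
    exact mul_mem (sub_mem (rat_mem _ A) (coe_mem_Kc z 0)) (coe_mem_Kc z 1)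
  · rw [ofReal_mul, ofReal_sub, ofReal_ratCast]
    exact li_II_2 A (ai01 z hz)
  · rw [ofReal_mul, ofReal_sub, ofReal_ratCast]
    exact li_II_4 A (ai01 z hz)

theorem strong_II_0 (hz : AlgebraicIndependent ℚ (fun i => (z i : ℂ))) :
    Strong (A - z 0) (![] : Fin 0 → ℝ) := by
  have h := (ai_II_1 A (ai01 z hz)).comp
    (Sum.elim (fun _ : Unit => 0) (Fin.elim0 : Fin 0 → Fin 2)) (by decide)
  unfold Strong
  convert h using 1
  ext i
  rcases i with i | i
  · change ((A - z 0 : ℝ) : ℂ) = (A : ℂ) - (z 0 : ℂ)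
    push_cast
    rfl
  · exact i.elim0

theorem strong_II_2 (hz : AlgebraicIndependent ℚ (fun i => (z i : ℂ))) :
    Strong (A - z 0) ![z 0 * z 1] := by
  have h := (ai_II_1 A (ai01 z hz)).comp
    (Sum.elim (fun _ : Unit => 0) (fun _ : Fin 1 => 1)) (by decide)
  unfold Strong
  convert h using 1
  ext i
  rcases i with i | i
  · change ((A - z 0 : ℝ) : ℂ) = (A : ℂ) - (z 0 : ℂ)
    push_cast
    rfl
  · fin_cases i
    exact ofReal_mul _ _

theorem strong_II_4 (hz : AlgebraicIndependent ℚ (fun i => (z i : ℂ))) :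
    Strong (A - z 0) ![(A - z 0) * z 1] := by
  have h := (ai_II_2 A (ai01 z hz)).comp
    (Sum.elim (fun _ : Unit => 0) (fun _ : Fin 1 => 1)) (by decide)
  unfold Strong
  convert h using 1
  ext i
  rcases i with i | i
  · change ((A - z 0 : ℝ) : ℂ) = (A : ℂ) - (z 0 : ℂ)
    push_cast
    rfl
  · fin_cases i
    change (((A - z 0) * z 1 : ℝ) : ℂ) = ((A : ℂ) - (z 0 : ℂ)) * (z 1 : ℂ)
    push_cast
    rfl

end Pool.Agent.Pat5
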