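import Mathlib
import Pool.Agent.Pat5.FactsI

/-!
# Pat5 P21: facts for the patterns with a rational product `B = p e`

Here `e`, `l` are algebraically independent, `B` is a rational number, `B ≠ 0`, and `p = B / e`.

`li_III`: multiply a relation between `1, l + 1, e l, e, (B / e) l, B / e` by `e`; the numbers
`e, e l + e, e^2 l, e^2, B l, B` are linearly independent over `Qbar` by `li_monomials` for
`e, e l, e^2 l, e^2, l, 1` and a triangular change of basis. `li_III_log`: the same for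
`1, B / e, l + 1, x` with `x` one of `e l`, `e`, `(B / e) l` are subfamilies (they are not stated).

`ai_III_0`: `(B / e, l + 1)`; `ai_III_1`: `(B / e, l)`; `ai_III_2`: `(B / e, (B / e) l)`:
`ai_of_alg` with `ι = Fin 2`; `e = B / (B / e)`, `l = (l + 1) - 1`, `l = ((B / e) l) / (B / e)`.

`transc_III`: `B / e + e` is transcendental: otherwise `e` is a root of `X ^ 2 - c X + B` with
`c` algebraic.
-/

set_option autoImplicit false

namespace Pool.Agent.Pat5

variable {e l : ℂ} (B : ℚ)

/-- Exponents of the six monomials. -/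
private def fiii_m : Fin 6 → Fin 2 → ℕ :=
  ![![1, 0], ![1, 1], ![2, 1], ![2, 0], ![0, 1], ![0, 0]]

private theorem fiii_inj : Function.Injective fiii_m := by
  unfold fiii_m
  decide

private theorem fiii_mono (h : AlgebraicIndependent ℚ ![e, l]) :
    LinearIndependent Qbar ![e, e * l, e ^ 2 * l, e ^ 2, l, 1] := by
  have h1 := li_monomials h (fun k : Fin 6 => Finsupp.equivFunOnFinite.symm (fiii_m k))
    (Finsupp.equivFunOnFinite.symm.injective.comp fiii_inj)
  have h2 : (fun k : Fin 6 => (Finsupp.equivFunOnFinite.symm (fiii_m k)).prod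
      fun i a => (![e, l] : Fin 2 → ℂ) i ^ a) = ![e, e * l, e ^ 2 * l, e ^ 2, l, 1] := by
    funext k
    rw [Finsupp.prod_fintype _ _ (fun i => pow_zero _), Fin.prod_univ_two]
    fin_cases k <;> simp [fiii_m]
  rw [h2] at h1
  exact h1

private theorem fiii_ne (h : AlgebraicIndependent ℚ ![e, l]) : e ≠ 0 ∧ l ≠ 0 :=
  ⟨h.ne_zero 0, h.ne_zero 1⟩

theorem li_III (hB : B ≠ 0) (h : AlgebraicIndependent ℚ ![e, l]) :
    LinearIndependent Qbar ![1, l + 1, e * l, e, B / e * l, B / e] := by
  have he : e ≠ 0 := (fiii_ne h).1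
  have hm := fiii_mono h
  rw [Fintype.linearIndependent_iff] at hm ⊢
  intro g hg
  have hBq : ((B : Qbar)) ≠ 0 := by exact_mod_cast hB
  have h1 := hm ![g 0 + g 1, g 1, g 2, g 3, g 4 * (B : Qbar), g 5 * (B : Qbar)] (by
    have h2 : e * ∑ i, g i • (![1, l + 1, e * l, e, B / e * l, B / e] : Fin 6 → ℂ) i = 0 := by
      rw [hg, mul_zero]
    rw [← h2]
    simp only [Fin.sum_univ_six, Matrix.cons_val, Algebra.smul_def, map_add, map_mul,
      map_ratCast]
    field_simp
    ring)
  have h3 : g 1 = 0 := h1 1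
  have h4 : g 0 + g 1 = 0 := h1 0
  have h5 : g 2 = 0 := h1 2
  have h6 : g 3 = 0 := h1 3
  have h7 : g 4 * (B : Qbar) = 0 := h1 4
  have h8 : g 5 * (B : Qbar) = 0 := h1 5
  have h9 : g 4 = 0 := (mul_eq_zero.1 h7).resolve_right hBq
  have h10 : g 5 = 0 := (mul_eq_zero.1 h8).resolve_right hBq
  rw [h3, add_zero] at h4
  intro i
  fin_cases i
  · exact h4
  · exact h3
  · exact h5
  · exact h6
  · exact h9
  · exact h10

private theorem fiii_alg {x y : Fin 2 → ℂ} (i : Fin 2)
    (h : x i ∈ IntermediateField.adjoin ℚ (Set.range y)) :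
    IsAlgebraic (IntermediateField.adjoin ℚ (Set.range y)) (x i) :=
  isAlgebraic_algebraMap (⟨x i, h⟩ : IntermediateField.adjoin ℚ (Set.range y))

private theorem fiii_rat (K : IntermediateField ℚ ℂ) : (B : ℂ) ∈ K := by
  have h := K.algebraMap_mem B
  rw [eq_ratCast] at h
  exact h

private theorem fiii_e (hB : B ≠ 0) (he : e ≠ 0) (K : IntermediateField ℚ ℂ)
    (h : (B / e : ℂ) ∈ K) : e ∈ K := by
  have hB' : (B : ℂ) ≠ 0 := by exact_mod_cast hB
  have h1 : (B : ℂ) / (B / e) = e := by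
    field_simp
  rw [← h1]
  exact K.div_mem (fiii_rat B K) h

theorem ai_III_0 (hB : B ≠ 0) (h : AlgebraicIndependent ℚ ![e, l]) :
    AlgebraicIndependent ℚ ![B / e, l + 1] := by
  have he : e ≠ 0 := (fiii_ne h).1
  refine ai_of_alg h fun i => fiii_alg i ?_
  have h0 : (B / e : ℂ) ∈ IntermediateField.adjoin ℚ (Set.range ![(B / e : ℂ), l + 1]) :=
    IntermediateField.subset_adjoin _ _ ⟨0, rfl⟩
  have h1 : (l + 1 : ℂ) ∈ IntermediateField.adjoin ℚ (Set.range ![(B / e : ℂ), l + 1]) :=
    IntermediateField.subset_adjoin _ _ ⟨1, rfl⟩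
  fin_cases i
  · exact fiii_e B hB he _ h0
  · have h2 : l + 1 - 1 = l := by ring
    have h3 := sub_mem h1 (one_mem _)
    rw [h2] at h3
    exact h3

theorem ai_III_1 (hB : B ≠ 0) (h : AlgebraicIndependent ℚ ![e, l]) :
    AlgebraicIndependent ℚ ![B / e, l] := by
  have he : e ≠ 0 := (fiii_ne h).1
  refine ai_of_alg h fun i => fiii_alg i ?_
  have h0 : (B / e : ℂ) ∈ IntermediateField.adjoin ℚ (Set.range ![(B / e : ℂ), l]) :=
    IntermediateField.subset_adjoin _ _ ⟨0, rfl⟩
  have h1 : (l : ℂ) ∈ IntermediateField.adjoin ℚ (Set.range ![(B / e : ℂ), l]) :=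
    IntermediateField.subset_adjoin _ _ ⟨1, rfl⟩
  fin_cases i
  · exact fiii_e B hB he _ h0
  · exact h1

theorem ai_III_2 (hB : B ≠ 0) (h : AlgebraicIndependent ℚ ![e, l]) :
    AlgebraicIndependent ℚ ![B / e, B / e * l] := by
  have he : e ≠ 0 := (fiii_ne h).1
  have hB' : (B : ℂ) ≠ 0 := by exact_mod_cast hB
  refine ai_of_alg h fun i => fiii_alg i ?_
  have h0 : (B / e : ℂ) ∈ IntermediateField.adjoin ℚ (Set.range ![(B / e : ℂ), B / e * l]) :=
    IntermediateField.subset_adjoin _ _ ⟨0, rfl⟩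
  have h1 : (B / e * l : ℂ) ∈ IntermediateField.adjoin ℚ (Set.range ![(B / e : ℂ), B / e * l]) :=
    IntermediateField.subset_adjoin _ _ ⟨1, rfl⟩
  fin_cases i
  · exact fiii_e B hB he _ h0
  · have h2 : B / e * l / (B / e) = l := by
      field_simp
    have h3 := div_mem h1 h0
    rw [h2] at h3
    exact h3

theorem transc_III (hB : B ≠ 0) {e : ℂ} (ht : Transcendental ℚ e) :
    Transcendental ℚ (B / e + e) := by
  intro hc
  apply ht
  have he : e ≠ 0 := by
    rintro rfl
    exact ht isAlgebraic_zero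
  let c : Qbar := ⟨B / e + e, mem_Qbar.2 hc⟩
  have h1 : IsAlgebraic Qbar e := by
    refine ⟨Polynomial.X ^ 2 - Polynomial.C c * Polynomial.X + Polynomial.C (B : Qbar), ?_, ?_⟩
    · intro h
      have h2 := congrArg (fun P => Polynomial.coeff P 2) h
      simp at h2
    · have h3 : (algebraMap Qbar ℂ) c = B / e + e := rfl
      simp only [map_add, map_sub, map_pow, map_mul, Polynomial.aeval_X, Polynomial.aeval_C, h3,
        map_ratCast]
      field_simp
      ring
  have h4 : Algebra.IsAlgebraic ℚ Qbar := by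
    refine ⟨fun x => ?_⟩
    have hx : IsAlgebraic ℚ (algebraMap Qbar ℂ x) := mem_Qbar.1 x.2
    exact (isAlgebraic_algebraMap_iff (algebraMap Qbar ℂ).injective).1 hx
  exact h1.restrictScalars ℚ

end Pool.Agent.Pat5
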