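import Mathlib
import Pool.Agent.Pat5.DatI
import Pool.Agent.Pat5.FactsIII

/-!
# Pat5 P28: the data for the patterns with a rational product

`z = (e, l, G, c0, c1, c2)`, `q 0 = B` is a rational number, `p = B / e`. The index `none` of the
first family belongs to `l + 1`, with `f (l + 1) = log B`; the index `some i` with `i ∈ T` to
`f (arg i) = log (q (i + 1))`; for `i ∉ T`, `f (arg i) = log (z (gIII i))`, and `f p = log G`.

Proof of `dat_III`: as for `dat_I`. `dom`: `li_III` for `e = z 0`, `l = z 1`, composed with an injective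
map to `Fin 6` (`none ↦ 0`, `l + 1 ↦ 1`, `arg i ↦ i + 2`, `p ↦ 5`); note that
`arg e p l = ![e l, e, (B / e) l]`. `log`: a subfamily. `w_li`: a subfamily of `hli`. `ran`: the
number is `exp (∑ c k * log (z k))`, `transcendental_monomial` with `F = ℚ`.

`strong_III`: `ai_III_0`. `quad_III`: `T = {j}`.
 * `j = 0`: `x = ![p, l]` (`ai_III_1`), `i0 = 0`, `Y = e l`, `m = C B * X 1`;
 * `j = 1`: `x = ![p, l]`, `i0 = 0`, `Y = e`, `m = C B`;
 * `j = 2`: `x = ![p, p l]` (`ai_III_2`), `i0 = 0`, `Y = l`, `m = X 1`.
The spans: `l` and `l + 1` differ by `1`.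
-/

set_option autoImplicit false

namespace Pool.Agent.Pat5

/-- The positions of the generic numbers. -/
def gIII : Fin 3 → Fin 6 := ![3, 4, 5]

private theorem arg_mem_Kc {n : ℕ} (z : Fin n → ℝ) {e p l : ℝ} (he : (e : ℂ) ∈ Kc z)
    (hp : (p : ℂ) ∈ Kc z) (hl : (l : ℂ) ∈ Kc z) (i : Fin 3) : ((arg e p l i : ℝ) : ℂ) ∈ Kc z := by
  fin_cases i
  · simpa [arg] using mul_mem he hl
  · simpa [arg] using he
  · simpa [arg] using mul_mem hp hl

private theorem rat_mem_Kc {n : ℕ} (z : Fin n → ℝ) (r : ℚ) : (r : ℂ) ∈ Kc z := by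
  have := (Kc z).algebraMap_mem r
  simpa using this

private theorem quot_mem_Kc {n : ℕ} (z : Fin n → ℝ) (r : ℚ) (i : Fin n) :
    ((r / z i : ℝ) : ℂ) ∈ Kc z := by
  have := div_mem (rat_mem_Kc z r) (coe_mem_Kc z i)
  simpa using this

private theorem ai_pair {z : Fin 6 → ℝ} (hz : AlgebraicIndependent ℚ (fun i => (z i : ℂ))) :
    AlgebraicIndependent ℚ ![(z 0 : ℂ), (z 1 : ℂ)] := by
  have h := hz.comp ![(0 : Fin 6), 1] (by decide)
  convert h using 1
  funext i
  fin_cases i <;> rfl

private theorem gIII_inj : Function.Injective gIII := by decide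

private theorem gIII_ne_zero (i : Fin 3) : gIII i ≠ 0 := by revert i; decide

private theorem gIII_ne_two (i : Fin 3) : gIII i ≠ 2 := by revert i; decide

/-- The position of the argument with the index `i` in the family `li_III`. -/
private def posIII : Fin 3 → Fin 6 := ![2, 3, 4]

private theorem posIII_inj : Function.Injective posIII := by decide

private theorem posIII_ne (i : Fin 3) : posIII i ≠ 0 ∧ posIII i ≠ 1 ∧ posIII i ≠ 5 := by
  revert i; decide

private theorem li_at {e l : ℝ} (B : ℚ) (i : Fin 3) :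
    (![1, (l : ℂ) + 1, (e : ℂ) * l, (e : ℂ), (B : ℂ) / e * l, (B : ℂ) / e] : Fin 6 → ℂ)
      (posIII i) = ((arg e ((B : ℝ) / e) l i : ℝ) : ℂ) := by
  fin_cases i <;> simp [posIII, arg]

theorem dat_III (z : Fin 6 → ℝ) (hz : AlgebraicIndependent ℚ (fun i => (z i : ℂ)))
    (hpos : ∀ i, 0 < z i) (T : Finset (Fin 3)) (q : Fin 4 → ℚ) (hq : ∀ i, 0 < q i)
    (hli : LinearIndependent ℚ (fun i => Real.log (q i))) :
    Dat z (z 0) (q 0 / z 0)
      (fun o : Option {i // i ∈ T} => o.elim (z 1 + 1) fun i => arg (z 0) (q 0 / z 0) (z 1) i)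
      (fun o : Option {i // i ∈ T} => o.elim (Real.log (q 0)) fun i =>
        Real.log (q (Fin.succ i)))
      (Sum.elim (fun i : {i // i ∉ T} => arg (z 0) (q 0 / z 0) (z 1) i)
        (fun _ : Unit => q 0 / z 0))
      (Sum.elim (fun i : {i // i ∉ T} => Real.log (z (gIII i)))
        (fun _ : Unit => Real.log (z 2))) := by
  have hq0 : (0 : ℝ) < (q 0 : ℝ) := by exact_mod_cast hq 0
  have hB : q 0 ≠ 0 := (hq 0).ne'
  have hlin := li_III (q 0) hB (ai_pair hz)
  have hp := quot_mem_Kc z (q 0) 0
  have harg := arg_mem_Kc z (coe_mem_Kc z 0) hp (coe_mem_Kc z 1)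
  have hexp : ∀ k, Complex.exp ((Real.log (z k) : ℝ) : ℂ) = (z k : ℂ) := by
    intro k
    rw [← Complex.ofReal_exp, Real.exp_log (hpos k)]
  refine
    { ai := hz
      epos := hpos 0
      ppos := div_pos hq0 (hpos 0)
      e_mem := coe_mem_Kc z 0
      p_mem := hp
      v_mem := ?_
      X_mem := ?_
      Y_mem := ?_
      w_mem := ?_
      w_li := ?_
      dom := ?_
      ran := ?_
      log := ?_ }
  · rintro (_ | i)
    · simpa using add_mem (coe_mem_Kc z 1) (one_mem (Kc z))
    · exact harg i
  · rintro (i | _)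
    · exact harg i
    · exact hp
  · rintro (i | _)
    · simp only [Sum.elim_inl]
      rw [hexp]
      exact coe_mem_Kc z _
    · simp only [Sum.elim_inr]
      rw [hexp]
      exact coe_mem_Kc z _
  · rintro (_ | i)
    · exact log_mem_Lr (hq 0)
    · exact log_mem_Lr (hq _)
  · have h := hli.comp (fun o : Option {i // i ∈ T} => o.elim 0 fun i => Fin.succ (i : Fin 3)) (by
      rintro (_ | i) (_ | j) h
      · rfl
      · exact absurd h (Fin.succ_ne_zero _).symm
      · exact absurd h (Fin.succ_ne_zero _)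
      · simp only [Option.elim_some] at h
        rw [Subtype.ext (Fin.succ_injective _ h)])
    convert h using 1
    funext o
    cases o <;> rfl
  · let g : Option (Option {i // i ∈ T} ⊕ ({i // i ∉ T} ⊕ Unit)) → Fin 6 := fun o =>
      o.elim 0 (Sum.elim (fun o => o.elim 1 fun i => posIII i)
        (Sum.elim (fun i => posIII i) fun _ => 5))
    have hg : Function.Injective g := by
      rintro (_ | (_ | i) | i | _) (_ | (_ | j) | j | _) h
      all_goals first
        | rfl
        | exact absurd (show (0 : Fin 6) = 1 from h) (by decide)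
        | exact absurd (show (0 : Fin 6) = 5 from h) (by decide)
        | exact absurd (show (1 : Fin 6) = 0 from h) (by decide)
        | exact absurd (show (1 : Fin 6) = 5 from h) (by decide)
        | exact absurd (show (5 : Fin 6) = 0 from h) (by decide)
        | exact absurd (show (5 : Fin 6) = 1 from h) (by decide)
        | exact absurd (show (0 : Fin 6) = 2 from h) (by decide)
        | exact absurd (show (2 : Fin 6) = 0 from h) (by decide)
        | exact absurd (show (0 : Fin 2) = 1 from h) (by decide)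
        | exact absurd (show (1 : Fin 2) = 0 from h) (by decide)
        | exact absurd h.symm (posIII_ne _).1
        | exact absurd h (posIII_ne _).1
        | exact absurd h.symm (posIII_ne _).2.1
        | exact absurd h (posIII_ne _).2.1
        | exact absurd h.symm (posIII_ne _).2.2
        | exact absurd h (posIII_ne _).2.2
        | (have h2 := posIII_inj h
           first
            | rw [Subtype.ext h2]
            | exact absurd (by rw [← show (i : Fin 3) = (j : Fin 3) from h2]; exact i.2) j.2
            | exact absurd (by rw [show (i : Fin 3) = (j : Fin 3) from h2]; exact j.2) i.2)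
    have h := hlin.comp g hg
    convert h using 1
    funext o
    rcases o with _ | (_ | i) | i | _
    · rfl
    · simp [g]
    · exact (li_at (q 0) _).symm
    · exact (li_at (q 0) _).symm
    · simp [g]
  · intro a b hab
    let ι : Option ({i // i ∉ T} ⊕ Unit) → Fin 6 := fun o =>
      o.elim 0 (Sum.elim (fun i => gIII i) fun _ => 2)
    have hι : Function.Injective ι := by
      rintro (_ | i | _) (_ | j | _) h
      all_goals first
        | rfl
        | exact absurd (show (0 : Fin 6) = 1 from h) (by decide)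
        | exact absurd (show (0 : Fin 6) = 5 from h) (by decide)
        | exact absurd (show (1 : Fin 6) = 0 from h) (by decide)
        | exact absurd (show (1 : Fin 6) = 5 from h) (by decide)
        | exact absurd (show (5 : Fin 6) = 0 from h) (by decide)
        | exact absurd (show (5 : Fin 6) = 1 from h) (by decide)
        | exact absurd (show (0 : Fin 6) = 2 from h) (by decide)
        | exact absurd (show (2 : Fin 6) = 0 from h) (by decide)
        | exact absurd (show (0 : Fin 2) = 1 from h) (by decide)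
        | exact absurd (show (1 : Fin 2) = 0 from h) (by decide)
        | exact absurd h.symm (gIII_ne_zero _)
        | exact absurd h (gIII_ne_zero _)
        | exact absurd h.symm (gIII_ne_two _)
        | exact absurd h (gIII_ne_two _)
        | rw [Subtype.ext (gIII_inj h)]
    have h := hz.comp ι hι
    have h' : AlgebraicIndependent ℚ
        (fun k => Complex.exp ((fun k => ((Real.log (z (ι k)) : ℝ) : ℂ)) k)) := by
      convert h using 1
      funext k
      exact hexp _
    have hs : ((Finsupp.optionElim a b).sum fun k r =>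
        (r : ℂ) * ((Real.log (z (ι k)) : ℝ) : ℂ)) = (a : ℂ) * (Real.log (z 0) : ℝ) +
        b.sum fun j r => (r : ℂ) * ((Sum.elim (fun i : {i // i ∉ T} => Real.log (z (gIII i)))
          (fun _ : Unit => Real.log (z 2)) j : ℝ) : ℂ) := by
      rw [Finsupp.sum_option_index _ _ (by simp) (by intro o b1 b2; push_cast; ring),
        Finsupp.some_optionElim, Finsupp.optionElim_apply_none]
      congr 1
      refine Finsupp.sum_congr fun k _ => ?_
      rcases k with k | k <;> rfl
    have hc : Finsupp.optionElim a b = 0 := by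
      by_contra hne
      have ht := transcendental_monomial _ h' _ hne
      rw [hs] at ht
      exact ht hab
    constructor
    · have := DFunLike.congr_fun hc none
      rwa [Finsupp.optionElim_apply_none] at this
    · have := congrArg Finsupp.some hc
      rwa [Finsupp.some_optionElim, Finsupp.some_zero] at this
  · let g : Option (Unit ⊕ Option {i // i ∈ T}) → Fin 6 := fun o =>
      o.elim 0 (Sum.elim (fun _ => 5) (fun o => o.elim 1 fun i => posIII i))
    have hg : Function.Injective g := by
      rintro (_ | _ | _ | i) (_ | _ | _ | j) h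
      all_goals first
        | rfl
        | exact absurd (show (0 : Fin 6) = 1 from h) (by decide)
        | exact absurd (show (0 : Fin 6) = 5 from h) (by decide)
        | exact absurd (show (1 : Fin 6) = 0 from h) (by decide)
        | exact absurd (show (1 : Fin 6) = 5 from h) (by decide)
        | exact absurd (show (5 : Fin 6) = 0 from h) (by decide)
        | exact absurd (show (5 : Fin 6) = 1 from h) (by decide)
        | exact absurd (show (0 : Fin 6) = 2 from h) (by decide)
        | exact absurd (show (2 : Fin 6) = 0 from h) (by decide)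
        | exact absurd (show (0 : Fin 2) = 1 from h) (by decide)
        | exact absurd (show (1 : Fin 2) = 0 from h) (by decide)
        | exact absurd h.symm (posIII_ne _).1
        | exact absurd h (posIII_ne _).1
        | exact absurd h.symm (posIII_ne _).2.1
        | exact absurd h (posIII_ne _).2.1
        | exact absurd h.symm (posIII_ne _).2.2
        | exact absurd h (posIII_ne _).2.2
        | rw [Subtype.ext (posIII_inj h)]
    have h := hlin.comp g hg
    convert h using 1
    funext o
    rcases o with _ | _ | _ | i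
    · rfl
    · simp [g]
    · simp [g]
    · exact (li_at (q 0) _).symm

theorem strong_III (z : Fin 6 → ℝ) (hz : AlgebraicIndependent ℚ (fun i => (z i : ℂ)))
    (B : ℚ) (hB : 0 < B) :
    Strong (B / z 0) (fun o : Option {i // i ∈ (∅ : Finset (Fin 3))} =>
      o.elim (z 1 + 1) fun i => arg (z 0) (B / z 0) (z 1) i) := by
  have h := (ai_III_0 B hB.ne' (ai_pair hz)).comp
    (Sum.elim (fun _ : Unit => (0 : Fin 2))
      (fun _ : Option {i // i ∈ (∅ : Finset (Fin 3))} => 1)) (by
      rintro (_ | _ | i) (_ | _ | j) h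
      all_goals first
        | rfl
        | exact absurd (show (0 : Fin 2) = 1 from h) (by decide)
        | exact absurd (show (1 : Fin 2) = 0 from h) (by decide)
        | exact absurd i.2 (Finset.notMem_empty _)
        | exact absurd j.2 (Finset.notMem_empty _))
  rw [Strong]
  convert h using 1
  funext o
  rcases o with _ | _ | i
  · simp
  · simp
  · exact absurd i.2 (Finset.notMem_empty _)

private theorem span_III {S : Set ℂ} {P Y a b : ℂ} (hP : P ∈ S) (hY : Y ∈ Submodule.span Qbar S)
    (ha : a ∈ Submodule.span Qbar S) (hb : b ∈ Submodule.span Qbar S) (h1 : (1 : ℂ) ∈ S)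
    (hS : ∀ x ∈ S, x ∈ Submodule.span Qbar ({1, Y} ∪ Set.range ![a, b])) :
    Submodule.span Qbar ({1, Y} ∪ Set.range ![a, b]) = Submodule.span Qbar S := by
  have _ := hP
  refine Submodule.span_eq_span ?_ hS
  rintro x ((rfl | rfl) | ⟨i, rfl⟩)
  · exact Submodule.subset_span h1
  · exact hY
  · fin_cases i
    · exact ha
    · exact hb

private theorem mem_span_one {S : Set ℂ} {x : ℂ} (h1 : (1 : ℂ) ∈ S)
    (hx : x + 1 ∈ Submodule.span Qbar S) : x ∈ Submodule.span Qbar S := by
  have h := sub_mem hx (Submodule.subset_span (R := Qbar) h1)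
  simpa using h

theorem quad_III (z : Fin 6 → ℝ) (hz : AlgebraicIndependent ℚ (fun i => (z i : ℂ)))
    (B : ℚ) (hB : 0 < B) (j : Fin 3) :
    QuadHyp z (B / z 0) (fun o : Option {i // i ∈ ({j} : Finset (Fin 3))} =>
      o.elim (z 1 + 1) fun i => arg (z 0) (B / z 0) (z 1) i) := by
  have hz0 : (z 0 : ℂ) ≠ 0 := by
    intro h0
    have h := hz.ne_zero 0
    exact h h0
  have hB0 : B ≠ 0 := hB.ne'
  have hpair := ai_pair hz
  have hp : (B : ℂ) / (z 0 : ℂ) ∈ Kc z := div_mem (rat_mem_Kc z B) (coe_mem_Kc z 0)
  have hcast : ((B / z 0 : ℝ) : ℂ) = (B : ℂ) / (z 0 : ℂ) := by simp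
  set S : Set ℂ := {1, ((B / z 0 : ℝ) : ℂ)} ∪
    Set.range (fun o : Option {i // i ∈ ({j} : Finset (Fin 3))} =>
      (((o.elim (z 1 + 1) fun i => arg (z 0) (B / z 0) (z 1) i : ℝ)) : ℂ)) with hS
  have h1S : (1 : ℂ) ∈ S := Or.inl (Or.inl rfl)
  have hpS : (B : ℂ) / (z 0 : ℂ) ∈ S := Or.inl (Or.inr hcast.symm)
  have hl1 : (z 1 : ℂ) + 1 ∈ S := Or.inr ⟨none, by simp⟩
  have hl : (z 1 : ℂ) ∈ Submodule.span Qbar S := mem_span_one h1S (Submodule.subset_span hl1)
  have hjS : ((arg (z 0) (B / z 0) (z 1) j : ℝ) : ℂ) ∈ S :=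
    Or.inr ⟨some ⟨j, Finset.mem_singleton_self j⟩, rfl⟩
  have hSall : ∀ V : Submodule Qbar ℂ, (1 : ℂ) ∈ V → (B : ℂ) / (z 0 : ℂ) ∈ V →
      (z 1 : ℂ) + 1 ∈ V → ((arg (z 0) (B / z 0) (z 1) j : ℝ) : ℂ) ∈ V → ∀ x ∈ S, x ∈ V := by
    intro V v1 v2 v3 v4 x hx
    rcases hx with (rfl | hx) | ⟨o, rfl⟩
    · exact v1
    · rw [Set.mem_singleton_iff] at hx
      rw [hx, hcast]
      exact v2
    · rcases o with _ | ⟨i, hi⟩
      · simpa using v3
      · have hij : i = j := Finset.mem_singleton.mp hi
        subst hij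
        exact v4
  have hC : ((algebraMap ℚ Qbar B : Qbar) : ℂ) = (B : ℂ) := by
    simp
  fin_cases j
  · have ha : ((arg (z 0) (B / z 0) (z 1) 0 : ℝ) : ℂ) = (z 0 : ℂ) * (z 1 : ℂ) := by simp [arg]
    refine ⟨Fin 2, ![(B : ℂ) / (z 0 : ℂ), (z 1 : ℂ)], 0,
      MvPolynomial.C (algebraMap ℚ Qbar B) * MvPolynomial.X 1, (z 0 : ℂ) * (z 1 : ℂ),
      ai_III_1 B hB0 hpair, ?_, ?_, ?_, ?_, ?_⟩
    · intro i
      fin_cases i
      · exact hp
      · exact coe_mem_Kc z 1
    · refine mul_ne_zero ?_ (MvPolynomial.X_ne_zero _)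
      rw [Ne, MvPolynomial.C_eq_zero, map_eq_zero]
      exact hB0
    · intro hmem
      rw [MvPolynomial.vars_C_mul _ (by rw [Ne, map_eq_zero]; exact hB0),
        MvPolynomial.vars_X] at hmem
      exact absurd (Finset.mem_singleton.mp hmem) (by decide)
    · simp only [map_mul, MvPolynomial.aeval_C, MvPolynomial.aeval_X, Matrix.cons_val_zero,
        Matrix.cons_val_one]
      rw [show (algebraMap Qbar ℂ) (algebraMap ℚ Qbar B) = (B : ℂ) from hC]
      field_simp
    · refine span_III hpS ?_ (Submodule.subset_span hpS) hl h1S ?_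
      · rw [← ha]
        exact Submodule.subset_span hjS
      · refine hSall _ (Submodule.subset_span (Or.inl (Or.inl rfl)))
          (Submodule.subset_span (Or.inr ⟨0, rfl⟩)) ?_ ?_
        · exact add_mem (Submodule.subset_span (Or.inr ⟨1, rfl⟩))
            (Submodule.subset_span (Or.inl (Or.inl rfl)))
        · change ((arg (z 0) (B / z 0) (z 1) 0 : ℝ) : ℂ) ∈ _
          rw [ha]
          exact Submodule.subset_span (Or.inl (Or.inr rfl))
  · have ha : ((arg (z 0) (B / z 0) (z 1) 1 : ℝ) : ℂ) = (z 0 : ℂ) := by simp [arg]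
    refine ⟨Fin 2, ![(B : ℂ) / (z 0 : ℂ), (z 1 : ℂ)], 0,
      MvPolynomial.C (algebraMap ℚ Qbar B), (z 0 : ℂ), ai_III_1 B hB0 hpair, ?_, ?_, ?_, ?_, ?_⟩
    · intro i
      fin_cases i
      · exact hp
      · exact coe_mem_Kc z 1
    · rw [Ne, MvPolynomial.C_eq_zero, map_eq_zero]
      exact hB0
    · rw [MvPolynomial.vars_C]
      exact Finset.notMem_empty _
    · rw [MvPolynomial.aeval_C, Matrix.cons_val_zero]
      rw [show (algebraMap Qbar ℂ) (algebraMap ℚ Qbar B) = (B : ℂ) from hC]
      exact div_mul_cancel₀ _ hz0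
    · refine span_III hpS ?_ (Submodule.subset_span hpS) hl h1S ?_
      · rw [← ha]
        exact Submodule.subset_span hjS
      · refine hSall _ (Submodule.subset_span (Or.inl (Or.inl rfl)))
          (Submodule.subset_span (Or.inr ⟨0, rfl⟩)) ?_ ?_
        · exact add_mem (Submodule.subset_span (Or.inr ⟨1, rfl⟩))
            (Submodule.subset_span (Or.inl (Or.inl rfl)))
        · change ((arg (z 0) (B / z 0) (z 1) 1 : ℝ) : ℂ) ∈ _
          rw [ha]
          exact Submodule.subset_span (Or.inl (Or.inr rfl))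
  · have ha : ((arg (z 0) (B / z 0) (z 1) 2 : ℝ) : ℂ) = (B : ℂ) / (z 0 : ℂ) * (z 1 : ℂ) := by
      simp [arg]
    refine ⟨Fin 2, ![(B : ℂ) / (z 0 : ℂ), (B : ℂ) / (z 0 : ℂ) * (z 1 : ℂ)], 0,
      MvPolynomial.X 1, (z 1 : ℂ), ai_III_2 B hB0 hpair, ?_, MvPolynomial.X_ne_zero _, ?_, ?_, ?_⟩
    · intro i
      fin_cases i
      · exact hp
      · exact mul_mem hp (coe_mem_Kc z 1)
    · intro hmem
      rw [MvPolynomial.vars_X] at hmem
      exact absurd (Finset.mem_singleton.mp hmem) (by decide)
    · rw [MvPolynomial.aeval_X]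
      rfl
    · refine span_III hpS hl (Submodule.subset_span hpS) ?_ h1S ?_
      · rw [← ha]
        exact Submodule.subset_span hjS
      · refine hSall _ (Submodule.subset_span (Or.inl (Or.inl rfl)))
          (Submodule.subset_span (Or.inr ⟨0, rfl⟩)) ?_ ?_
        · exact add_mem (Submodule.subset_span (Or.inl (Or.inr rfl)))
            (Submodule.subset_span (Or.inl (Or.inl rfl)))
        · change ((arg (z 0) (B / z 0) (z 1) 2 : ℝ) : ℂ) ∈ _
          rw [ha]
          exact Submodule.subset_span (Or.inr ⟨1, rfl⟩)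

end Pool.Agent.Pat5
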