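import Mathlib
import Pool.Agent.Pat5.EEx

/-!
# Pat5 P22: from the functions `f`, `g` to the statement about patterns

`Model S ε` is the statement of the main theorem for the pattern `S` and the precision `ε`.

`five_true`: `five exp π (log π)` are the five real numbers `π + e`, `π e`, `π ^ e`, `e ^ e`,
`π ^ π` (`Real.rpow_def_of_pos`, `Complex.ofReal_exp`). `isExp_exp`: `Complex.exp` and `π` satisfy
`IsExp` (`Complex.exp_eq_one_iff`, `Complex.exp_conj`, `Complex.exp_log`).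

`model_of`: take `E = EE f g`; `EE_isExp`; `E l = exp (f l) = p` by `EE_ofReal`; `five_EE` and
`h0`, `h1`, `h2` give `five E p l i = fiveR e p r i`; a real number is transcendental iff its image
in `ℂ` is (`transcendental_algebraMap_iff`, `isAlgebraic_algebraMap_iff`); norms of real differences.
-/

set_option autoImplicit false

namespace Pool.Agent.Pat5

open Complex

/-- The statement of the main theorem for the pattern `S` and the precision `ε`. -/
def Model (S : Finset (Fin 5)) (ε : ℝ) : Prop :=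
  ∃ (E : ℂ → ℂ) (p l : ℝ), IsExp E p ∧ E l = p ∧ Theorems E ∧
    AlgebraicIndependent ℚ ![(p : ℂ), E p] ∧ (S ∈ strong → LogIndep E) ∧
    (∀ i ∈ S, ∃ q : ℚ, five E p l i = q) ∧ (∀ i ∉ S, Transcendental ℚ (five E p l i)) ∧
    |p - Real.pi| < ε ∧ |l - Real.log Real.pi| < ε ∧ ‖E 1 - exp 1‖ < ε ∧
    ∀ i, ‖five E p l i - five exp Real.pi (Real.log Real.pi) i‖ < ε

/-- The five real numbers. -/
def fiveR (e p : ℝ) (r : Fin 3 → ℝ) : Fin 5 → ℝ := ![p + e, p * e, r 0, r 1, r 2]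

/-- The numbers `π ^ e`, `e ^ e`, `π ^ π`. -/
noncomputable def trueR : Fin 3 → ℝ :=
  ![Real.pi ^ Real.exp 1, Real.exp 1 ^ Real.exp 1, Real.pi ^ Real.pi]

theorem trueR_pos (i : Fin 3) : 0 < trueR i := by
  have h1 := Real.pi_pos
  have h2 := Real.exp_pos 1
  fin_cases i
  · exact Real.rpow_pos_of_pos h1 _
  · exact Real.rpow_pos_of_pos h2 _
  · exact Real.rpow_pos_of_pos h1 _

theorem five_true (i : Fin 5) : five exp Real.pi (Real.log Real.pi) i =
    ((fiveR (Real.exp 1) Real.pi trueR i : ℝ) : ℂ) := by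
  have h1 : Real.pi ^ Real.exp 1 = Real.exp (Real.exp 1 * Real.log Real.pi) := by
    rw [Real.rpow_def_of_pos Real.pi_pos, mul_comm]
  have h2 : Real.exp 1 ^ Real.exp 1 = Real.exp (Real.exp 1) := by
    rw [Real.rpow_def_of_pos (Real.exp_pos 1), Real.log_exp, one_mul]
  have h3 : Real.pi ^ Real.pi = Real.exp (Real.pi * Real.log Real.pi) := by
    rw [Real.rpow_def_of_pos Real.pi_pos, mul_comm]
  have e1 : exp 1 = ((Real.exp 1 : ℝ) : ℂ) := by
    rw [ofReal_exp, ofReal_one]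
  unfold five fiveR trueR
  rw [e1]
  fin_cases i
  · simp
  · simp
  · change exp (((Real.exp 1 : ℝ) : ℂ) * (Real.log Real.pi : ℝ)) =
      ((Real.pi ^ Real.exp 1 : ℝ) : ℂ)
    rw [h1, ← ofReal_mul, ← ofReal_exp]
  · change exp ((Real.exp 1 : ℝ) : ℂ) = ((Real.exp 1 ^ Real.exp 1 : ℝ) : ℂ)
    rw [h2, ← ofReal_exp]
  · change exp ((Real.pi : ℂ) * (Real.log Real.pi : ℝ)) = ((Real.pi ^ Real.pi : ℝ) : ℂ)
    rw [h3, ← ofReal_mul, ← ofReal_exp]

theorem isExp_exp : IsExp exp Real.pi where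
  pos := Real.pi_pos
  add := exp_add
  surj z hz := ⟨log z, exp_log hz⟩
  ker x := exp_eq_one_iff
  conj x := exp_conj x
  real x := by
    rw [exp_ofReal_re]
    exact Real.exp_pos x

theorem model_of {S : Finset (Fin 5)} {ε : ℝ} (f g : ℝ ≃ₗ[ℚ] ℝ) {e p l : ℝ} {r : Fin 3 → ℝ}
    (he : 0 < e) (hp : 0 < p) (hr : ∀ i, 0 < r i) (hf1 : f 1 = Real.log e)
    (hfl : f l = Real.log p) (hg : g p = Real.pi) (h0 : f (e * l) = Real.log (r 0))
    (h1 : f e = Real.log (r 1)) (h2 : f (p * l) = Real.log (r 2)) (hT : Theorems (EE f g))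
    (hS : S ∈ strong → LogIndep (EE f g))
    (hN : AlgebraicIndependent ℚ ![(p : ℂ), ((Real.exp (f p) : ℝ) : ℂ)])
    (hrat : ∀ i ∈ S, ∃ q : ℚ, fiveR e p r i = q)
    (htr : ∀ i ∉ S, Transcendental ℚ (fiveR e p r i)) (hpε : |p - Real.pi| < ε)
    (hlε : |l - Real.log Real.pi| < ε) (heε : |e - Real.exp 1| < ε)
    (hε : ∀ i, |fiveR e p r i - fiveR (Real.exp 1) Real.pi trueR i| < ε) : Model S ε := by
  have hfive : ∀ i, five (EE f g) p l i = ((fiveR e p r i : ℝ) : ℂ) := by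
    intro i
    rw [five_EE f g p l he hf1, h0, h1, h2, Real.exp_log (hr 0), Real.exp_log (hr 1),
      Real.exp_log (hr 2)]
    rfl
  have hE1 : EE f g 1 = (e : ℂ) := by
    have := EE_ofReal f g 1
    rw [hf1, Real.exp_log he, ofReal_one] at this
    exact this
  refine ⟨EE f g, p, l, EE_isExp f g hp hg, ?_, hT, ?_, hS, ?_, ?_, hpε, hlε, ?_, ?_⟩
  · rw [EE_ofReal, hfl, Real.exp_log hp]
  · rw [EE_ofReal]
    exact hN
  · intro i hi
    obtain ⟨q, hq⟩ := hrat i hi
    refine ⟨q, ?_⟩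
    rw [hfive, hq, ofReal_ratCast]
  · intro i hi h
    refine htr i hi ?_
    rw [hfive] at h
    exact (isAlgebraic_algebraMap_iff (algebraMap ℝ ℂ).injective).mp h
  · rw [hE1]
    have h3 : (e : ℂ) - exp 1 = ((e - Real.exp 1 : ℝ) : ℂ) := by
      rw [ofReal_sub, ofReal_exp, ofReal_one]
    rw [h3, norm_real, Real.norm_eq_abs]
    exact heε
  · intro i
    rw [hfive, five_true, ← ofReal_sub, norm_real, Real.norm_eq_abs]
    exact hε i

end Pool.Agent.Pat5
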