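import Mathlib
import Pool.Agent.Pat5.Defs

/-!
# Pat5 P23: continuity estimates

Each statement follows from the continuity of the functions involved at the point in question:
for `near_I` of `(e, p) ↦ p + e` and `(e, p) ↦ p * e` at `(exp 1, π)`; for `near_II` of
`(A, e, c) ↦ A - e`, `(A - e) * e`, `exp (A log (A - e)) / c` at
`(π + exp 1, exp 1, π ^ (exp 1))` and at
`(π + exp 1, exp 1, π ^ π)`, where the last function has the values
`π ^ (π + e) / π ^ e = π ^ π` and `π ^ (π + e) / π ^ π = π ^ e` (`Real.rpow_def_of_pos`,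
`Real.rpow_sub`); for `near_III` of `(B, e) ↦ B / e`, `B / e + e` at `(π exp 1, exp 1)`.
Use `Metric.continuousAt_iff` (or `Filter.Eventually` in a product neighbourhood filter,
`Metric.eventually_nhds_iff`, `dist` of a pair is the maximum) and the minimum of the `δ`s.
-/

set_option autoImplicit false

namespace Pool.Agent.Pat5

open Filter Topology

/-- An eventual statement near a point of the plane holds on a small square. -/
private theorem exists_square {P : ℝ × ℝ → Prop} {a b : ℝ}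
    (h : ∀ᶠ x in 𝓝 (a, b), P x) : ∃ δ, 0 < δ ∧ ∀ x y : ℝ, |x - a| < δ → |y - b| < δ →
      P (x, y) := by
  obtain ⟨δ, hδ, h⟩ := Metric.eventually_nhds_iff.mp h
  refine ⟨δ, hδ, fun x y hx hy => h ?_⟩
  rw [Prod.dist_eq, max_lt_iff]
  exact ⟨by simpa [Real.dist_eq] using hx, by simpa [Real.dist_eq] using hy⟩

/-- An eventual statement near a point of three space holds on a small cube. -/
private theorem exists_cube {P : ℝ × ℝ × ℝ → Prop} {a b c : ℝ}
    (h : ∀ᶠ x in 𝓝 (a, b, c), P x) : ∃ δ, 0 < δ ∧ ∀ x y z : ℝ, |x - a| < δ → |y - b| < δ →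
      |z - c| < δ → P (x, y, z) := by
  obtain ⟨δ, hδ, h⟩ := Metric.eventually_nhds_iff.mp h
  refine ⟨δ, hδ, fun x y z hx hy hz => h ?_⟩
  rw [Prod.dist_eq, max_lt_iff, Prod.dist_eq, max_lt_iff]
  exact ⟨by simpa [Real.dist_eq] using hx, by simpa [Real.dist_eq] using hy,
    by simpa [Real.dist_eq] using hz⟩

/-- Continuity at a point, in the form used here. -/
private theorem near_of_continuousAt {X : Type*} [TopologicalSpace X] {f : X → ℝ} {x₀ : X}
    (hf : ContinuousAt f x₀) {v ε : ℝ} (hv : f x₀ = v) (hε : 0 < ε) :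
    ∀ᶠ x in 𝓝 x₀, |f x - v| < ε := by
  subst hv
  have := hf.eventually (Metric.ball_mem_nhds (f x₀) hε)
  filter_upwards [this] with x hx
  simpa [Metric.mem_ball, Real.dist_eq] using hx

theorem near_I (ε : ℝ) (hε : 0 < ε) : ∃ δ, 0 < δ ∧ δ ≤ ε ∧ δ ≤ 1 ∧ ∀ e p : ℝ,
    |e - Real.exp 1| < δ → |p - Real.pi| < δ →
    |p + e - (Real.pi + Real.exp 1)| < ε ∧ |p * e - Real.pi * Real.exp 1| < ε := by
  have h1 : ContinuousAt (fun x : ℝ × ℝ => x.2 + x.1) (Real.exp 1, Real.pi) := by fun_prop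
  have h2 : ContinuousAt (fun x : ℝ × ℝ => x.2 * x.1) (Real.exp 1, Real.pi) := by fun_prop
  obtain ⟨δ, hδ, h⟩ := exists_square
    ((near_of_continuousAt h1 rfl hε).and (near_of_continuousAt h2 rfl hε))
  refine ⟨min δ (min ε 1), lt_min hδ (lt_min hε one_pos),
    (min_le_right _ _).trans (min_le_left _ _), (min_le_right _ _).trans (min_le_right _ _), ?_⟩
  intro e p he hp
  exact h e p (he.trans_le (min_le_left _ _)) (hp.trans_le (min_le_left _ _))

theorem near_II (ε : ℝ) (hε : 0 < ε) : ∃ δ, 0 < δ ∧ δ ≤ ε ∧ δ ≤ 1 ∧ ∀ A e : ℝ,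
    |A - (Real.pi + Real.exp 1)| < δ → |e - Real.exp 1| < δ →
    0 < A - e ∧ |A - e - Real.pi| < ε ∧ |(A - e) * e - Real.pi * Real.exp 1| < ε ∧
    (∀ c : ℝ, |c - Real.pi ^ Real.exp 1| < δ →
      |Real.exp (A * Real.log (A - e)) / c - Real.pi ^ Real.pi| < ε) ∧
    ∀ d : ℝ, |d - Real.pi ^ Real.pi| < δ →
      |Real.exp (A * Real.log (A - e)) / d - Real.pi ^ Real.exp 1| < ε := by
  have hpi := Real.pi_pos
  have h0 : ContinuousAt (fun x : ℝ × ℝ => x.1 - x.2) (Real.pi + Real.exp 1, Real.exp 1) := by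
    fun_prop
  have h2 : ContinuousAt (fun x : ℝ × ℝ => (x.1 - x.2) * x.2)
      (Real.pi + Real.exp 1, Real.exp 1) := by
    fun_prop
  have e0 : ∀ᶠ x : ℝ × ℝ in 𝓝 (Real.pi + Real.exp 1, Real.exp 1), 0 < x.1 - x.2 :=
    h0.eventually (lt_mem_nhds (by simpa using hpi))
  obtain ⟨δ₁, hδ₁, H₁⟩ := exists_square (e0.and
    ((near_of_continuousAt (v := Real.pi) h0 (by simp) hε).and
      (near_of_continuousAt (v := Real.pi * Real.exp 1) h2 (by simp) hε)))
  have key : ∀ c : ℝ, c ≠ 0 → ContinuousAt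
      (fun x : ℝ × ℝ × ℝ => Real.exp (x.1 * Real.log (x.1 - x.2.1)) / x.2.2)
      (Real.pi + Real.exp 1, Real.exp 1, c) := by
    intro c hc
    refine ContinuousAt.div ?_ (by fun_prop) hc
    refine Real.continuous_exp.continuousAt.comp ?_
    refine ContinuousAt.mul (by fun_prop) ?_
    refine ContinuousAt.log (by fun_prop) ?_
    simp only [add_sub_cancel_right]
    exact hpi.ne'
  have hval : Real.exp ((Real.pi + Real.exp 1) *
      Real.log (Real.pi + Real.exp 1 - Real.exp 1)) = Real.pi ^ Real.pi *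
        Real.pi ^ Real.exp 1 := by
    rw [add_sub_cancel_right, ← Real.rpow_add hpi, Real.rpow_def_of_pos hpi, mul_comm]
  have hc0 : (0 : ℝ) < Real.pi ^ Real.exp 1 := Real.rpow_pos_of_pos hpi _
  have hd0 : (0 : ℝ) < Real.pi ^ Real.pi := Real.rpow_pos_of_pos hpi _
  obtain ⟨δ₂, hδ₂, H₂⟩ := exists_cube (near_of_continuousAt (v := Real.pi ^ Real.pi)
    (key _ hc0.ne') (by
      show Real.exp ((Real.pi + Real.exp 1) *
        Real.log (Real.pi + Real.exp 1 - Real.exp 1)) / Real.pi ^ Real.exp 1 = _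
      rw [hval, mul_div_assoc, div_self hc0.ne', mul_one]) hε)
  obtain ⟨δ₃, hδ₃, H₃⟩ := exists_cube (near_of_continuousAt (v := Real.pi ^ Real.exp 1)
    (key _ hd0.ne') (by
      show Real.exp ((Real.pi + Real.exp 1) *
        Real.log (Real.pi + Real.exp 1 - Real.exp 1)) / Real.pi ^ Real.pi = _
      rw [hval, mul_comm, mul_div_assoc, div_self hd0.ne', mul_one]) hε)
  refine ⟨min (min δ₁ (min δ₂ δ₃)) (min ε 1),
    lt_min (lt_min hδ₁ (lt_min hδ₂ hδ₃)) (lt_min hε one_pos),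
    (min_le_right _ _).trans (min_le_left _ _), (min_le_right _ _).trans (min_le_right _ _), ?_⟩
  intro A e hA he
  have l1 : min (min δ₁ (min δ₂ δ₃)) (min ε 1) ≤ δ₁ := (min_le_left _ _).trans (min_le_left _ _)
  have l2 : min (min δ₁ (min δ₂ δ₃)) (min ε 1) ≤ δ₂ :=
    (min_le_left _ _).trans ((min_le_right _ _).trans (min_le_left _ _))
  have l3 : min (min δ₁ (min δ₂ δ₃)) (min ε 1) ≤ δ₃ :=
    (min_le_left _ _).trans ((min_le_right _ _).trans (min_le_right _ _))
  obtain ⟨q1, q2, q3⟩ := H₁ A e (hA.trans_le l1) (he.trans_le l1)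
  exact ⟨q1, q2, q3, fun c hc => H₂ A e c (hA.trans_le l2) (he.trans_le l2) (hc.trans_le l2),
    fun d hd => H₃ A e d (hA.trans_le l3) (he.trans_le l3) (hd.trans_le l3)⟩

theorem near_III (ε : ℝ) (hε : 0 < ε) : ∃ δ, 0 < δ ∧ δ ≤ ε ∧ δ ≤ 1 ∧ ∀ B e : ℝ,
    |B - Real.pi * Real.exp 1| < δ → |e - Real.exp 1| < δ →
    0 < B / e ∧ |B / e - Real.pi| < ε ∧ |B / e + e - (Real.pi + Real.exp 1)| < ε := by
  have hpi := Real.pi_pos
  have hE : Real.exp 1 ≠ 0 := (Real.exp_pos 1).ne'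
  have h0 : ContinuousAt (fun x : ℝ × ℝ => x.1 / x.2) (Real.pi * Real.exp 1, Real.exp 1) :=
    ContinuousAt.div (by fun_prop) (by fun_prop) hE
  have h1 : ContinuousAt (fun x : ℝ × ℝ => x.1 / x.2 + x.2)
      (Real.pi * Real.exp 1, Real.exp 1) := h0.add (by fun_prop)
  have hv : Real.pi * Real.exp 1 / Real.exp 1 = Real.pi := by
    rw [mul_div_assoc, div_self hE, mul_one]
  have e0 : ∀ᶠ x : ℝ × ℝ in 𝓝 (Real.pi * Real.exp 1, Real.exp 1), 0 < x.1 / x.2 :=
    h0.eventually (lt_mem_nhds (by simpa [hv] using hpi))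
  obtain ⟨δ, hδ, h⟩ := exists_square (e0.and
    ((near_of_continuousAt (v := Real.pi) h0 hv hε).and
      (near_of_continuousAt (v := Real.pi + Real.exp 1) h1 (by simp only [hv]) hε)))
  refine ⟨min δ (min ε 1), lt_min hδ (lt_min hε one_pos),
    (min_le_right _ _).trans (min_le_left _ _), (min_le_right _ _).trans (min_le_right _ _), ?_⟩
  intro B e hB he
  exact h B e (hB.trans_le (min_le_left _ _)) (he.trans_le (min_le_left _ _))

/-- The target values are larger than `1`. -/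
theorem one_lt_targets : 1 < Real.exp 1 ∧ 1 < Real.pi ∧ 1 < Real.log Real.pi ∧
    1 < Real.pi ^ Real.exp 1 ∧ 1 < Real.exp 1 ^ Real.exp 1 ∧ 1 < Real.pi ^ Real.pi := by
  have h3 := Real.pi_gt_three
  have hE : 1 < Real.exp 1 := Real.one_lt_exp_iff.mpr one_pos
  have hpi : 1 < Real.pi := by linarith
  have hle := Real.exp_one_lt_d9
  refine ⟨hE, hpi, ?_, Real.one_lt_rpow hpi (Real.exp_pos 1),
    Real.one_lt_rpow hE (Real.exp_pos 1), Real.one_lt_rpow hpi Real.pi_pos⟩
  rw [Real.lt_log_iff_exp_lt Real.pi_pos]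
  linarith

end Pool.Agent.Pat5
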