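import Mathlib
import Pool.Agent.Pat5.DatI
import Pool.Agent.Pat5.Core
import Pool.Agent.Pat5.Model
import Pool.Agent.Pat5.Near

/-!
# Pat5 P25: the patterns without a rational sum or product

Proof of `model_I`. Take `δ` from `near_I`, `z : Fin 7 → ℝ` from `exists_ai_near` for the targets
`![exp 1, π, log π, 1, π ^ e, e ^ e, π ^ π]` and `δ`, and `q` from `exists_rat_near` for `trueR` and
`δ`. All `z i` are positive by `one_lt_targets` and `δ ≤ 1`. Take `f`, `g` from `core` with `dat_I` and
`strong_I` or `quad_I`. Put `r i = if i ∈ T then q i else z (gI i)`. Then `f (arg i) = log (r i)`,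
`f l = log p` (the component `inr 0` of `X`) and `f p = log (z 3)` (the component `inr 1`). Apply
`model_of` with `e = z 0`, `p = z 1`, `l = z 2`. `hS`: `T.map ind ∈ strong` implies `T ≠ univ`
(`decide`), so `Strong` holds and `core` gives `LogIndep`. `hN`: `exp (log (z 3)) = z 3`, and
`![z 1, z 3]` is a subfamily of `z`. The pattern: the indices `0`, `1` are not in `T.map ind`, and
`p + e`, `p e` are transcendental by `transcendental_add`, `transcendental_mul`; the index of `i` is in
`T.map ind` iff `i ∈ T`; a member `z k` is transcendental (`AlgebraicIndependent.transcendental`).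
-/

set_option autoImplicit false

namespace Pool.Agent.Pat5

/-- The positions of the three powers among the five numbers. -/
def ind : Fin 3 ↪ Fin 5 := ⟨![2, 3, 4], by decide⟩

private theorem fiveR_ind (e p : ℝ) (r : Fin 3 → ℝ) (j : Fin 3) :
    fiveR e p r (ind j) = r j := by
  fin_cases j <;> rfl

private theorem cases_five (i : Fin 5) : i = 0 ∨ i = 1 ∨ ∃ j, i = ind j := by
  revert i
  decide

private theorem strong_ne : ∀ T : Finset (Fin 3), T.map ind ∈ strong → T ≠ Finset.univ := by
  decide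

private theorem transcendental_real {x : ℝ} (h : Transcendental ℚ (x : ℂ)) :
    Transcendental ℚ x :=
  (transcendental_algebraMap_iff (R := ℚ) (S := ℝ) (A := ℂ)
    (algebraMap ℝ ℂ).injective).mp h

theorem model_I (T : Finset (Fin 3)) (ε : ℝ) (hε : 0 < ε) : Model (T.map ind) ε := by
  obtain ⟨δ, hδ, hδε, hδ1, hnear⟩ := near_I ε hε
  obtain ⟨z, hz, hzt⟩ := exists_ai_near ![Real.exp 1, Real.pi, Real.log Real.pi, 1,
    trueR 0, trueR 1, trueR 2] δ hδ
  obtain ⟨q, hq, hqt, hli⟩ := exists_rat_near trueR trueR_pos δ hδ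
  obtain ⟨t0, t1, t2, t3, t4, t5⟩ := one_lt_targets
  have hz0 : |z 0 - Real.exp 1| < δ := hzt 0
  have hz1 : |z 1 - Real.pi| < δ := hzt 1
  have hz2 : |z 2 - Real.log Real.pi| < δ := hzt 2
  have hz3 : |z 3 - 1| < δ := hzt 3
  have hz4 : |z 4 - trueR 0| < δ := hzt 4
  have hz5 : |z 5 - trueR 1| < δ := hzt 5
  have hz6 : |z 6 - trueR 2| < δ := hzt 6
  have hpos : ∀ i, 0 < z i := by
    have key : ∀ x t : ℝ, |x - t| < δ → 1 ≤ t → 0 < x := by
      intro x t h1 h2
      have := (abs_lt.mp h1).1
      linarith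
    intro i
    fin_cases i
    · exact key _ _ hz0 t0.le
    · exact key _ _ hz1 t1.le
    · exact key _ _ hz2 t2.le
    · exact key _ _ hz3 le_rfl
    · exact key _ _ hz4 t3.le
    · exact key _ _ hz5 t4.le
    · exact key _ _ hz6 t5.le
  have D := dat_I z hz hpos T q hq hli
  have hsq : Strong (z 1) (fun i : {i // i ∈ T} => arg (z 0) (z 1) (z 2) i) ∨
      QuadHyp z (z 1) (fun i : {i // i ∈ T} => arg (z 0) (z 1) (z 2) i) := by
    by_cases hT : T = Finset.univ
    · exact Or.inr (quad_I z hz T hT)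
    · exact Or.inl (strong_I z hz T hT)
  obtain ⟨f, g, hf1, hgp, hfv, hfX, hTh, hLI⟩ := core D hsq
  set r : Fin 3 → ℝ := fun i => if i ∈ T then (q i : ℝ) else z (gI i) with hr
  have hr1 : ∀ i, i ∈ T → r i = q i := fun i h => if_pos h
  have hr2 : ∀ i, i ∉ T → r i = z (gI i) := fun i h => if_neg h
  have hfa : ∀ i, f (arg (z 0) (z 1) (z 2) i) = Real.log (r i) := by
    intro i
    by_cases h : i ∈ T
    · rw [hr1 i h]
      exact hfv ⟨i, h⟩
    · rw [hr2 i h]
      exact hfX (Sum.inl ⟨i, h⟩)
  have hfl : f (z 2) = Real.log (z 1) := hfX (Sum.inr 0)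
  have hfp : f (z 1) = Real.log (z 3) := hfX (Sum.inr 1)
  have h01 : AlgebraicIndependent ℚ ![(z 0 : ℂ), (z 1 : ℂ)] := by
    have h := hz.comp (![0, 1] : Fin 2 → Fin 7) (by decide)
    convert h using 1
    ext i
    fin_cases i <;> rfl
  have hrt : ∀ j, |r j - trueR j| < δ := by
    intro j
    by_cases h : j ∈ T
    · rw [hr1 j h]
      exact hqt j
    · rw [hr2 j h]
      fin_cases j
      · exact hz4
      · exact hz5
      · exact hz6
  refine model_of f g (e := z 0) (p := z 1) (l := z 2) (r := r) (hpos 0) (hpos 1) ?_ hf1 hfl hgp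
    (hfa 0) (hfa 1) (hfa 2) hTh ?_ ?_ ?_ ?_ (hz1.trans_le hδε) (hz2.trans_le hδε)
    (hz0.trans_le hδε) ?_
  · intro i
    by_cases h : i ∈ T
    · rw [hr1 i h]
      exact_mod_cast hq i
    · rw [hr2 i h]
      exact hpos _
  · intro h
    exact hLI (strong_I z hz T (strong_ne T h))
  · rw [hfp, Real.exp_log (hpos 3)]
    have h := hz.comp (![1, 3] : Fin 2 → Fin 7) (by decide)
    convert h using 1
    ext i
    fin_cases i <;> rfl
  · intro i hi
    obtain ⟨j, hj, rfl⟩ := Finset.mem_map.mp hi
    exact ⟨q j, by rw [fiveR_ind, hr1 j hj]⟩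
  · intro i hi
    rcases cases_five i with rfl | rfl | ⟨j, rfl⟩
    · apply transcendental_real
      have h := transcendental_add h01
      have h2 : ((fiveR (z 0) (z 1) r 0 : ℝ) : ℂ) = (z 1 : ℂ) + (z 0 : ℂ) :=
        Complex.ofReal_add _ _
      rw [h2]
      exact h
    · apply transcendental_real
      have h := transcendental_mul h01
      have h2 : ((fiveR (z 0) (z 1) r 1 : ℝ) : ℂ) = (z 1 : ℂ) * (z 0 : ℂ) :=
        Complex.ofReal_mul _ _
      rw [h2]
      exact h
    · have hj : j ∉ T := fun h => hi (Finset.mem_map_of_mem ind h)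
      rw [fiveR_ind, hr2 j hj]
      exact transcendental_real (hz.transcendental (gI j))
  · intro i
    have hn := hnear (z 0) (z 1) hz0 hz1
    rcases cases_five i with rfl | rfl | ⟨j, rfl⟩
    · exact hn.1
    · exact hn.2
    · rw [fiveR_ind, fiveR_ind]
      exact (hrt j).trans_le hδε

end Pool.Agent.Pat5
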