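import Mathlib
import Pool.Agent.Pat5.DatII
import Pool.Agent.Pat5.Core
import Pool.Agent.Pat5.Model
import Pool.Agent.Pat5.Near

/-!
# Pat5 P27: the patterns with a rational sum

Proofs. Take `δ` from `near_II`, and `δ' ≤ δ` positive so small that the target values minus `δ'` are
larger than `1` (or use `one_lt_targets` and continuity), `A` a rational number with
`|A - (π + exp 1)| < δ'`, `z : Fin 4 → ℝ` from `exists_ai_near` for
`![exp 1, log π, e ^ e, π ^ e]` and `δ'`; `e = z 0`, `l = z 1`, `p = A - e`. Note that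
`p * l = A * l - e * l`, so `f (p l) = A * f l - f (e l)` (`map_sub`, `map_smul` for rational `A`:
`A * l = A • l`), and `f p = A * f 1 - f e = A * log e - log (z 2)`.
 * `{0}`: `dat_II_0`. `r = ![z 3, z 2, exp (A log p) / z 3]`.
   The last number is transcendental: otherwise `z 3 = exp (A log p) / y` with algebraic `y`
   would be algebraic over `ℚ(e)`, but `z 0`, `z 3` are algebraically independent (`ai_Kc` for `![e]`,
   or `ai_of_alg`).
 * `{0, 2}`: `dat_II_2` with a rational number `c > 1`, `|c - π ^ e| < δ'`;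
   `r = ![c, z 2, exp (A log p) / c]`; `transc_II_pow` (the quotient by a rational number).
 * `{0, 4}`: `dat_II_4` with a rational number `d > 1`, `|d - π ^ π| < δ'`;
   `r = ![exp (A log p) / d, z 2, d]`, since `f (e l) = A * f l - f (p l)`.
In all cases `p + e = A`, `p * e = (A - e) e` is transcendental by `transc_II`, and `z 2` is
transcendental. `hN`: `exp (f p) = exp (A log e) / z 2`, `ai_II_3` for `e`, `D = z 2`. `hS`:
`LogIndep` holds by `core` and `strong_II_0`, `strong_II_2`, `strong_II_4`.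
-/

set_option autoImplicit false

namespace Pool.Agent.Pat5

private theorem f_mul (f : ℝ ≃ₗ[ℚ] ℝ) (A : ℚ) (e l : ℝ) :
    f ((A - e) * l) = A * f l - f (e * l) := by
  have h : ((A : ℝ) - e) * l = A • l - e * l := by
    rw [Rat.smul_def]
    ring
  rw [h, map_sub, map_smul, Rat.smul_def]

private theorem f_sub (f : ℝ ≃ₗ[ℚ] ℝ) (A : ℚ) (e : ℝ) : f (A - e) = A * f 1 - f e := by
  have h := f_mul f A e 1
  rwa [mul_one, mul_one] at h

private theorem tr_of {x : ℝ} (h : Transcendental ℚ (x : ℂ)) : Transcendental ℚ x :=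
  (transcendental_algebraMap_iff (algebraMap ℝ ℂ).injective).1 h

/-- The choice of the numbers. -/
private theorem setup (ε : ℝ) (hε : 0 < ε) : ∃ (δ : ℝ) (A : ℚ) (z : Fin 4 → ℝ),
    0 < δ ∧ δ ≤ ε ∧ AlgebraicIndependent ℚ (fun i => (z i : ℂ)) ∧ (∀ i, 0 < z i) ∧
    0 < A - z 0 ∧ |A - z 0 - Real.pi| < ε ∧
    |(A - z 0) * z 0 - Real.pi * Real.exp 1| < ε ∧
    (∀ c : ℝ, |c - Real.pi ^ Real.exp 1| < δ →
      |Real.exp (A * Real.log (A - z 0)) / c - Real.pi ^ Real.pi| < ε) ∧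
    (∀ d : ℝ, |d - Real.pi ^ Real.pi| < δ →
      |Real.exp (A * Real.log (A - z 0)) / d - Real.pi ^ Real.exp 1| < ε) ∧
    |A - (Real.pi + Real.exp 1)| < δ ∧ |z 0 - Real.exp 1| < δ ∧ |z 1 - Real.log Real.pi| < δ ∧
    |z 2 - Real.exp 1 ^ Real.exp 1| < δ ∧ |z 3 - Real.pi ^ Real.exp 1| < δ ∧
    (∀ c : ℝ, |c - Real.pi ^ Real.exp 1| < δ → 1 < c) ∧
    ∀ d : ℝ, |d - Real.pi ^ Real.pi| < δ → 1 < d := by
  obtain ⟨t1, -, t3, t4, t5, t6⟩ := one_lt_targets
  obtain ⟨δ₀, h1, h2, -, h4⟩ := near_II ε hε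
  obtain ⟨δ, hδ0, hδ⟩ : ∃ δ : ℝ, 0 < δ ∧ δ ≤ δ₀ ∧ δ ≤ Real.exp 1 - 1 ∧
      δ ≤ Real.log Real.pi - 1 ∧ δ ≤ Real.pi ^ Real.exp 1 - 1 ∧
      δ ≤ Real.exp 1 ^ Real.exp 1 - 1 ∧ δ ≤ Real.pi ^ Real.pi - 1 := by
    refine ⟨min δ₀ (min (Real.exp 1 - 1) (min (Real.log Real.pi - 1)
      (min (Real.pi ^ Real.exp 1 - 1) (min (Real.exp 1 ^ Real.exp 1 - 1)
        (Real.pi ^ Real.pi - 1))))), ?_, ?_, ?_, ?_, ?_, ?_, ?_⟩
    · simp only [lt_min_iff]
      refine ⟨h1, ?_, ?_, ?_, ?_, ?_⟩ <;> linarith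
    all_goals simp
  obtain ⟨d1, d2, d3, d4, d5, d6⟩ := hδ
  obtain ⟨A, hA1, hA2⟩ := exists_rat_btwn (show Real.pi + Real.exp 1 - δ <
    Real.pi + Real.exp 1 + δ by linarith)
  obtain ⟨z, hz, hzt⟩ := exists_ai_near ![Real.exp 1, Real.log Real.pi,
    Real.exp 1 ^ Real.exp 1, Real.pi ^ Real.exp 1] δ hδ0
  have z0 : |z 0 - Real.exp 1| < δ := hzt 0
  have z1 : |z 1 - Real.log Real.pi| < δ := hzt 1
  have z2 : |z 2 - Real.exp 1 ^ Real.exp 1| < δ := hzt 2
  have z3 : |z 3 - Real.pi ^ Real.exp 1| < δ := hzt 3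
  have hA : |(A : ℝ) - (Real.pi + Real.exp 1)| < δ := by
    rw [abs_lt]
    constructor <;> linarith
  obtain ⟨n1, n2, n3, n4, n5⟩ := h4 A (z 0) (hA.trans_le d1) (z0.trans_le d1)
  refine ⟨δ, A, z, hδ0, d1.trans h2, hz, ?_, n1, n2, n3, fun c hc => n4 c (hc.trans_le d1),
    fun d hd => n5 d (hd.trans_le d1), hA, z0, z1, z2, z3, ?_, ?_⟩
  · rw [abs_lt] at z0 z1 z2 z3
    intro i
    fin_cases i
    · show 0 < z 0
      linarith
    · show 0 < z 1
      linarith
    · show 0 < z 2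
      linarith
    · show 0 < z 3
      linarith
  · intro c hc
    rw [abs_lt] at hc
    linarith
  · intro d hd
    rw [abs_lt] at hd
    linarith

section

variable {z : Fin 4 → ℝ} {A : ℚ}

private theorem hN_of (hz : AlgebraicIndependent ℚ (fun i => (z i : ℂ))) (hpos : ∀ i, 0 < z i)
    (f : ℝ ≃ₗ[ℚ] ℝ) (hf1 : f 1 = Real.log (z 0)) (hf0 : f (z 0) = Real.log (z 2)) :
    AlgebraicIndependent ℚ ![((A - z 0 : ℝ) : ℂ), ((Real.exp (f (A - z 0)) : ℝ) : ℂ)] := by
  refine ai_II_3 A (D := z 2) (hpos 0) ?_ ?_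
  · have h := hz.comp ![0, 2] (by
      intro a b hab
      fin_cases a <;> fin_cases b <;> simp_all)
    have h2 : (fun i => (z i : ℂ)) ∘ ![0, 2] = ![(z 0 : ℂ), (z 2 : ℂ)] := by
      funext i
      fin_cases i <;> rfl
    rwa [h2] at h
  · rw [f_sub, hf1, hf0, Real.exp_sub, Real.exp_log (hpos 2),
      div_mul_cancel₀ _ (hpos 2).ne']

private theorem transc_quot {q : ℚ} (hq : q ≠ 0) {x : ℝ} (hx : Transcendental ℚ x) :
    Transcendental ℚ (x / q) := by
  intro h
  apply hx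
  have h1 : x = x / q * (q : ℝ) := by
    rw [div_mul_cancel₀]
    exact_mod_cast hq
  rw [h1]
  exact h.mul (isAlgebraic_algebraMap (A := ℝ) q)

private theorem tr_p (hz : AlgebraicIndependent ℚ (fun i => (z i : ℂ))) :
    Transcendental ℚ ((A - z 0 : ℝ) : ℂ) := by
  intro h
  apply hz.transcendental 0
  have h1 : ((z 0 : ℝ) : ℂ) = algebraMap ℚ ℂ A - ((A - z 0 : ℝ) : ℂ) := by
    rw [eq_ratCast]
    push_cast
    ring
  rw [h1]
  exact (isAlgebraic_algebraMap A).sub h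

private theorem tr_pe (hz : AlgebraicIndependent ℚ (fun i => (z i : ℂ))) :
    Transcendental ℚ ((A - z 0) * z 0) := by
  refine tr_of ?_
  have h := transc_II A (hz.transcendental 0)
  push_cast
  exact h

private theorem tr_pow (hz : AlgebraicIndependent ℚ (fun i => (z i : ℂ))) (h0 : 0 < z 0)
    (hA : 0 < A - z 0) : Transcendental ℚ (Real.exp (A * Real.log (A - z 0))) := by
  refine transc_II_pow A hA (tr_p hz) ?_
  rintro rfl
  rw [Rat.cast_zero, zero_sub] at hA
  linarith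

/-- The third number in the first case. -/
private theorem tr_last (hz : AlgebraicIndependent ℚ (fun i => (z i : ℂ)))
    (hpos : ∀ i, 0 < z i) (hA : 0 < A - z 0) :
    Transcendental ℚ (Real.exp (A * Real.log (A - z 0)) / z 3) := by
  refine tr_of fun h => ?_
  have h1 : AlgebraicIndependent ℚ (Sum.elim (fun i : Fin 1 => (((![z 0] : Fin 1 → ℝ) i : ℝ) : ℂ))
      (fun _ : Unit => (z 3 : ℂ))) := by
    have h2 := hz.comp (Sum.elim (fun _ : Fin 1 => (0 : Fin 4)) (fun _ : Unit => 3)) (by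
      rintro (a | a) (b | b) hab
      · rw [Subsingleton.elim a b]
      · exact absurd (show (0 : Fin 4) = 3 from hab) (by decide)
      · exact absurd (show (3 : Fin 4) = 0 from hab) (by decide)
      · rfl)
    have h3 : (fun i => (z i : ℂ)) ∘ (Sum.elim (fun _ : Fin 1 => (0 : Fin 4))
        (fun _ : Unit => 3)) = Sum.elim (fun i : Fin 1 => (((![z 0] : Fin 1 → ℝ) i : ℝ) : ℂ))
          (fun _ : Unit => (z 3 : ℂ)) := by
      funext i
      rcases i with i | i
      · fin_cases i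
        rfl
      · rfl
    rwa [h3] at h2
  have h2 := (ai_Kc _ h1).transcendental ()
  apply h2
  have h3 : ((z 0 : ℝ) : ℂ) ∈ Kc ![z 0] := coe_mem_Kc ![z 0] 0
  have h4 : Complex.exp ((Real.log (A - z 0) : ℝ) : ℂ) ∈ Kc ![z 0] := by
    rw [← Complex.ofReal_exp, Real.exp_log hA]
    push_cast
    exact sub_mem (SubfieldClass.ratCast_mem _ A) h3
  have h5 := exp_rat_mem_Kc h4 A
  have h6 : ((Real.exp (A * Real.log (A - z 0)) / z 3 : ℝ) : ℂ) ∈ Kc ![z 0] :=
    Qbar_le_Kc _ (mem_Qbar.2 h)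
  have h7 : ((z 3 : ℝ) : ℂ) = Complex.exp (A * ((Real.log (A - z 0) : ℝ) : ℂ)) /
      ((Real.exp (A * Real.log (A - z 0)) / z 3 : ℝ) : ℂ) := by
    have h8 : (z 3 : ℂ) ≠ 0 := by exact_mod_cast (hpos 3).ne'
    have h9 : ((Real.exp (A * Real.log (A - z 0)) / z 3 : ℝ) : ℂ) =
        Complex.exp (A * ((Real.log (A - z 0) : ℝ) : ℂ)) / z 3 := by
      push_cast
      rfl
    rw [h9]
    field_simp
  have h10 : ((z 3 : ℝ) : ℂ) ∈ Kc ![z 0] := by
    rw [h7]
    exact div_mem h5 h6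
  exact isAlgebraic_algebraMap (⟨_, h10⟩ : Kc ![z 0])

end

theorem model_II_0 (ε : ℝ) (hε : 0 < ε) : Model {0} ε := by
  obtain ⟨δ, A, z, hδ0, hδε, hz, hpos, hA, n1, n2, n3, -, a1, a2, a3, a4, a5, -, -⟩ :=
    setup ε hε
  obtain ⟨f, g, hf1, hg, -, hX, hT, hL⟩ := core (dat_II_0 z A hz hpos hA)
    (Or.inl (strong_II_0 z A hz))
  have x0 : f (z 1) = Real.log (A - z 0) := hX 0
  have x1 : f (z 0) = Real.log (z 2) := hX 1
  have x2 : f (z 0 * z 1) = Real.log (z 3) := hX 2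
  refine model_of f g (e := z 0) (p := A - z 0) (l := z 1)
    (r := ![z 3, z 2, Real.exp (A * Real.log (A - z 0)) / z 3]) (hpos 0) hA ?_ hf1 x0 hg x2 x1
    ?_ hT (fun _ => hL (strong_II_0 z A hz)) (hN_of hz hpos f hf1 x1) ?_ ?_ n1
    (a3.trans_le hδε) (a2.trans_le hδε) ?_
  · intro i
    fin_cases i
    · exact hpos 3
    · exact hpos 2
    · exact div_pos (Real.exp_pos _) (hpos 3)
  · rw [f_mul, x0, x2]
    show _ = Real.log (Real.exp (A * Real.log (A - z 0)) / z 3)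
    rw [Real.log_div (Real.exp_pos _).ne' (hpos 3).ne', Real.log_exp]
  · intro i hi
    rw [Finset.mem_singleton] at hi
    subst hi
    refine ⟨A, ?_⟩
    show (A : ℝ) - z 0 + z 0 = A
    ring
  · intro i hi
    fin_cases i
    · exact absurd (Finset.mem_singleton_self _) hi
    · exact tr_pe hz
    · exact tr_of (hz.transcendental 3)
    · exact tr_of (hz.transcendental 2)
    · exact tr_last hz hpos hA
  · intro i
    fin_cases i
    · show |(A : ℝ) - z 0 + z 0 - (Real.pi + Real.exp 1)| < ε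
      rw [sub_add_cancel]
      exact a1.trans_le hδε
    · exact n2
    · exact a5.trans_le hδε
    · exact a4.trans_le hδε
    · exact n3 _ a5

theorem model_II_2 (ε : ℝ) (hε : 0 < ε) : Model {0, 2} ε := by
  obtain ⟨δ, A, z, hδ0, hδε, hz, hpos, hA, n1, n2, n3, -, a1, a2, a3, a4, -, a6, -⟩ :=
    setup ε hε
  obtain ⟨c, hc1, hc2⟩ := exists_rat_btwn (show Real.pi ^ Real.exp 1 - δ <
    Real.pi ^ Real.exp 1 + δ by linarith)
  have hcδ : |(c : ℝ) - Real.pi ^ Real.exp 1| < δ := by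
    rw [abs_lt]
    constructor <;> linarith
  have hc : 1 < c := by exact_mod_cast a6 c hcδ
  have hc0 : (0 : ℝ) < c := by exact_mod_cast zero_lt_one.trans hc
  obtain ⟨f, g, hf1, hg, hv, hX, hT, hL⟩ := core (dat_II_2 z A hz hpos hA c hc)
    (Or.inl (strong_II_2 z A hz))
  have x0 : f (z 1) = Real.log (A - z 0) := hX 0
  have x1 : f (z 0) = Real.log (z 2) := hX 1
  have x2 : f (z 0 * z 1) = Real.log c := hv 0
  refine model_of f g (e := z 0) (p := A - z 0) (l := z 1)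
    (r := ![(c : ℝ), z 2, Real.exp (A * Real.log (A - z 0)) / c]) (hpos 0) hA ?_ hf1 x0 hg x2 x1
    ?_ hT (fun _ => hL (strong_II_2 z A hz)) (hN_of hz hpos f hf1 x1) ?_ ?_ n1
    (a3.trans_le hδε) (a2.trans_le hδε) ?_
  · intro i
    fin_cases i
    · exact hc0
    · exact hpos 2
    · exact div_pos (Real.exp_pos _) hc0
  · rw [f_mul, x0, x2]
    show _ = Real.log (Real.exp (A * Real.log (A - z 0)) / c)
    rw [Real.log_div (Real.exp_pos _).ne' hc0.ne', Real.log_exp]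
  · intro i hi
    rw [Finset.mem_insert, Finset.mem_singleton] at hi
    rcases hi with rfl | rfl
    · refine ⟨A, ?_⟩
      show (A : ℝ) - z 0 + z 0 = A
      ring
    · exact ⟨c, rfl⟩
  · intro i hi
    fin_cases i
    · exact absurd (by decide) hi
    · exact tr_pe hz
    · exact absurd (by decide) hi
    · exact tr_of (hz.transcendental 2)
    · exact transc_quot (zero_lt_one.trans hc).ne' (tr_pow hz (hpos 0) hA)
  · intro i
    fin_cases i
    · show |(A : ℝ) - z 0 + z 0 - (Real.pi + Real.exp 1)| < ε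
      rw [sub_add_cancel]
      exact a1.trans_le hδε
    · exact n2
    · exact hcδ.trans_le hδε
    · exact a4.trans_le hδε
    · exact n3 _ hcδ

theorem model_II_4 (ε : ℝ) (hε : 0 < ε) : Model {0, 4} ε := by
  obtain ⟨δ, A, z, hδ0, hδε, hz, hpos, hA, n1, n2, -, n4, a1, a2, a3, a4, -, -, a7⟩ :=
    setup ε hε
  obtain ⟨c, hc1, hc2⟩ := exists_rat_btwn (show Real.pi ^ Real.pi - δ <
    Real.pi ^ Real.pi + δ by linarith)
  have hcδ : |(c : ℝ) - Real.pi ^ Real.pi| < δ := by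
    rw [abs_lt]
    constructor <;> linarith
  have hc : 1 < c := by exact_mod_cast a7 c hcδ
  have hc0 : (0 : ℝ) < c := by exact_mod_cast zero_lt_one.trans hc
  obtain ⟨f, g, hf1, hg, hv, hX, hT, hL⟩ := core (dat_II_4 z A hz hpos hA c hc)
    (Or.inl (strong_II_4 z A hz))
  have x0 : f (z 1) = Real.log (A - z 0) := hX 0
  have x1 : f (z 0) = Real.log (z 2) := hX 1
  have x2 : f ((A - z 0) * z 1) = Real.log c := hv 0
  refine model_of f g (e := z 0) (p := A - z 0) (l := z 1)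
    (r := ![Real.exp (A * Real.log (A - z 0)) / c, z 2, (c : ℝ)]) (hpos 0) hA ?_ hf1 x0 hg ?_ x1
    x2 hT (fun _ => hL (strong_II_4 z A hz)) (hN_of hz hpos f hf1 x1) ?_ ?_ n1
    (a3.trans_le hδε) (a2.trans_le hδε) ?_
  · intro i
    fin_cases i
    · exact div_pos (Real.exp_pos _) hc0
    · exact hpos 2
    · exact hc0
  · show _ = Real.log (Real.exp (A * Real.log (A - z 0)) / c)
    rw [Real.log_div (Real.exp_pos _).ne' hc0.ne', Real.log_exp]
    have h1 := f_mul f A (z 0) (z 1)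
    rw [x2, x0] at h1
    linarith
  · intro i hi
    rw [Finset.mem_insert, Finset.mem_singleton] at hi
    rcases hi with rfl | rfl
    · refine ⟨A, ?_⟩
      show (A : ℝ) - z 0 + z 0 = A
      ring
    · exact ⟨c, rfl⟩
  · intro i hi
    fin_cases i
    · exact absurd (by decide) hi
    · exact tr_pe hz
    · exact transc_quot (zero_lt_one.trans hc).ne' (tr_pow hz (hpos 0) hA)
    · exact tr_of (hz.transcendental 2)
    · exact absurd (by decide) hi
  · intro i
    fin_cases i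
    · show |(A : ℝ) - z 0 + z 0 - (Real.pi + Real.exp 1)| < ε
      rw [sub_add_cancel]
      exact a1.trans_le hδε
    · exact n2
    · exact n4 _ hcδ
    · exact a4.trans_le hδε
    · exact hcδ.trans_le hδε

end Pool.Agent.Pat5
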