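import Mathlib
import Pool.Agent.Pat5.DatIII
import Pool.Agent.Pat5.ModelI

/-!
# Pat5 P29: the patterns with a rational product

Proof of `model_III`. Take `δ` from `near_III`, `q : Fin 4 → ℚ` from `exists_rat_near` for the
targets `![π * exp 1, π ^ e, e ^ e, π ^ π]` and `δ`, `B = q 0`, and `z : Fin 6 → ℝ` from `exists_ai_near`
for `![exp 1, log π, 1, π ^ e, e ^ e, π ^ π]` and `δ`; all `z i > 0` by `one_lt_targets`, `δ ≤ 1`. Put
`e = z 0`, `l = z 1`, `p = B / e`, `r i = if i ∈ T then q (i + 1) else z (gIII i)`. `core` with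
`dat_III` and `strong_III` (`T = ∅`) or `quad_III` (`T = {j}`; `Finset.card_le_one_iff_subset_singleton` or
cases) gives `f`, `g` with `f (l + 1) = log B`, `f 1 = log e`, so
`f l = log B - log e = log p`, `f (arg i) = log (r i)`, `f p = log (z 2)`. Apply `model_of`. `hS`: the
set `insert 1 (T.map ind)` is in `strong` only for `T = ∅` among the `T` with at most one element
(`decide`). `hN`: `![B / z 0, z 2]` is algebraically independent by `ai_of_alg` from `![z 0, z 2]`. The
pattern: `p * e = B`, `p + e = B / e + e` is transcendental by `transc_III`.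
-/

set_option autoImplicit false

namespace Pool.Agent.Pat5

theorem model_III_strong : ∀ T : Finset (Fin 3), T.card ≤ 1 →
    insert 1 (T.map ind) ∈ strong → T = ∅ := by
  decide

theorem model_III (T : Finset (Fin 3)) (hT : T.card ≤ 1) (ε : ℝ) (hε : 0 < ε) :
    Model (insert 1 (T.map ind)) ε := by
  obtain ⟨δ, hδ, hδε, hδ1, hnear⟩ := near_III ε hε
  obtain ⟨t1, t2, t3, t4, t5, t6⟩ := one_lt_targets
  have hE : (0 : ℝ) < Real.exp 1 := Real.exp_pos 1
  obtain ⟨q, hq, hqn, hqli⟩ := exists_rat_near ![Real.pi * Real.exp 1, Real.pi ^ Real.exp 1,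
    Real.exp 1 ^ Real.exp 1, Real.pi ^ Real.pi] (by
      intro i
      fin_cases i
      · exact mul_pos Real.pi_pos hE
      · exact Real.rpow_pos_of_pos Real.pi_pos _
      · exact Real.rpow_pos_of_pos hE _
      · exact Real.rpow_pos_of_pos Real.pi_pos _) δ hδ
  obtain ⟨z, hz, hzn⟩ := exists_ai_near ![Real.exp 1, Real.log Real.pi, 1,
    Real.pi ^ Real.exp 1, Real.exp 1 ^ Real.exp 1, Real.pi ^ Real.pi] δ hδ
  have a0 : |z 0 - Real.exp 1| < δ := hzn 0
  have a1 : |z 1 - Real.log Real.pi| < δ := hzn 1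
  have a2 : |z 2 - 1| < δ := hzn 2
  have a3 : |z 3 - Real.pi ^ Real.exp 1| < δ := hzn 3
  have a4 : |z 4 - Real.exp 1 ^ Real.exp 1| < δ := hzn 4
  have a5 : |z 5 - Real.pi ^ Real.pi| < δ := hzn 5
  have b0 : |(q 0 : ℝ) - Real.pi * Real.exp 1| < δ := hqn 0
  have b1 : |(q 1 : ℝ) - Real.pi ^ Real.exp 1| < δ := hqn 1
  have b2 : |(q 2 : ℝ) - Real.exp 1 ^ Real.exp 1| < δ := hqn 2
  have b3 : |(q 3 : ℝ) - Real.pi ^ Real.pi| < δ := hqn 3
  have aux : ∀ x t : ℝ, |x - t| < δ → 1 ≤ t → 0 < x := by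
    intro x t h ht
    have := (abs_lt.mp h).1
    linarith
  have hpos : ∀ i, 0 < z i := by
    intro i
    fin_cases i
    · exact aux _ _ a0 t1.le
    · exact aux _ _ a1 t3.le
    · exact aux _ _ a2 le_rfl
    · exact aux _ _ a3 t4.le
    · exact aux _ _ a4 t5.le
    · exact aux _ _ a5 t6.le
  have hq0 : (0 : ℝ) < (q 0 : ℝ) := by exact_mod_cast hq 0
  have hSQ : Strong (q 0 / z 0) (fun o : Option {i // i ∈ T} =>
        o.elim (z 1 + 1) fun i => arg (z 0) (q 0 / z 0) (z 1) i) ∨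
      QuadHyp z (q 0 / z 0) (fun o : Option {i // i ∈ T} =>
        o.elim (z 1 + 1) fun i => arg (z 0) (q 0 / z 0) (z 1) i) := by
    rcases Nat.le_one_iff_eq_zero_or_eq_one.mp hT with h | h
    · have hT0 : T = ∅ := Finset.card_eq_zero.mp h
      subst hT0
      exact Or.inl (strong_III z hz (q 0) (hq 0))
    · obtain ⟨j, hj⟩ := Finset.card_eq_one.mp h
      subst hj
      exact Or.inr (quad_III z hz (q 0) (hq 0) j)
  obtain ⟨f, g, hf1, hg, hfv, hfX, hTh, hLog⟩ := core (dat_III z hz hpos T q hq hqli) hSQ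
  obtain ⟨r, hr⟩ : ∃ r : Fin 3 → ℝ, ∀ i, r i = if i ∈ T then (q i.succ : ℝ) else z (gIII i) :=
    ⟨_, fun _ => rfl⟩
  have hrpos : ∀ i, 0 < r i := by
    intro i
    rw [hr]
    split_ifs
    · exact_mod_cast hq _
    · exact hpos _
  have harg : ∀ i, f (arg (z 0) (q 0 / z 0) (z 1) i) = Real.log (r i) := by
    intro i
    by_cases h : i ∈ T
    · rw [hr, if_pos h]
      exact hfv (some ⟨i, h⟩)
    · rw [hr, if_neg h]
      exact hfX (Sum.inl ⟨i, h⟩)
  have hfl : f (z 1) = Real.log (q 0 / z 0) := by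
    have h1 : f (z 1 + 1) = Real.log (q 0) := hfv none
    rw [map_add, hf1] at h1
    rw [Real.log_div hq0.ne' (hpos 0).ne']
    linarith
  have hfp : f (q 0 / z 0) = Real.log (z 2) := hfX (Sum.inr ())
  have hnr := hnear (q 0) (z 0) b0 a0
  have hmul : (q 0 : ℝ) / z 0 * z 0 = q 0 := div_mul_cancel₀ _ (hpos 0).ne'
  have hr0 : |r 0 - Real.pi ^ Real.exp 1| < δ := by
    rw [hr]; split_ifs
    · exact b1
    · exact a3
  have hr1 : |r 1 - Real.exp 1 ^ Real.exp 1| < δ := by
    rw [hr]; split_ifs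
    · exact b2
    · exact a4
  have hr2 : |r 2 - Real.pi ^ Real.pi| < δ := by
    rw [hr]; split_ifs
    · exact b3
    · exact a5
  have htz : ∀ k, Transcendental ℚ (z k) := by
    intro k h
    exact hz.transcendental k ((isAlgebraic_algebraMap_iff
      (algebraMap ℝ ℂ).injective).mpr h)
  refine model_of f g (hpos 0) (div_pos hq0 (hpos 0)) hrpos hf1 hfl hg (harg 0) (harg 1)
    (harg 2) hTh ?_ ?_ ?_ ?_ hnr.2.1 (a1.trans_le hδε) (a0.trans_le hδε) ?_
  · intro hS
    apply hLog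
    have hT0 : T = ∅ := model_III_strong T hT hS
    subst hT0
    exact strong_III z hz (q 0) (hq 0)
  · rw [hfp, Real.exp_log (hpos 2)]
    have hx : AlgebraicIndependent ℚ ![(z 0 : ℂ), (z 2 : ℂ)] := by
      have h := hz.comp ![(0 : Fin 6), 2] (by decide)
      convert h using 1
      ext i
      fin_cases i <;> rfl
    refine ai_of_alg hx ?_
    intro i
    fin_cases i
    · have hmem : ((q 0 / z 0 : ℝ) : ℂ) ∈ IntermediateField.adjoin ℚ
          (Set.range ![((q 0 / z 0 : ℝ) : ℂ), (z 2 : ℂ)]) :=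
        IntermediateField.subset_adjoin _ _ ⟨0, rfl⟩
      have hmem2 : (z 0 : ℂ) ∈ IntermediateField.adjoin ℚ
          (Set.range ![((q 0 / z 0 : ℝ) : ℂ), (z 2 : ℂ)]) := by
        have h3 : (z 0 : ℂ) = (q 0 : ℂ) / ((q 0 / z 0 : ℝ) : ℂ) := by
          have h4 : (z 0 : ℝ) = (q 0 : ℝ) / (q 0 / z 0 : ℝ) := by
            rw [div_div_cancel₀ hq0.ne']
          have h5 := congrArg (fun x : ℝ => (x : ℂ)) h4
          simpa using h5
        rw [h3]
        refine div_mem ?_ hmem
        exact (IntermediateField.adjoin ℚ _).algebraMap_mem (q 0)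
      exact isAlgebraic_algebraMap (⟨_, hmem2⟩ : IntermediateField.adjoin ℚ
          (Set.range ![((q 0 / z 0 : ℝ) : ℂ), (z 2 : ℂ)]))
    · have hmem : (z 2 : ℂ) ∈ IntermediateField.adjoin ℚ
          (Set.range ![((q 0 / z 0 : ℝ) : ℂ), (z 2 : ℂ)]) :=
        IntermediateField.subset_adjoin _ _ ⟨1, rfl⟩
      exact isAlgebraic_algebraMap (⟨_, hmem⟩ : IntermediateField.adjoin ℚ
          (Set.range ![((q 0 / z 0 : ℝ) : ℂ), (z 2 : ℂ)]))
  · intro i hi
    rcases Finset.mem_insert.mp hi with h | h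
    · subst h
      exact ⟨q 0, hmul⟩
    · obtain ⟨j, hj, rfl⟩ := Finset.mem_map.mp h
      refine ⟨q j.succ, ?_⟩
      have : fiveR (z 0) (q 0 / z 0) r (ind j) = r j := by
        fin_cases j <;> rfl
      rw [this, hr, if_pos hj]
  · intro i hi
    rw [Finset.mem_insert, not_or] at hi
    have key : ∀ j, j ∉ T → Transcendental ℚ (r j) := by
      intro j hj
      rw [hr, if_neg hj]
      exact htz _
    have hmap : ∀ j, ind j ∉ T.map ind → j ∉ T := fun j h1 h2 =>
      h1 (Finset.mem_map_of_mem ind h2)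
    fin_cases i
    · intro h
      have h2 := transc_III (q 0) (hq 0).ne' (hz.transcendental 0)
      apply h2
      have h3 := (isAlgebraic_algebraMap_iff (R := ℚ) (A := ℂ)
        (algebraMap ℝ ℂ).injective).mpr h
      have h4 : (algebraMap ℝ ℂ) (fiveR (z 0) (q 0 / z 0) r 0) =
          (q 0 : ℂ) / (z 0 : ℂ) + (z 0 : ℂ) := by
        simp [fiveR]
      exact h4 ▸ h3
    · exact absurd rfl hi.1
    · exact key 0 (hmap 0 hi.2)
    · exact key 1 (hmap 1 hi.2)
    · exact key 2 (hmap 2 hi.2)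
  · intro i
    fin_cases i
    · exact hnr.2.2
    · change |(q 0 : ℝ) / z 0 * z 0 - Real.pi * Real.exp 1| < ε
      rw [hmul]
      exact b0.trans_le hδε
    · exact hr0.trans_le hδε
    · exact hr1.trans_le hδε
    · exact hr2.trans_le hδε

end Pool.Agent.Pat5
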