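import Mathlib
import Pool.Agent.Pat5.Model
import Pool.Agent.SharpSix.Fin1
import Pool.Agent.BakerH.Five

/-!
# Pat5 P35: the five numbers themselves

Proof. The hypothesis `hAD` of `SharpSix.count` is `BakerH.of_D` as in
`Pool/Agent/Results/MP_a49cf6_nt/TwoTranscendental.lean` (copy the argument; do not import the file).
A set of indices which is not in `good` contains one of the sets `{0, 1}`, `{0, 3}`, `{0, 2, 4}`,
`{1, 2, 3}`, `{1, 3, 4}`, `{1, 2, 4}` (`decide`), and each of them is excluded by `SharpSix.not_AB`,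
`BakerH.of_D`, `SharpSix.not_ACE`, `SharpSix.not_BCD_alg`, `SharpSix.not_BDE_alg`,
`SharpSix.not_BCE_alg`.
-/

set_option autoImplicit false

namespace Pool.Agent.Pat5

private theorem bad_good' (S : Finset (Fin 5)) (h : S ∉ good) : (0 ∈ S ∧ 1 ∈ S) ∨
    (0 ∈ S ∧ 3 ∈ S) ∨ (0 ∈ S ∧ 2 ∈ S ∧ 4 ∈ S) ∨ (1 ∈ S ∧ 2 ∈ S ∧ 3 ∈ S) ∨
    (1 ∈ S ∧ 3 ∈ S ∧ 4 ∈ S) ∨ (1 ∈ S ∧ 2 ∈ S ∧ 4 ∈ S) := by
  revert S
  decide

private theorem alg_of_rat' {r : ℝ} (h : ∃ q : ℚ, r = q) : IsAlgebraic ℚ r := by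
  obtain ⟨q, rfl⟩ := h
  exact isAlgebraic_algebraMap q

/-- `π + e` and `e ^ e` are not both algebraic. -/
private theorem not_AD_true (hA : IsAlgebraic ℚ (Real.pi + Real.exp 1))
    (hD : IsAlgebraic ℚ (Real.exp 1 ^ Real.exp 1)) : False := by
  apply BakerH.of_D hD (a := 1) (b := 1) isAlgebraic_one isAlgebraic_one
    (Or.inl one_ne_zero)
  rw [one_mul, one_mul, ← Complex.ofReal_add]
  exact BakerK.isAlgebraic_ofReal hA

theorem true_good (S : Finset (Fin 5))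
    (hS : ∀ i, i ∈ S ↔ ∃ q : ℚ, fiveR (Real.exp 1) Real.pi trueR i = q) : S ∈ good := by
  by_contra hcon
  have e0 : fiveR (Real.exp 1) Real.pi trueR 0 = Real.pi + Real.exp 1 := rfl
  have e1 : fiveR (Real.exp 1) Real.pi trueR 1 = Real.pi * Real.exp 1 := rfl
  have e2 : fiveR (Real.exp 1) Real.pi trueR 2 = Real.pi ^ Real.exp 1 := rfl
  have e3 : fiveR (Real.exp 1) Real.pi trueR 3 = Real.exp 1 ^ Real.exp 1 := rfl
  have e4 : fiveR (Real.exp 1) Real.pi trueR 4 = Real.pi ^ Real.pi := rfl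
  have h0 := hS 0
  have h1 := hS 1
  have h2 := hS 2
  have h3 := hS 3
  have h4 := hS 4
  rw [e0] at h0
  rw [e1] at h1
  rw [e2] at h2
  rw [e3] at h3
  rw [e4] at h4
  rcases bad_good' S hcon with ⟨a, b⟩ | ⟨a, b⟩ | ⟨a, b, c⟩ | ⟨a, b, c⟩ | ⟨a, b, c⟩ | ⟨a, b, c⟩
  · exact SharpSix.not_AB (alg_of_rat' (h0.1 a)) (alg_of_rat' (h1.1 b))
  · exact not_AD_true (alg_of_rat' (h0.1 a)) (alg_of_rat' (h3.1 b))
  · obtain ⟨A, hA⟩ := h0.1 a
    exact SharpSix.not_ACE A hA (alg_of_rat' (h2.1 b)) (alg_of_rat' (h4.1 c))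
  · exact SharpSix.not_BCD_alg (alg_of_rat' (h1.1 a)) (alg_of_rat' (h2.1 b))
      (alg_of_rat' (h3.1 c))
  · exact SharpSix.not_BDE_alg (alg_of_rat' (h1.1 a)) (alg_of_rat' (h3.1 b))
      (alg_of_rat' (h4.1 c))
  · obtain ⟨B, hB⟩ := h1.1 a
    exact SharpSix.not_BCE_alg B hB (alg_of_rat' (h2.1 b)) (alg_of_rat' (h4.1 c))

end Pool.Agent.Pat5
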