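import Mathlib
import Pool.Agent.Pat5.ModelI
import Pool.Agent.Pat5.ModelII
import Pool.Agent.Pat5.ModelIII
import Pool.Agent.Pat5.Conv
import Pool.Agent.Pat5.TrueNum

/-!
# Pat5: the final assembly
-/

set_option autoImplicit false

namespace Pool.Agent.Pat5

open Complex

/-- Every allowed pattern is realised. -/
theorem model_good (S : Finset (Fin 5)) (hS : S ∈ good) (ε : ℝ) (hε : 0 < ε) : Model S ε := by
  have h : (∃ T : Finset (Fin 3), S = T.map ind) ∨ S = {0} ∨ S = {0, 2} ∨ S = {0, 4} ∨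
      ∃ T : Finset (Fin 3), T.card ≤ 1 ∧ S = insert 1 (T.map ind) := by
    revert S
    decide
  rcases h with ⟨T, rfl⟩ | rfl | rfl | rfl | ⟨T, hT, rfl⟩
  · exact model_I T ε hε
  · exact model_II_0 ε hε
  · exact model_II_2 ε hε
  · exact model_II_4 ε hε
  · exact model_III T hT ε hε

/-- Either `π + e` is irrational, or the product of `π ^ e` and `π ^ π` is transcendental. -/
theorem sum_or_powers :
    Irrational (Real.pi + Real.exp 1) ∨
      Transcendental ℚ (Real.pi ^ Real.exp 1 * Real.pi ^ Real.pi) := by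
  by_contra hcon
  rw [not_or] at hcon
  obtain ⟨h1, h2⟩ := hcon
  have h2 : IsAlgebraic ℚ (Real.pi ^ Real.exp 1 * Real.pi ^ Real.pi) := not_not.mp h2
  have h1 : Real.pi + Real.exp 1 ∈ Set.range ((↑) : ℚ → ℝ) := not_not.mp h1
  obtain ⟨r, hr⟩ := h1
  rw [← Real.rpow_add Real.pi_pos, add_comm (Real.exp 1), ← hr] at h2
  have hr0 : 0 < r := by
    have h3 : (0 : ℝ) < (r : ℝ) := by
      rw [hr]
      exact add_pos Real.pi_pos (Real.exp_pos 1)
    exact_mod_cast h3
  have hpow : (Real.pi ^ (r : ℝ)) ^ r.den = Real.pi ^ r.num.toNat := by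
    rw [← Real.rpow_natCast, ← Real.rpow_mul Real.pi_pos.le, ← Real.rpow_natCast]
    congr 1
    have h4 : ((r.num.toNat : ℕ) : ℝ) = (r.num : ℝ) := by
      have h5 : ((r.num.toNat : ℕ) : ℤ) = r.num :=
        Int.toNat_of_nonneg (Rat.num_nonneg.mpr hr0.le)
      exact_mod_cast congrArg (fun z : ℤ => (z : ℝ)) h5
    rw [h4]
    have h6 : (r : ℝ) * (r.den : ℝ) = (r.num : ℝ) := by
      exact_mod_cast congrArg (fun q : ℚ => (q : ℝ)) (Rat.mul_den_eq_num r)
    exact h6
  have h7 : IsAlgebraic ℚ (Real.pi ^ r.num.toNat) := by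
    rw [← hpow]; exact h2.pow _
  have hn : 0 < r.num.toNat := by
    have := Rat.num_pos.mpr hr0
    omega
  exact Pool.Agent.Lib.LW.transcendental_pi (h7.of_pow hn)

end Pool.Agent.Pat5
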